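import Pool.Agent.R330.LT.Seq

set_option autoImplicit false

/-!
# Bounds for the partial products
-/

namespace Pool.Agent.R330.LT

open Finset

/-- `D_j = k F_j - P_j` -/
noncomputable def DR (k : ℕ) (x : ℕ → ℕ) (j : ℕ) : ℝ := k * FF x j - PP x j

/-- `E_j = P_j / D_j + 1` -/
noncomputable def ER (k : ℕ) (x : ℕ → ℕ) (j : ℕ) : ℝ := PP x j / DR k x j + 1

theorem DR_ge {k r : ℕ} {x : ℕ → ℕ} (h : Sq k r x) {j : ℕ} (hj : j < r) : 1 ≤ DR k x j := by
  have := h.pre j hj
  have h2 : (PP x j : ℝ) + 1 ≤ k * FF x j := by exact_mod_cast this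
  unfold DR
  linarith

theorem PP_pos {k r : ℕ} {x : ℕ → ℕ} (h : Sq k r x) {j : ℕ} (hj : j ≤ r) : 1 ≤ PP x j := by
  show 0 < ∏ i ∈ range j, x i
  apply prod_pos
  intro i hi
  have h1 := mem_range.1 hi
  have h2 := h.two i (by omega)
  omega

theorem ER_le {k r : ℕ} {x : ℕ → ℕ} (h : Sq k r x) {j : ℕ} (hj : j < r) :
    ER k x j ≤ 2 * PP x j := by
  have h1 := DR_ge h hj
  have h2 : (1 : ℝ) ≤ PP x j := by exact_mod_cast PP_pos h hj.le
  have h3 : (PP x j : ℝ) / DR k x j ≤ PP x j := div_le_self (by linarith) h1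
  unfold ER
  linarith

theorem ER_ge {k r : ℕ} {x : ℕ → ℕ} (h : Sq k r x) {j : ℕ} (hj : j < r) : 1 ≤ ER k x j := by
  have h1 := DR_ge h hj
  have : 0 ≤ (PP x j : ℝ) / DR k x j := by positivity
  unfold ER
  linarith

theorem x_mono {k r : ℕ} {x : ℕ → ℕ} (h : Sq k r x) {i j : ℕ} (hij : i ≤ j) (hj : j < r) :
    x i ≤ x j := by
  induction j with
  | zero => have : i = 0 := by omega
            subst this; exact le_rfl
  | succ j ih =>
    rcases Nat.lt_or_ge i (j + 1) with h1 | h1
    · have h2 := ih (by omega) (by omega)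
      have h3 := h.lt j hj
      omega
    · have : i = j + 1 := by omega
      subst this; exact le_rfl

/-- the next term is at most `r E_j` -/
theorem x_le {k r : ℕ} {x : ℕ → ℕ} (h : Sq k r x) {j : ℕ} (hj : j < r) :
    (x j : ℝ) ≤ r * ER k x j := by
  have hxj : (2 : ℝ) ≤ x j := by exact_mod_cast h.two j hj
  have hD := DR_ge h hj
  have hP : (1 : ℝ) ≤ PP x j := by exact_mod_cast PP_pos h hj.le
  have hk : (k : ℝ) * FF x j = PP x j + DR k x j := by unfold DR; ring
  have hkpos : (0 : ℝ) < k := by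
    rcases Nat.eq_zero_or_pos k with h0 | h0
    · exfalso
      have hk0 : (k : ℝ) = 0 := by rw [h0]; simp
      rw [hk0, zero_mul] at hk
      linarith
    · exact_mod_cast h0
  have hFpos : (0 : ℝ) < FF x j := by
    rcases (Nat.cast_nonneg (FF x j) : (0 : ℝ) ≤ FF x j).eq_or_lt with h0 | h0
    · exfalso
      rw [← h0] at hk
      simp at hk
      linarith
    · exact h0
  -- the tail
  have hx1 : ∀ i, i < r → (1 : ℝ) < x i := by
    intro i hi
    have := h.two i hi
    exact_mod_cast (by omega : 1 < x i)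
  have e1 : (PP x r : ℝ) = PP x j * ∏ i ∈ range (r - j), (x (j + i) : ℝ) := by
    rw [cast_PP, cast_PP]
    have : r = j + (r - j) := by omega
    conv_lhs => rw [this]
    exact prod_range_add _ _ _
  have e2 : (FF x r : ℝ) = FF x j * ∏ i ∈ range (r - j), ((x (j + i) : ℝ) - 1) := by
    rw [cast_FF x r h.two, cast_FF x j (fun i hi => h.two i (by omega))]
    have : r = j + (r - j) := by omega
    conv_lhs => rw [this]
    exact prod_range_add _ _ _
  have hfin : (k : ℝ) * FF x r ≤ PP x r := by exact_mod_cast h.fin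
  rw [e1, e2] at hfin
  have hTpos : 0 < ∏ i ∈ range (r - j), (x (j + i) : ℝ) := by
    apply prod_pos
    intro i hi
    have := hx1 (j + i) (by have := mem_range.1 hi; omega)
    linarith
  have h1 : ∏ i ∈ range (r - j), (1 - 1 / (x (j + i) : ℝ)) ≤ PP x j / (k * FF x j) := by
    rw [prod_one_sub _ _ (fun i hi => hx1 (j + i) (by omega)), div_le_div_iff₀ hTpos (by positivity)]
    nlinarith
  have h2 : (1 - 1 / (x j : ℝ)) ^ (r - j) ≤ ∏ i ∈ range (r - j), (1 - 1 / (x (j + i) : ℝ)) := by
    rw [← card_range (r - j), ← prod_const, card_range]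
    apply prod_le_prod
    · intro i _
      have : 1 / (x j : ℝ) ≤ 1 := by rw [div_le_one (by linarith)]; linarith
      linarith
    · intro i hi
      have h3 : (x j : ℝ) ≤ x (j + i) := by
        exact_mod_cast x_mono h (by omega) (by have := mem_range.1 hi; omega)
      have := one_div_le_one_div_of_le (by linarith) h3
      linarith
  have h3 : 1 - ((r - j : ℕ) : ℝ) * (1 / x j) ≤ (1 - 1 / (x j : ℝ)) ^ (r - j) := by
    have hq : 1 / (x j : ℝ) ≤ 1 := by rw [div_le_one (by linarith)]; linarith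
    have := one_add_mul_le_pow (a := -(1 / (x j : ℝ))) (by linarith) (r - j)
    have e : 1 + ((r - j : ℕ) : ℝ) * -(1 / (x j : ℝ)) = 1 - ((r - j : ℕ) : ℝ) * (1 / x j) := by ring
    rw [e] at this
    have e' : 1 + -(1 / (x j : ℝ)) = 1 - 1 / (x j : ℝ) := by ring
    rwa [e'] at this
  have h4 : (PP x j : ℝ) / (k * FF x j) = 1 - 1 / ER k x j := by
    rw [hk]
    unfold ER
    have : (PP x j : ℝ) + DR k x j ≠ 0 := by linarith
    have h0 : DR k x j ≠ 0 := by linarith
    field_simp
    ring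
  have h5 : 1 / ER k x j ≤ ((r - j : ℕ) : ℝ) * (1 / x j) := by linarith
  have hE := ER_ge h hj
  have h6 : ((r - j : ℕ) : ℝ) ≤ r := by exact_mod_cast Nat.sub_le r j
  have h7 : 1 / ER k x j ≤ (r : ℝ) * (1 / x j) :=
    h5.trans (mul_le_mul_of_nonneg_right h6 (by positivity))
  rw [mul_one_div, div_le_div_iff₀ (by linarith) (by linarith)] at h7
  linarith

theorem ER_pos {k r : ℕ} {x : ℕ → ℕ} (h : Sq k r x) {j : ℕ} (hj : j < r) : 0 < ER k x j := by
  have := ER_ge h hj
  linarith

/-- naive bound -/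
theorem PP_naive {k r : ℕ} {x : ℕ → ℕ} (h : Sq k r x) :
    ∀ j, j ≤ r → (PP x j : ℝ) * (2 * r) ≤ (2 * r) ^ (2 ^ j) := by
  intro j
  induction j with
  | zero => intro _; simp [PP]
  | succ j ih =>
    intro hj
    have h1 := ih (by omega)
    have h2 := x_le h (show j < r by omega)
    have h3 := ER_le h (show j < r by omega)
    have hP : (1 : ℝ) ≤ PP x j := by exact_mod_cast PP_pos h (show j ≤ r by omega)
    have hr : (1 : ℝ) ≤ r := by
      have : 1 ≤ r := by omega
      exact_mod_cast this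
    rw [PP_succ, pow_succ, pow_mul]
    push_cast
    have h4 : (x j : ℝ) ≤ 2 * r * PP x j := by nlinarith
    calc (PP x j : ℝ) * x j * (2 * r) ≤ PP x j * (2 * r * PP x j) * (2 * r) := by
          apply mul_le_mul_of_nonneg_right _ (by positivity)
          exact mul_le_mul_of_nonneg_left h4 (by positivity)
      _ = (PP x j * (2 * r)) ^ 2 := by ring
      _ ≤ ((2 * r) ^ 2 ^ j) ^ 2 := pow_le_pow_left₀ (by positivity) h1 2

/-- `M_j = 2^(2^j/100)` -/
noncomputable def MR (j : ℕ) : ℝ := (2 : ℝ) ^ ((2 : ℝ) ^ j / 100)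

theorem MR_succ (j : ℕ) : MR (j + 1) = MR j ^ 2 := by
  unfold MR
  rw [← Real.rpow_natCast ((2 : ℝ) ^ ((2 : ℝ) ^ j / 100)) 2, ← Real.rpow_mul (by norm_num)]
  congr 1
  rw [pow_succ]
  push_cast
  ring

theorem MR_ge (j : ℕ) : 1 ≤ MR j := Real.one_le_rpow (by norm_num) (by positivity)

theorem lt_MR {a j : ℕ} (h : a ^ 100 < 2 ^ (2 ^ j)) : (a : ℝ) < MR j := by
  have h1 : (a : ℝ) ^ 100 < MR j ^ 100 := by
    have h2 : MR j ^ 100 = (2 : ℝ) ^ (2 ^ j) := by
      unfold MR
      rw [← Real.rpow_natCast ((2 : ℝ) ^ ((2 : ℝ) ^ j / 100)) 100, ← Real.rpow_mul (by norm_num)]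
      have e : (2 : ℝ) ^ j / 100 * ((100 : ℕ) : ℝ) = ((2 ^ j : ℕ) : ℝ) := by
        push_cast; ring
      rw [e, Real.rpow_natCast]
    rw [h2]
    exact_mod_cast h
  exact lt_of_pow_lt_pow_left₀ 100 (by linarith [MR_ge j]) h1

/-- the bound in the main case -/
theorem case_one {k r : ℕ} {x : ℕ → ℕ} (h : Sq k r x) (hA : Adm 13 r x) (hk2 : 2 ≤ k)
    (h3 : x 0 = 3 → 4 ≤ k) {j : ℕ} (hj : j + 1 < r) (h13 : 12 ≤ j)
    (hD : DR k x (j + 1) ≤ PP x j) : (PP x (j + 1) : ℝ) * ER k x (j + 1) ≤ 2 * MR (j + 2) := by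
  have hpre := h.pre (j + 1) hj
  obtain ⟨D, hDn⟩ : ∃ D, k * FF x (j + 1) = PP x (j + 1) + D := ⟨_, (Nat.add_sub_cancel' hpre.le).symm⟩
  have hD1 : 1 ≤ D := by omega
  have hDR : DR k x (j + 1) = D := by
    unfold DR
    have : (k : ℝ) * FF x (j + 1) = PP x (j + 1) + D := by exact_mod_cast hDn
    linarith
  rw [hDR] at hD
  have hDle : D ≤ PP x j := by exact_mod_cast hD
  set X := PP x (j + 1) / D + 1 with hX
  set x' : ℕ → ℕ := Function.update x (j + 1) X with hx'
  have hxl : ∀ i, i < j + 1 → x' i = x i := by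
    intro i hi
    rw [hx', Function.update_of_ne (by omega)]
  have hxs : x' (j + 1) = X := by rw [hx', Function.update_self]
  have hXgt : x j < X := by
    have h1 : x j ≤ PP x (j + 1) / D := by
      rw [Nat.le_div_iff_mul_le (by omega), PP_succ, mul_comm (PP x j)]
      exact Nat.mul_le_mul_left _ hDle
    omega
  have hPl : ∀ i, i ≤ j + 1 → PP x' i = PP x i := fun i hi =>
    PP_congr (fun l hl => hxl l (by omega))
  have hFl : ∀ i, i ≤ j + 1 → FF x' i = FF x i := fun i hi =>
    FF_congr (fun l hl => hxl l (by omega))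
  have hSq : Sq k (j + 2) x' := by
    refine ⟨?_, ?_, ?_, ?_⟩
    · intro i hi
      rcases Nat.lt_or_ge i (j + 1) with h1 | h1
      · rw [hxl i h1]; exact h.two i (by omega)
      · have : i = j + 1 := by omega
        subst this
        rw [hxs]
        have := h.two j (by omega)
        omega
    · intro i hi
      rcases Nat.lt_or_ge (i + 1) (j + 1) with h1 | h1
      · rw [hxl i (by omega), hxl (i + 1) h1]; exact h.lt i (by omega)
      · have : i = j := by omega
        subst this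
        rw [hxl i (by omega), hxs]
        exact hXgt
    · intro i hi
      rw [hPl i (by omega), hFl i (by omega)]
      exact h.pre i (by omega)
    · rw [PP_succ, FF_succ, hPl _ le_rfl, hFl _ le_rfl, hxs, ← mul_assoc, hDn, hX,
        Nat.add_sub_cancel]
      have := Nat.div_mul_le_self (PP x (j + 1)) D
      nlinarith
  have hAdm : Adm 13 (j + 2) x' := by
    refine ⟨?_, ?_, ?_⟩
    · intro i hi hi2
      rw [hxl i (by omega)]; exact hA.prime i (by omega) hi2
    · intro i hi hi2
      rw [hxl i (by omega)]; exact hA.ge i (by omega) hi2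
    · intro i l hil hl hl2
      rw [hxl i (by omega), hxl l (by omega)]; exact hA.nd i l hil (by omega) hl2
  have hb := bound_seq hSq (by omega) hAdm (fun h => by omega) hk2
    (fun h0 => h3 (by rwa [hxl 0 (by omega)] at h0))
  have hb2 := lt_MR hb
  rw [PP_succ, hPl _ le_rfl, hxs] at hb2
  push_cast at hb2
  have hDpos : (0 : ℝ) < D := by exact_mod_cast hD1
  have hE : ER k x (j + 1) ≤ 2 * X := by
    unfold ER
    rw [hDR]
    have h1 : (PP x (j + 1) : ℝ) / D < X := by
      rw [div_lt_iff₀ hDpos]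
      have := Nat.lt_div_mul_add (a := PP x (j + 1)) (b := D) (by omega)
      have h2 : PP x (j + 1) < X * D := by rw [hX]; nlinarith
      exact_mod_cast h2
    have h2 : (1 : ℝ) ≤ X := by
      rw [hX]; push_cast
      have : (0 : ℝ) ≤ ((PP x (j + 1) / D : ℕ) : ℝ) := Nat.cast_nonneg _
      linarith
    linarith
  calc (PP x (j + 1) : ℝ) * ER k x (j + 1) ≤ PP x (j + 1) * (2 * X) :=
        mul_le_mul_of_nonneg_left hE (by positivity)
    _ = 2 * (PP x (j + 1) * X) := by ring
    _ ≤ 2 * MR (j + 2) := by linarith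

/-- bounds for `E_j` and `P_j E_j` -/
theorem bounds {k r : ℕ} {x : ℕ → ℕ} (h : Sq k r x) (hA : Adm 13 r x) (hk2 : 2 ≤ k)
    (h3 : x 0 = 3 → 4 ≤ k) (j : ℕ) : 12 ≤ j → j < r →
    ER k x j ≤ (2 * r) ^ (2 ^ 13 + j) * MR j ∧
    (PP x j : ℝ) * ER k x j ≤ (2 * r) ^ (2 ^ 14 + j * (2 ^ 13 + 2 + j)) * MR (j + 1) := by
  intro h12
  induction j, h12 using Nat.le_induction with
  | base =>
    intro hj
    have hr : (1 : ℝ) ≤ r := by
      have : 1 ≤ r := by omega
      exact_mod_cast this
    have hP : (1 : ℝ) ≤ PP x 12 := by exact_mod_cast PP_pos h hj.le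
    have h1 := PP_naive h 12 hj.le
    have h2 := ER_le h hj
    have hE := ER_ge h hj
    have hM := MR_ge 12
    have hM' := MR_ge 13
    have h4 : ER k x 12 ≤ (2 * r) ^ (2 ^ 12) := by nlinarith
    have h5 : (PP x 12 : ℝ) ≤ (2 * r) ^ (2 ^ 12) := by nlinarith
    have hK : (1 : ℝ) ≤ 2 * r := by linarith
    constructor
    · calc ER k x 12 ≤ (2 * r) ^ (2 ^ 12) := h4
        _ ≤ (2 * r) ^ (2 ^ 13 + 12) := pow_le_pow_right₀ hK (by norm_num)
        _ ≤ (2 * r) ^ (2 ^ 13 + 12) * MR 12 := le_mul_of_one_le_right (by positivity) hM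
    · calc (PP x 12 : ℝ) * ER k x 12 ≤ (2 * r) ^ (2 ^ 12) * (2 * r) ^ (2 ^ 12) :=
            mul_le_mul h5 h4 (by linarith) (by positivity)
        _ = (2 * r) ^ (2 ^ 12 + 2 ^ 12) := by rw [pow_add]
        _ ≤ (2 * r) ^ (2 ^ 14 + 12 * (2 ^ 13 + 2 + 12)) := pow_le_pow_right₀ hK (by norm_num)
        _ ≤ (2 * r) ^ (2 ^ 14 + 12 * (2 ^ 13 + 2 + 12)) * MR (12 + 1) :=
            le_mul_of_one_le_right (by positivity) hM'
  | succ j h12 ih =>
    intro hj
    obtain ⟨ih1, ih2⟩ := ih (by omega)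
    have hr : (1 : ℝ) ≤ r := by
      have : 1 ≤ r := by omega
      exact_mod_cast this
    have hK : (1 : ℝ) ≤ 2 * r := by linarith
    have hK2 : (2 : ℝ) ≤ 2 * r := by linarith
    have hP : (1 : ℝ) ≤ PP x (j + 1) := by exact_mod_cast PP_pos h hj.le
    have hPj : (1 : ℝ) ≤ PP x j := by exact_mod_cast PP_pos h (show j ≤ r by omega)
    have hE := ER_ge h hj
    have hEj := ER_ge h (show j < r by omega)
    have hM := MR_ge j
    have hM1 := MR_ge (j + 1)
    have hM2 := MR_ge (j + 2)
    rcases le_or_gt (DR k x (j + 1)) (PP x j) with hD | hD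
    · have h1 := case_one h hA hk2 h3 hj h12 hD
      have h2 := ER_le h hj
      constructor
      · have h5 : ER k x (j + 1) ^ 2 ≤ (2 * MR (j + 1)) ^ 2 := by
          have : MR (j + 2) = MR (j + 1) ^ 2 := MR_succ (j + 1)
          rw [this] at h1
          nlinarith
        have h6 : ER k x (j + 1) ≤ 2 * MR (j + 1) := by
          exact le_of_sq_le_sq h5 (by linarith)
        refine h6.trans (mul_le_mul_of_nonneg_right ?_ (by linarith))
        calc (2 : ℝ) ≤ (2 * r) ^ 1 := by rw [pow_one]; exact hK2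
          _ ≤ (2 * r) ^ (2 ^ 13 + (j + 1)) := pow_le_pow_right₀ hK (by omega)
      · refine h1.trans (mul_le_mul_of_nonneg_right ?_ (by linarith))
        calc (2 : ℝ) ≤ (2 * r) ^ 1 := by rw [pow_one]; exact hK2
          _ ≤ (2 * r) ^ (2 ^ 14 + (j + 1) * (2 ^ 13 + 2 + (j + 1))) :=
            pow_le_pow_right₀ hK (by omega)
    · have hD1 := DR_ge h hj
      have h1 : (PP x (j + 1) : ℝ) / DR k x (j + 1) ≤ x j := by
        rw [div_le_iff₀ (by linarith), PP_succ]
        push_cast
        rw [mul_comm]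
        exact mul_le_mul_of_nonneg_left hD.le (by positivity)
      have hxj : (2 : ℝ) ≤ x j := by exact_mod_cast h.two j (by omega)
      have h2 := x_le h (show j < r by omega)
      have h4 : ER k x (j + 1) ≤ 2 * r * ER k x j := by
        have : ER k x (j + 1) ≤ 2 * x j := by unfold ER; linarith
        linarith
      constructor
      · calc ER k x (j + 1) ≤ 2 * r * ER k x j := h4
          _ ≤ 2 * r * ((2 * r) ^ (2 ^ 13 + j) * MR j) :=
              mul_le_mul_of_nonneg_left ih1 (by linarith)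
          _ = (2 * r) ^ (2 ^ 13 + (j + 1)) * MR j := by
              generalize 2 * (r : ℝ) = K
              ring
          _ ≤ (2 * r) ^ (2 ^ 13 + (j + 1)) * MR (j + 1) := by
              apply mul_le_mul_of_nonneg_left _ (by positivity)
              rw [MR_succ]
              nlinarith
      · have h5 : (PP x (j + 1) : ℝ) ≤ PP x j * (2 * r * ER k x j) := by
          rw [PP_succ]; push_cast
          apply mul_le_mul_of_nonneg_left _ (by positivity)
          have : (0 : ℝ) ≤ r * ER k x j := by positivity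
          linarith
        calc (PP x (j + 1) : ℝ) * ER k x (j + 1)
            ≤ (PP x j * (2 * r * ER k x j)) * (2 * r * ER k x j) :=
              mul_le_mul h5 h4 (by linarith) (by positivity)
          _ = (2 * r) ^ 2 * ((PP x j * ER k x j) * ER k x j) := by ring
          _ ≤ (2 * r) ^ 2 * (((2 * r) ^ (2 ^ 14 + j * (2 ^ 13 + 2 + j)) * MR (j + 1)) *
              ((2 * r) ^ (2 ^ 13 + j) * MR j)) := by
              apply mul_le_mul_of_nonneg_left _ (by positivity)
              exact mul_le_mul ih2 ih1 (by linarith) (by positivity)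
          _ = (2 * r) ^ (2 + (2 ^ 14 + j * (2 ^ 13 + 2 + j)) + (2 ^ 13 + j)) *
              (MR (j + 1) * MR j) := by
              generalize 2 * (r : ℝ) = K
              ring
          _ ≤ (2 * r) ^ (2 ^ 14 + (j + 1) * (2 ^ 13 + 2 + (j + 1))) * MR (j + 1 + 1) := by
              apply mul_le_mul _ _ (by positivity) (by positivity)
              · apply pow_le_pow_right₀ hK
                nlinarith
              · rw [MR_succ (j + 1), pow_two]
                apply mul_le_mul_of_nonneg_left _ (by linarith)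
                rw [MR_succ j]
                nlinarith

/-- exponent of the error term -/
def cc (r : ℕ) : ℕ := 1 + 2 ^ 14 + r * (2 ^ 13 + 2 + r)

/-- bound for all partial products -/
theorem PP_bound {k r : ℕ} {x : ℕ → ℕ} (h : Sq k r x) (hA : Adm 13 r x) (hk2 : 2 ≤ k)
    (h3 : x 0 = 3 → 4 ≤ k) {j : ℕ} (hj : j ≤ r) (hr : 1 ≤ r) :
    (PP x j : ℝ) ≤ (2 * r) ^ (cc r) * MR j := by
  have hr' : (1 : ℝ) ≤ r := by exact_mod_cast hr
  have hK : (1 : ℝ) ≤ 2 * r := by linarith
  rcases Nat.lt_or_ge j 13 with h1 | h1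
  · have h2 := PP_naive h j hj
    have hP : (1 : ℝ) ≤ PP x j := by exact_mod_cast PP_pos h hj
    calc (PP x j : ℝ) ≤ PP x j * (2 * r) := le_mul_of_one_le_right (by linarith) hK
      _ ≤ (2 * r) ^ (2 ^ j) := h2
      _ ≤ (2 * r) ^ (cc r) := by
          apply pow_le_pow_right₀ hK
          have : 2 ^ j ≤ 2 ^ 14 := Nat.pow_le_pow_right (by norm_num) (by omega)
          unfold cc
          omega
      _ ≤ (2 * r) ^ (cc r) * MR j := le_mul_of_one_le_right (by positivity) (MR_ge j)
  · obtain ⟨i, rfl⟩ : ∃ i, j = i + 1 := ⟨j - 1, by omega⟩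
    have h2 := (bounds h hA hk2 h3 i (by omega) (by omega)).2
    have h4 := x_le h (show i < r by omega)
    have hE := ER_ge h (show i < r by omega)
    have hM := MR_ge (i + 1)
    rw [PP_succ]
    push_cast
    have hi : (i : ℝ) ≤ r := by exact_mod_cast (by omega : i ≤ r)
    calc (PP x i : ℝ) * x i ≤ PP x i * (2 * r * ER k x i) := by
          apply mul_le_mul_of_nonneg_left _ (by positivity)
          have : (0 : ℝ) ≤ r * ER k x i := by positivity
          linarith
      _ = 2 * r * (PP x i * ER k x i) := by ring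
      _ ≤ 2 * r * ((2 * r) ^ (2 ^ 14 + i * (2 ^ 13 + 2 + i)) * MR (i + 1)) :=
          mul_le_mul_of_nonneg_left h2 (by linarith)
      _ = (2 * r) ^ (1 + 2 ^ 14 + i * (2 ^ 13 + 2 + i)) * MR (i + 1) := by
          generalize 2 * (r : ℝ) = K
          ring
      _ ≤ (2 * r) ^ (cc r) * MR (i + 1) := by
          apply mul_le_mul_of_nonneg_right _ (by linarith)
          apply pow_le_pow_right₀ hK
          unfold cc
          have : i * (2 ^ 13 + 2 + i) ≤ r * (2 ^ 13 + 2 + r) :=
            Nat.mul_le_mul (by omega) (by omega)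
          omega

end Pool.Agent.R330.LT
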