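import Mathlib

set_option autoImplicit false

/-!
# The search

`leaf` extends a state by the smallest possible next primes, `tree` runs through the possible next
primes.
-/

namespace Pool.Agent.R330.LT

/-- evaluate the argument first -/
def force (n : ℕ) (f : ℕ → Bool) : Bool :=
  match n with
  | 0 => f 0
  | k + 1 => f (k + 1)

theorem force_eq (n : ℕ) (f : ℕ → Bool) : force n f = f n := by
  cases n <;> rfl

/-- possible next primes -/
def okq (P0 m : ℕ) : Bool :=
  Nat.beq (Nat.gcd (m - 1) P0) 1 && (Nat.beq (Nat.gcd m 9699690) 1 || (Nat.ble m 19 &&
    (Nat.beq m 3 || Nat.beq m 5 || Nat.beq m 7 || Nat.beq m 11 || Nat.beq m 13 || Nat.beq m 17 ||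
      Nat.beq m 19)))

/-- pass to the next possible prime -/
def nxt (P0 : ℕ) : ℕ → ℕ → (ℕ → Bool) → Bool
  | 0, m, c => c m
  | f + 1, m, c => match okq P0 m with
    | true => c m
    | false => force (m + 1) fun m' => nxt P0 f m' c

/-- greedy extension -/
def leaf (E S P0 : ℕ) : ℕ → ℕ → ℕ → ℕ → ℕ → Bool
  | 0, _, _, _, _ => false
  | f + 1, P, D, s, m =>
    match Nat.ble ((P * (P + D + 1) + D) ^ E) (D ^ E * 2 ^ (2 ^ (s + 1))) with
    | true => true
    | false => match Nat.blt s S with
      | false => false
      | true => nxt P0 60 m fun q => match Nat.ble (D * (q - 1)) P with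
        | true => false
        | false => force (P * q) fun P' => force (D * (q - 1) - P) fun D' =>
            force (s + 1) fun s' => force (q + 1) fun m' => leaf E S P0 f P' D' s' m'

/-- the case that the next prime is the last one -/
def fin1 (E P D s m : ℕ) : Bool :=
  match Nat.beq ((P - 1) % D) 0 with
  | false => true
  | true => force ((P - 1) / D + 1) fun x =>
      match Nat.blt x m with
      | true => true
      | false => match okq P x with
        | false => true
        | true => Nat.blt ((P * x) ^ E) (2 ^ (2 ^ (s + 1)))

/-- search over the next primes -/
def tree (E S : ℕ) : ℕ → ℕ → ℕ → ℕ → ℕ → Bool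
  | 0, _, _, _, _ => false
  | f + 1, P, D, s, m => match Nat.blt s S with
    | false => false
    | true => match fin1 E P D s m with
      | false => false
      | true => force (max m (P / D + 2)) fun m' =>
        match leaf E S P 40 P D s m' with
        | true => true
        | false => nxt P 60 m' fun q => force (q + 1) fun m2 => match tree E S f P D s m2 with
          | false => false
          | true => match Nat.ble (D * (q - 1)) P with
            | true => false
            | false => force (P * q) fun P' => force (D * (q - 1) - P) fun D' =>
              force (s + 1) fun s' => tree E S f P' D' s' m2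

end Pool.Agent.R330.LT
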