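import Pool.Agent.R330.LT.Bd
import Pool.Agent.H353R2.Z2

set_option autoImplicit false

/-!
# Counting with a fixed number of prime factors
-/

namespace Pool.Agent.R330.LT

open Finset

/-- `k φ(m) - m` -/
def dl (k m : ℕ) : ℕ := k * m.totient - m

/-- `m / (k φ(m) - m) + 1` -/
noncomputable def Ef (k m : ℕ) : ℝ := m / (dl k m : ℝ) + 1

theorem Ef_ge (k m : ℕ) : 1 ≤ Ef k m := by
  unfold Ef
  have : (0 : ℝ) ≤ m / (dl k m : ℝ) := by positivity
  linarith

theorem x_strict {k r : ℕ} {x : ℕ → ℕ} (h : Sq k r x) {i j : ℕ} (hij : i < j) (hj : j < r) :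
    x i < x j := by
  have h1 := x_mono h (show i + 1 ≤ j by omega) hj
  have h2 := h.lt i (by omega)
  omega

theorem Data.prime' {n k r : ℕ} {x : ℕ → ℕ} (h : Data n k r x) {i : ℕ} (hi : i < r) :
    (x i).Prime := (h.adm r).prime i hi hi

theorem tot_PP {n k r : ℕ} {x : ℕ → ℕ} (h : Data n k r x) {j : ℕ} (hj : j ≤ r) :
    (PP x j).totient = FF x j := by
  induction j with
  | zero => simp [PP, FF]
  | succ j ih =>
    have hcop : Nat.Coprime (PP x j) (x j) := by
      apply Nat.Coprime.prod_left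
      intro i hi
      have hi' := mem_range.1 hi
      exact (Nat.coprime_primes (h.prime' (by omega)) (h.prime' (by omega))).2
        (x_strict h.sq hi' (by omega)).ne
    rw [PP_succ, FF_succ, Nat.totient_mul hcop, ih (by omega),
      Nat.totient_prime (h.prime' (by omega))]

theorem dl_add {n k r : ℕ} {x : ℕ → ℕ} (h : Data n k r x) {j : ℕ} (hj : j < r) :
    PP x j + dl k (PP x j) = k * FF x j := by
  have := h.sq.pre j hj
  unfold dl
  rw [tot_PP h hj.le]
  omega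

theorem dl_pos {n k r : ℕ} {x : ℕ → ℕ} (h : Data n k r x) {j : ℕ} (hj : j < r) :
    1 ≤ dl k (PP x j) := by
  have := h.sq.pre j hj
  have h2 := dl_add h hj
  omega

theorem dl_cast {n k r : ℕ} {x : ℕ → ℕ} (h : Data n k r x) {j : ℕ} (hj : j < r) :
    (dl k (PP x j) : ℝ) = DR k x j := by
  have h2 := dl_add h hj
  have : (PP x j : ℝ) + dl k (PP x j) = k * FF x j := by exact_mod_cast h2
  unfold DR
  linarith

theorem Ef_eq {n k r : ℕ} {x : ℕ → ℕ} (h : Data n k r x) {j : ℕ} (hj : j < r) :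
    Ef k (PP x j) = ER k x j := by
  unfold Ef ER
  rw [dl_cast h hj]

theorem dl_step {n k r : ℕ} {x : ℕ → ℕ} (h : Data n k r x) {j : ℕ} (hj : j + 1 < r) :
    dl k (PP x (j + 1)) + PP x j = dl k (PP x j) * (x j - 1) := by
  have h1 := dl_add h hj
  have h2 := dl_add h (show j < r by omega)
  have h3 := h.sq.two j (by omega)
  obtain ⟨t, ht⟩ : ∃ t, x j = t + 1 := ⟨x j - 1, by omega⟩
  rw [PP_succ, FF_succ, ← mul_assoc, ← h2, ht, Nat.add_sub_cancel] at h1
  rw [PP_succ, ht, Nat.add_sub_cancel]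
  nlinarith

theorem FF_mono {n k r : ℕ} {x : ℕ → ℕ} (h : Data n k r x) {j : ℕ} (hj : j ≤ r) :
    FF x j ≤ FF x r := by
  have : r = j + (r - j) := by omega
  unfold FF
  conv_rhs => rw [this]
  rw [prod_range_add]
  apply Nat.le_mul_of_pos_right
  apply prod_pos
  intro i hi
  have := h.sq.two (j + i) (by have := mem_range.1 hi; omega)
  omega

theorem PP_lt {n k r : ℕ} {x : ℕ → ℕ} (h : Data n k r x) : PP x r < 2 ^ (2 ^ r) := by
  have h1 := bound_seq h.sq h.pos (h.adm 13) (fun _ => h.eq) h.two (four_le h)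
  exact lt_of_le_of_lt (Nat.le_self_pow (by norm_num) _) h1

theorem dl_le {n k r : ℕ} {x : ℕ → ℕ} (h : Data n k r x) {j : ℕ} (hj : j < r) :
    dl k (PP x j) ≤ 2 ^ (2 ^ r) := by
  have h1 := dl_add h hj
  have h2 := PP_lt h
  have h3 := h.eq
  have h4 := Nat.mul_le_mul_left k (FF_mono h hj.le)
  omega

theorem sum_biUnion_le' (s : Finset ℕ) (t : ℕ → Finset ℕ) (f : ℕ → ℝ) (hf : ∀ a, 0 ≤ f a) :
    ∑ a ∈ s.biUnion t, f a ≤ ∑ m ∈ s, ∑ a ∈ t m, f a := by
  classical
  induction s using Finset.induction_on with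
  | empty => simp
  | insert a s ha ih =>
    rw [biUnion_insert, sum_insert ha]
    have h1 := sum_union_inter (s₁ := t a) (s₂ := s.biUnion t) (f := f)
    have h2 : 0 ≤ ∑ i ∈ t a ∩ s.biUnion t, f i := sum_nonneg (fun i _ => hf i)
    linarith

section

variable {k r : ℕ} {L : Finset ℕ}

/-- the set of the products of the first `j` primes -/
noncomputable def T (L : Finset ℕ) (j : ℕ) : Finset ℕ := L.image (fun n => PP (pseq n) j)

/-- the successors of `m` -/
noncomputable def R (L : Finset ℕ) (j m : ℕ) : Finset ℕ :=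
  (L.filter (fun n => PP (pseq n) j = m)).image (fun n => PP (pseq n) (j + 1))

theorem T_succ (L : Finset ℕ) (j : ℕ) : T L (j + 1) ⊆ (T L j).biUnion (R L j) := by
  intro m hm
  rw [T, mem_image] at hm
  obtain ⟨n, hn, rfl⟩ := hm
  rw [mem_biUnion]
  refine ⟨PP (pseq n) j, mem_image_of_mem _ hn, ?_⟩
  rw [R, mem_image]
  exact ⟨n, mem_filter.2 ⟨hn, rfl⟩, rfl⟩

theorem R_card (hL : ∀ n ∈ L, Data n k r (pseq n)) {j m : ℕ} (hj : j < r) :
    ((R L j m).card : ℝ) ≤ r * Ef k m := by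
  have h1 : R L j m ⊆ (Icc 1 ⌊(r : ℝ) * Ef k m⌋₊).image (fun p => m * p) := by
    intro m' hm'
    rw [R, mem_image] at hm'
    obtain ⟨n, hn, rfl⟩ := hm'
    rw [mem_filter] at hn
    have hd := hL n hn.1
    rw [mem_image]
    refine ⟨pseq n j, ?_, by rw [PP_succ, hn.2]⟩
    rw [mem_Icc]
    refine ⟨by have := hd.sq.two j hj; omega, ?_⟩
    apply Nat.le_floor
    have := x_le hd.sq hj
    rwa [← Ef_eq hd hj, hn.2] at this
  have hE := Ef_ge k m
  calc ((R L j m).card : ℝ) ≤ (((Icc 1 ⌊(r : ℝ) * Ef k m⌋₊).image (fun p => m * p)).card : ℝ) := by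
        exact_mod_cast card_le_card h1
    _ ≤ ((Icc 1 ⌊(r : ℝ) * Ef k m⌋₊).card : ℝ) := by exact_mod_cast card_image_le
    _ = (⌊(r : ℝ) * Ef k m⌋₊ : ℝ) := by simp
    _ ≤ r * Ef k m := Nat.floor_le (by positivity)

theorem R_sum (hL : ∀ n ∈ L, Data n k r (pseq n)) {j m : ℕ} (hj : j + 1 < r) :
    ∑ m' ∈ R L j m, Ef k m' ≤ (m * (r * Ef k m)) * (1 + 2 ^ r) + r * Ef k m := by
  have hE := Ef_ge k m
  have hmem : ∀ m' ∈ R L j m, ∃ n ∈ L, PP (pseq n) j = m ∧ m' = m * pseq n j ∧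
      m' = PP (pseq n) (j + 1) := by
    intro m' hm'
    rw [R, mem_image] at hm'
    obtain ⟨n, hn, rfl⟩ := hm'
    rw [mem_filter] at hn
    exact ⟨n, hn.1, hn.2, by rw [PP_succ, hn.2], rfl⟩
  have hterm : ∀ m' ∈ R L j m, Ef k m' ≤ (m * (r * Ef k m)) * (1 / (dl k m' : ℝ)) + 1 := by
    intro m' hm'
    obtain ⟨n, hn, h1, h2, h3⟩ := hmem m' hm'
    have hd := hL n hn
    have h4 := x_le hd.sq (show j < r by omega)
    rw [← Ef_eq hd (by omega), h1] at h4
    have h5 : (m' : ℝ) ≤ m * (r * Ef k m) := by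
      rw [h2]
      push_cast
      exact mul_le_mul_of_nonneg_left h4 (by positivity)
    rw [Ef, mul_one_div]
    have := div_le_div_of_nonneg_right h5 (Nat.cast_nonneg (dl k m') : (0 : ℝ) ≤ dl k m')
    linarith
  have hinj : Set.InjOn (dl k) (R L j m : Set ℕ) := by
    intro a ha b hb hab
    obtain ⟨n1, hn1, h1, h2, h3⟩ := hmem a ha
    obtain ⟨n2, hn2, h1', h2', h3'⟩ := hmem b hb
    have e1 := dl_step (hL n1 hn1) hj
    have e2 := dl_step (hL n2 hn2) hj
    rw [← h3, h1] at e1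
    rw [← h3', h1'] at e2
    have hDp := dl_pos (hL n1 hn1) (show j < r by omega)
    rw [h1] at hDp
    have h6 : dl k m * (pseq n1 j - 1) = dl k m * (pseq n2 j - 1) := by
      rw [← e1, ← e2, hab]
    have h7 := Nat.eq_of_mul_eq_mul_left (by omega) h6
    have h8 := (hL n1 hn1).sq.two j (by omega)
    have h9 := (hL n2 hn2).sq.two j (by omega)
    rw [h2, h2']
    congr 1
    omega
  have hsum : ∑ m' ∈ R L j m, 1 / (dl k m' : ℝ) ≤ 1 + 2 ^ r := by
    have e : ∑ m' ∈ R L j m, 1 / (dl k m' : ℝ) = ∑ d ∈ (R L j m).image (dl k), 1 / (d : ℝ) := by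
      rw [sum_image hinj]
    rw [e]
    have hsub : (R L j m).image (dl k) ⊆ Icc 1 (2 ^ (2 ^ r) : ℕ) := by
      intro d hd
      rw [mem_image] at hd
      obtain ⟨m', hm', rfl⟩ := hd
      obtain ⟨n, hn, h1, h2, h3⟩ := hmem m' hm'
      rw [mem_Icc, h3]
      exact ⟨dl_pos (hL n hn) hj, dl_le (hL n hn) hj⟩
    refine (sum_le_sum_of_subset_of_nonneg hsub (fun i _ _ => by positivity)).trans ?_
    have h1 : ∑ d ∈ Icc 1 (2 ^ (2 ^ r) : ℕ), 1 / (d : ℝ) = (harmonic (2 ^ (2 ^ r)) : ℝ) := by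
      rw [harmonic_eq_sum_Icc]
      push_cast
      simp only [one_div]
    rw [h1]
    refine (harmonic_le_one_add_log _).trans ?_
    push_cast
    rw [Real.log_pow]
    have h2 := Real.log_two_lt_d9
    push_cast
    have h3 : (0 : ℝ) < 2 ^ r := by positivity
    nlinarith
  calc ∑ m' ∈ R L j m, Ef k m' ≤
      ∑ m' ∈ R L j m, ((m * (r * Ef k m)) * (1 / (dl k m' : ℝ)) + 1) := sum_le_sum hterm
    _ = (m * (r * Ef k m)) * ∑ m' ∈ R L j m, 1 / (dl k m' : ℝ) + (R L j m).card := by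
        rw [sum_add_distrib, ← mul_sum]
        simp
    _ ≤ (m * (r * Ef k m)) * (1 + 2 ^ r) + r * Ef k m :=
        add_le_add (mul_le_mul_of_nonneg_left hsum (by positivity)) (R_card hL (by omega))

/-- growth factor -/
noncomputable def Gr (r : ℕ) : ℝ := r * (2 + 2 ^ r) * (2 * r) ^ (cc r)

theorem T_bound (hL : ∀ n ∈ L, Data n k r (pseq n)) {j m : ℕ} (hj : j ≤ r) (hm : m ∈ T L j) :
    1 ≤ m ∧ (m : ℝ) ≤ (2 * r) ^ (cc r) * MR j := by
  rw [T, mem_image] at hm
  obtain ⟨n, hn, rfl⟩ := hm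
  have hd := hL n hn
  exact ⟨PP_pos hd.sq hj, PP_bound hd.sq (hd.adm 13) hd.two (four_le hd) hj hd.pos⟩

theorem S_step (hL : ∀ n ∈ L, Data n k r (pseq n)) {j : ℕ} (hj : j + 1 < r) :
    ∑ m ∈ T L (j + 1), Ef k m ≤ Gr r * MR j * ∑ m ∈ T L j, Ef k m := by
  calc ∑ m ∈ T L (j + 1), Ef k m ≤ ∑ m ∈ (T L j).biUnion (R L j), Ef k m :=
        sum_le_sum_of_subset_of_nonneg (T_succ L j) (fun i _ _ => by linarith [Ef_ge k i])
    _ ≤ ∑ m ∈ T L j, ∑ m' ∈ R L j m, Ef k m' :=
        sum_biUnion_le' _ _ _ (fun a => by linarith [Ef_ge k a])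
    _ ≤ ∑ m ∈ T L j, Gr r * MR j * Ef k m := by
        apply sum_le_sum
        intro m hm
        refine (R_sum hL hj).trans ?_
        obtain ⟨h1, h2⟩ := T_bound hL (by omega) hm
        have hm1 : (1 : ℝ) ≤ m := by exact_mod_cast h1
        have hE := Ef_ge k m
        have hrE : 0 ≤ (r : ℝ) * Ef k m := by positivity
        have h3 : (m * (r * Ef k m)) * (1 + 2 ^ r) + r * Ef k m ≤
            m * ((r * Ef k m) * (2 + 2 ^ r)) := by nlinarith
        refine h3.trans ?_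
        calc (m : ℝ) * ((r * Ef k m) * (2 + 2 ^ r)) ≤
            ((2 * r) ^ (cc r) * MR j) * ((r * Ef k m) * (2 + 2 ^ r)) :=
              mul_le_mul_of_nonneg_right h2 (by positivity)
          _ = Gr r * MR j * Ef k m := by unfold Gr; ring
    _ = Gr r * MR j * ∑ m ∈ T L j, Ef k m := by rw [mul_sum]

theorem Gr_nonneg (r : ℕ) : 0 ≤ Gr r := by unfold Gr; positivity

theorem S_bound (hL : ∀ n ∈ L, Data n k r (pseq n)) (j : ℕ) (hj : j < r) :
    ∑ m ∈ T L j, Ef k m ≤ 2 * Gr r ^ j * MR j := by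
  induction j with
  | zero =>
    rcases L.eq_empty_or_nonempty with h0 | ⟨n, hn⟩
    · subst h0
      simp only [T, image_empty, sum_empty]
      have := MR_ge 0
      positivity
    · have hk := (hL n hn).two
      have hT : T L 0 ⊆ {1} := by
        intro m hm
        rw [T, mem_image] at hm
        obtain ⟨n, _, rfl⟩ := hm
        simp [PP]
      refine (sum_le_sum_of_subset_of_nonneg hT (fun i _ _ => by linarith [Ef_ge k i])).trans ?_
      rw [sum_singleton]
      have h1 : Ef k 1 ≤ 2 := by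
        unfold Ef dl
        rw [Nat.totient_one, mul_one]
        have h2 : (1 : ℝ) ≤ ((k - 1 : ℕ) : ℝ) := by exact_mod_cast (by omega : 1 ≤ k - 1)
        have h3 : ((1 : ℕ) : ℝ) / ((k - 1 : ℕ) : ℝ) ≤ 1 := by
          rw [div_le_one (by linarith)]
          simpa using h2
        linarith
      have := MR_ge 0
      rw [pow_zero, mul_one]
      linarith
  | succ j ih =>
    have h1 := ih (by omega)
    refine (S_step hL hj).trans ?_
    have hM := MR_ge j
    have hG := Gr_nonneg r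
    calc Gr r * MR j * ∑ m ∈ T L j, Ef k m ≤ Gr r * MR j * (2 * Gr r ^ j * MR j) :=
          mul_le_mul_of_nonneg_left h1 (by positivity)
      _ = 2 * Gr r ^ (j + 1) * MR (j + 1) := by rw [MR_succ]; ring

theorem T_card (hL : ∀ n ∈ L, Data n k r (pseq n)) (j : ℕ) (hj : j < r) :
    ((T L (j + 1)).card : ℝ) ≤ r * (2 * Gr r ^ j * MR j) := by
  have h1 : (T L (j + 1)).card ≤ ∑ m ∈ T L j, (R L j m).card :=
    (card_le_card (T_succ L j)).trans card_biUnion_le
  calc ((T L (j + 1)).card : ℝ) ≤ ((∑ m ∈ T L j, (R L j m).card : ℕ) : ℝ) := by exact_mod_cast h1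
    _ = ∑ m ∈ T L j, ((R L j m).card : ℝ) := by push_cast; rfl
    _ ≤ ∑ m ∈ T L j, r * Ef k m := sum_le_sum (fun m _ => R_card hL hj)
    _ = r * ∑ m ∈ T L j, Ef k m := by rw [mul_sum]
    _ ≤ r * (2 * Gr r ^ j * MR j) := mul_le_mul_of_nonneg_left (S_bound hL j hj) (by positivity)

end

/-- the number whose divisors parametrise the last two primes -/
def Nn (k m : ℕ) : ℕ := m * (m + dl k m) - dl k m

theorem last_two {n k t : ℕ} {x : ℕ → ℕ} (h : Data n k (t + 3) x) :
    dl k (PP x (t + 2)) * (x (t + 2) - 1) + 1 = PP x (t + 2) ∧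
    dl k (PP x (t + 2)) ∣ Nn k (PP x (t + 1)) := by
  have h1 := dl_add h (show t + 2 < t + 3 by omega)
  have h2 := dl_step h (show t + 1 + 1 < t + 3 by omega)
  have h3 := h.eq
  rw [PP_succ, FF_succ, ← mul_assoc, ← h1] at h3
  have hq := h.sq.two (t + 2) (by omega)
  have hp := h.sq.two (t + 1) (by omega)
  obtain ⟨q, hq'⟩ : ∃ q, x (t + 2) = q + 1 := ⟨x (t + 2) - 1, by omega⟩
  obtain ⟨p, hp'⟩ : ∃ p, x (t + 1) = p + 1 := ⟨x (t + 1) - 1, by omega⟩
  rw [hq', Nat.add_sub_cancel] at h3 ⊢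
  rw [hp', Nat.add_sub_cancel] at h2
  have e1 : PP x (t + 1 + 1) = PP x (t + 1) * (p + 1) := by rw [PP_succ, hp']
  have e2 : t + 1 + 1 = t + 2 := rfl
  rw [e2] at h2 e1
  set u := dl k (PP x (t + 2)) with hu
  set D := dl k (PP x (t + 1)) with hD
  set m := PP x (t + 1) with hm
  have h4 : u * q + 1 = PP x (t + 2) := by nlinarith
  refine ⟨h4, ?_⟩
  rw [e1] at h4
  have hm1 : 1 ≤ m := PP_pos h.sq (by omega)
  have hD1 : 1 ≤ D := dl_pos h (by omega)
  have h5 : m * (m + D) = (D * (u * q) - m * u) + D ∧ m * u ≤ D * (u * q) := by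
    have e3 : D * (u * q) + D = m * (m + D) + m * u := by
      have : D * (u * q + 1) = D * (m * (p + 1)) := by rw [h4]
      have e4 : D * (m * (p + 1)) = m * (D * p) + m * D := by ring
      rw [e4, ← h2] at this
      nlinarith
    have e5 : D ≤ m * (m + D) := by nlinarith
    constructor
    · omega
    · omega
  unfold Nn
  rw [← hD, h5.1, Nat.add_sub_cancel]
  apply Nat.dvd_sub
  · exact ⟨D * q, by ring⟩
  · exact Dvd.intro_left _ rfl

theorem Nn_bounds {n k t : ℕ} {x : ℕ → ℕ} (h : Data n k (t + 3) x) :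
    Nn k (PP x (t + 1)) ≠ 0 ∧ Nn k (PP x (t + 1)) ≤ k * PP x (t + 1) ^ 2 := by
  have hD1 := dl_pos h (show t + 1 < t + 3 by omega)
  have hm1 : 1 ≤ PP x (t + 1) := PP_pos h.sq (by omega)
  have h1 := dl_add h (show t + 1 < t + 3 by omega)
  have hF : FF x (t + 1) ≤ PP x (t + 1) := prod_le_prod' (fun i _ => Nat.sub_le _ _)
  unfold Nn
  constructor
  · have : dl k (PP x (t + 1)) < PP x (t + 1) * (PP x (t + 1) + dl k (PP x (t + 1))) := by nlinarith
    omega
  · calc PP x (t + 1) * (PP x (t + 1) + dl k (PP x (t + 1))) - dl k (PP x (t + 1)) ≤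
        PP x (t + 1) * (PP x (t + 1) + dl k (PP x (t + 1))) := Nat.sub_le _ _
      _ = PP x (t + 1) * (k * FF x (t + 1)) := by rw [h1]
      _ ≤ PP x (t + 1) * (k * PP x (t + 1)) := Nat.mul_le_mul_left _ (Nat.mul_le_mul_left _ hF)
      _ = k * PP x (t + 1) ^ 2 := by ring

theorem fiber_card {k t : ℕ} {L : Finset ℕ} (hL : ∀ n ∈ L, Data n k (t + 3) (pseq n)) (m : ℕ)
    (hm : m ∈ T L (t + 1)) :
    (L.filter (fun n => PP (pseq n) (t + 1) = m)).card ≤ (Nn k m).divisors.card := by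
  have hN : Nn k m ≠ 0 := by
    rw [T, mem_image] at hm
    obtain ⟨n, hn, rfl⟩ := hm
    exact (Nn_bounds (hL n hn)).1
  apply card_le_card_of_injOn (fun n => dl k (PP (pseq n) (t + 2)))
  · intro n hn
    rw [mem_coe, mem_filter] at hn
    rw [mem_coe, Nat.mem_divisors]
    refine ⟨?_, hN⟩
    have := (last_two (hL n hn.1)).2
    rwa [hn.2] at this
  · intro n1 hn1 n2 hn2 he
    rw [mem_coe, mem_filter] at hn1 hn2
    simp only at he
    have hd1 := hL n1 hn1.1
    have hd2 := hL n2 hn2.1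
    have s1 := dl_step hd1 (show t + 1 + 1 < t + 3 by omega)
    have s2 := dl_step hd2 (show t + 1 + 1 < t + 3 by omega)
    have e2 : t + 1 + 1 = t + 2 := rfl
    rw [e2, hn1.2] at s1
    rw [e2, hn2.2] at s2
    have hDp := dl_pos hd1 (show t + 1 < t + 3 by omega)
    rw [hn1.2] at hDp
    have h1 : dl k m * (pseq n1 (t + 1) - 1) = dl k m * (pseq n2 (t + 1) - 1) := by
      rw [← s1, ← s2, he]
    have h2 := Nat.eq_of_mul_eq_mul_left (by omega) h1
    have a1 := hd1.sq.two (t + 1) (by omega)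
    have a2 := hd2.sq.two (t + 1) (by omega)
    have hp : pseq n1 (t + 1) = pseq n2 (t + 1) := by omega
    have b1 := (last_two hd1).1
    have b2 := (last_two hd2).1
    have c1 : PP (pseq n1) (t + 2) = m * pseq n1 (t + 1) := by
      rw [show t + 2 = t + 1 + 1 from rfl, PP_succ, hn1.2]
    have c2 : PP (pseq n2) (t + 2) = m * pseq n2 (t + 1) := by
      rw [show t + 2 = t + 1 + 1 from rfl, PP_succ, hn2.2]
    have hP : PP (pseq n1) (t + 2) = PP (pseq n2) (t + 2) := by rw [c1, c2, hp]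
    have hu := dl_pos hd1 (show t + 2 < t + 3 by omega)
    rw [← he, ← hP] at b2
    have h3 : dl k (PP (pseq n1) (t + 2)) * (pseq n1 (t + 2) - 1) =
        dl k (PP (pseq n1) (t + 2)) * (pseq n2 (t + 2) - 1) := by omega
    have h4 := Nat.eq_of_mul_eq_mul_left (by omega) h3
    have d1 := hd1.sq.two (t + 2) (by omega)
    have d2 := hd2.sq.two (t + 2) (by omega)
    have hq : pseq n1 (t + 2) = pseq n2 (t + 2) := by omega
    have f1 := hd1.prod
    have f2 := hd2.prod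
    rw [show t + 3 = t + 2 + 1 from rfl, PP_succ] at f1 f2
    rw [← f1, ← f2, hP, hq]

theorem count_k {k t κ K : ℕ} {L : Finset ℕ} (hL : ∀ n ∈ L, Data n k (t + 3) (pseq n))
    (hκ : 1 ≤ κ) (hK : ∀ n : ℕ, n ≠ 0 → (n.divisors.card) ^ κ ≤ K * n) :
    (L.card : ℝ) ≤ ((t + 3 : ℕ) : ℝ) * (2 * Gr (t + 3) ^ t * MR t) *
      ((K : ℝ) * (k * ((2 * ((t + 3 : ℕ) : ℝ)) ^ (cc (t + 3)) * MR (t + 1)) ^ 2)) ^
        (1 / (κ : ℝ)) := by
  set B : ℝ := ((K : ℝ) * (k * ((2 * ((t + 3 : ℕ) : ℝ)) ^ (cc (t + 3)) * MR (t + 1)) ^ 2)) ^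
        (1 / (κ : ℝ)) with hB
  have hMp := MR_ge (t + 1)
  have hBase : 0 ≤ (K : ℝ) * (k * ((2 * ((t + 3 : ℕ) : ℝ)) ^ (cc (t + 3)) * MR (t + 1)) ^ 2) := by
    positivity
  have hfib : ∀ m ∈ T L (t + 1), ((L.filter (fun n => PP (pseq n) (t + 1) = m)).card : ℝ) ≤ B := by
    intro m hm
    have h1 := fiber_card hL m hm
    obtain ⟨h2, h3⟩ := T_bound hL (by omega) hm
    have hN : Nn k m ≠ 0 ∧ Nn k m ≤ k * m ^ 2 := by
      rw [T, mem_image] at hm
      obtain ⟨n, hn, rfl⟩ := hm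
      exact Nn_bounds (hL n hn)
    have h4 := hK _ hN.1
    have h5 : ((Nn k m).divisors.card : ℝ) ^ κ ≤
        (K : ℝ) * (k * ((2 * ((t + 3 : ℕ) : ℝ)) ^ (cc (t + 3)) * MR (t + 1)) ^ 2) := by
      calc ((Nn k m).divisors.card : ℝ) ^ κ ≤ (K : ℝ) * (Nn k m : ℝ) := by exact_mod_cast h4
        _ ≤ K * (k * (m : ℝ) ^ 2) := by
            apply mul_le_mul_of_nonneg_left _ (by positivity)
            exact_mod_cast hN.2
        _ ≤ _ := by
            apply mul_le_mul_of_nonneg_left _ (by positivity)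
            apply mul_le_mul_of_nonneg_left _ (by positivity)
            exact pow_le_pow_left₀ (by positivity) h3 2
    have h6 : ((Nn k m).divisors.card : ℝ) ≤ B := by
      rw [hB]
      have h7 : ((Nn k m).divisors.card : ℝ) =
          (((Nn k m).divisors.card : ℝ) ^ κ) ^ (1 / (κ : ℝ)) := by
        rw [one_div, Real.pow_rpow_inv_natCast (Nat.cast_nonneg _) (by omega)]
      have h9 := Real.rpow_le_rpow (pow_nonneg (Nat.cast_nonneg _) κ) h5
        (one_div_nonneg.2 (Nat.cast_nonneg κ))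
      rw [← h7] at h9
      exact h9
    have h8 : ((L.filter (fun n => PP (pseq n) (t + 1) = m)).card : ℝ) ≤
        ((Nn k m).divisors.card : ℝ) := by exact_mod_cast h1
    exact h8.trans h6
  have hBnn : 0 ≤ B := Real.rpow_nonneg hBase _
  have hcard : L.card = ∑ m ∈ T L (t + 1), (L.filter (fun n => PP (pseq n) (t + 1) = m)).card :=
    card_eq_sum_card_fiberwise (fun n hn => mem_image_of_mem _ hn)
  calc (L.card : ℝ) = ∑ m ∈ T L (t + 1),
        ((L.filter (fun n => PP (pseq n) (t + 1) = m)).card : ℝ) := by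
        rw [hcard]; push_cast; rfl
    _ ≤ ∑ m ∈ T L (t + 1), B := sum_le_sum hfib
    _ = (T L (t + 1)).card * B := by rw [sum_const, nsmul_eq_mul]
    _ ≤ _ := mul_le_mul_of_nonneg_right (T_card hL t (by omega)) hBnn

/-- `k ≤ r + 1` -/
theorem k_le {n k r : ℕ} {x : ℕ → ℕ} (h : Data n k r x) : k ≤ r + 1 := by
  have hx : ∀ j, j < r → j + 2 ≤ x j := by
    intro j
    induction j with
    | zero => intro hj; exact h.sq.two 0 hj
    | succ j ih =>
      intro hj
      have h1 := ih (by omega)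
      have h2 := h.sq.lt j hj
      omega
  have h1 : ∀ j, j ≤ r → PP x j ≤ (j + 1) * FF x j := by
    intro j
    induction j with
    | zero => intro _; simp [PP, FF]
    | succ j ih =>
      intro hj
      have h2 := ih (by omega)
      have h3 := hx j (by omega)
      obtain ⟨t, ht⟩ : ∃ t, x j = t + 1 := ⟨x j - 1, by omega⟩
      rw [PP_succ, FF_succ, ht, Nat.add_sub_cancel]
      have h4 : (j + 1) * (t + 1) ≤ (j + 2) * t := by nlinarith
      calc PP x j * (t + 1) ≤ ((j + 1) * FF x j) * (t + 1) := Nat.mul_le_mul_right _ h2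
        _ = FF x j * ((j + 1) * (t + 1)) := by ring
        _ ≤ FF x j * ((j + 2) * t) := Nat.mul_le_mul_left _ h4
        _ = (j + 1 + 1) * (FF x j * t) := by ring
  have h2 := h1 r le_rfl
  have h3 := h.eq
  have hF : 0 < FF x r := prod_pos (fun i hi => by
    have := h.sq.two i (mem_range.1 hi)
    omega)
  by_contra hc
  have h4 : (r + 1) * FF x r ≤ k * FF x r := Nat.mul_le_mul_right _ (by omega)
  omega

end Pool.Agent.R330.LT
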