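import Pool.Agent.R330.LT.Major

set_option autoImplicit false

/-!
# Comparison with a Sylvester type sequence

`PP x j` is the product of the first `j` terms, `FF x j` the product of the `x i - 1`.
`Sq k r x`: the sequence `x 0 < x 1 < ... < x (r-1)` satisfies `PP x j < k FF x j` for `j < r` and
`k FF x r ≤ PP x r`.
-/

namespace Pool.Agent.R330.LT

open Finset

/-- product of the first `j` terms -/
def PP (x : ℕ → ℕ) (j : ℕ) : ℕ := ∏ i ∈ range j, x i

/-- product of the first `j` predecessors -/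
def FF (x : ℕ → ℕ) (j : ℕ) : ℕ := ∏ i ∈ range j, (x i - 1)

/-- increasing sequences whose partial products stay below `k` times the products of the
predecessors until the end -/
structure Sq (k r : ℕ) (x : ℕ → ℕ) : Prop where
  two : ∀ i, i < r → 2 ≤ x i
  lt : ∀ i, i + 1 < r → x i < x (i + 1)
  pre : ∀ j, j < r → PP x j < k * FF x j
  fin : k * FF x r ≤ PP x r

theorem PP_succ (x : ℕ → ℕ) (j : ℕ) : PP x (j + 1) = PP x j * x j := prod_range_succ _ _

theorem FF_succ (x : ℕ → ℕ) (j : ℕ) : FF x (j + 1) = FF x j * (x j - 1) := prod_range_succ _ _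

/-- the Sylvester type recursion -/
noncomputable def bb (b : ℝ) : ℕ → ℝ
  | 0 => b
  | (t + 1) => bb b t * (bb b t + 2)

theorem bb_add_one (b : ℝ) (t : ℕ) : bb b t + 1 = (b + 1) ^ (2 ^ t) := by
  induction t with
  | zero => simp [bb]
  | succ t ih =>
    rw [pow_succ, pow_mul, ← ih, bb]
    ring

theorem bb_pos {b : ℝ} (hb : 0 < b) (t : ℕ) : 0 < bb b t := by
  induction t with
  | zero => exact hb
  | succ t ih =>
    rw [bb]
    positivity

/-- the comparison sequence -/
noncomputable def Y (y : ℕ → ℕ) (s : ℕ) (B D : ℝ) (i : ℕ) : ℝ :=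
  if i < s then (y i : ℝ) else if i = s then (B + D + 1) / D
    else bb (B * ((B + D + 1) / D)) (i - s - 1) + 2

theorem prod_Y_le (y : ℕ → ℕ) (s : ℕ) (B D : ℝ) {j : ℕ} (hj : j ≤ s) :
    ∏ i ∈ range j, Y y s B D i = ∏ i ∈ range j, (y i : ℝ) := by
  apply prod_congr rfl
  intro i hi
  have := mem_range.1 hi
  rw [Y, if_pos (by omega)]

theorem prod_Y (y : ℕ → ℕ) (s : ℕ) (B D : ℝ) (hB : B = ∏ i ∈ range s, (y i : ℝ)) (t : ℕ) :
    ∏ i ∈ range (s + 1 + t), Y y s B D i = bb (B * ((B + D + 1) / D)) t := by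
  induction t with
  | zero =>
    rw [Nat.add_zero, prod_range_succ, prod_Y_le y s B D le_rfl, ← hB, bb, Y, if_neg (by omega),
      if_pos rfl]
  | succ t ih =>
    rw [← Nat.add_assoc, prod_range_succ, ih, bb, Y, if_neg (by omega), if_neg (by omega)]
    congr 2
    congr 1
    omega

theorem prod_Y1 (y : ℕ → ℕ) (s kk : ℕ) (B D : ℝ) (hB : B = ∏ i ∈ range s, (y i : ℝ)) (hD : 0 < D)
    (hDe : D = kk * ∏ i ∈ range s, ((y i : ℝ) - 1) - B) (t : ℕ) :
    kk * ∏ i ∈ range (s + 1 + t), (Y y s B D i - 1) = bb (B * ((B + D + 1) / D)) t + 1 := by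
  induction t with
  | zero =>
    rw [Nat.add_zero, prod_range_succ]
    have : ∏ i ∈ range s, (Y y s B D i - 1) = ∏ i ∈ range s, ((y i : ℝ) - 1) := by
      apply prod_congr rfl
      intro i hi
      have := mem_range.1 hi
      rw [Y, if_pos (by omega)]
    rw [this, bb, Y, if_neg (by omega), if_pos rfl, ← mul_assoc]
    have h : (kk : ℝ) * ∏ i ∈ range s, ((y i : ℝ) - 1) = B + D := by rw [hDe]; ring
    rw [h]
    field_simp
    ring
  | succ t ih =>
    rw [← Nat.add_assoc, prod_range_succ, ← mul_assoc, ih, bb, Y, if_neg (by omega),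
      if_neg (by omega)]
    have : s + 1 + t - s - 1 = t := by omega
    rw [this]
    ring

theorem prod_one_sub (f : ℕ → ℝ) (m : ℕ) (hf : ∀ i, i < m → 1 < f i) :
    ∏ i ∈ range m, (1 - 1 / f i) = (∏ i ∈ range m, (f i - 1)) / ∏ i ∈ range m, f i := by
  rw [← prod_div_distrib]
  apply prod_congr rfl
  intro i hi
  have := hf i (mem_range.1 hi)
  field_simp

theorem cast_FF (x : ℕ → ℕ) (j : ℕ) (h : ∀ i, i < j → 2 ≤ x i) :
    (FF x j : ℝ) = ∏ i ∈ range j, ((x i : ℝ) - 1) := by
  unfold FF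
  push_cast
  apply prod_congr rfl
  intro i hi
  have := h i (mem_range.1 hi)
  rw [Nat.cast_sub (by omega)]
  simp

theorem cast_PP (x : ℕ → ℕ) (j : ℕ) : (PP x j : ℝ) = ∏ i ∈ range j, (x i : ℝ) := by
  unfold PP
  push_cast
  rfl

/-- a lower bound for the next term makes the sequence go on -/
theorem s_lt {k kk r s : ℕ} {x y : ℕ → ℕ} (hkk : kk ≤ k) (hx : Sq k r x)
    (hs : s ≤ r) (hy2 : ∀ i, i < s → 2 ≤ y i) (hyx : ∀ i, i < s → y i ≤ x i)
    (hD : PP y s < kk * FF y s) : s < r := by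
  rcases Nat.lt_or_ge s r with h | h
  · exact h
  exfalso
  have hsr : s = r := by omega
  subst hsr
  have h1 : ∏ i ∈ range s, (1 - 1 / (y i : ℝ)) ≤ ∏ i ∈ range s, (1 - 1 / (x i : ℝ)) := by
    apply prod_le_prod
    · intro i hi
      have := hy2 i (mem_range.1 hi)
      have : (2 : ℝ) ≤ y i := by exact_mod_cast this
      have : 1 / (y i : ℝ) ≤ 1 := by rw [div_le_one (by linarith)]; linarith
      linarith
    · intro i hi
      have h2 := hy2 i (mem_range.1 hi)
      have h3 := hyx i (mem_range.1 hi)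
      have h2' : (2 : ℝ) ≤ y i := by exact_mod_cast h2
      have h3' : (y i : ℝ) ≤ x i := by exact_mod_cast h3
      have : 1 / (x i : ℝ) ≤ 1 / (y i : ℝ) := one_div_le_one_div_of_le (by linarith) h3'
      linarith
  rw [prod_one_sub _ _ (fun i hi => by have := hy2 i hi; exact_mod_cast (by omega : 1 < y i)),
    prod_one_sub _ _ (fun i hi => by have := hx.two i hi; exact_mod_cast (by omega : 1 < x i)),
    ← cast_FF y s hy2, ← cast_FF x s hx.two, ← cast_PP, ← cast_PP] at h1
  have hPx : (0 : ℝ) < PP x s := by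
    have : 0 < PP x s := prod_pos (fun i hi => by have := hx.two i (mem_range.1 hi); omega)
    exact_mod_cast this
  have hPy : (0 : ℝ) < PP y s := by
    have : 0 < PP y s := prod_pos (fun i hi => by have := hy2 i (mem_range.1 hi); omega)
    exact_mod_cast this
  rw [div_le_div_iff₀ hPy hPx] at h1
  have h4 : (k : ℝ) * FF x s ≤ PP x s := by exact_mod_cast hx.fin
  have h5 : (PP y s : ℝ) < kk * FF y s := by exact_mod_cast hD
  have h6 : (kk : ℝ) ≤ k := by exact_mod_cast hkk
  have h7 : (kk : ℝ) * (FF y s * PP x s) ≤ kk * (FF x s * PP y s) :=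
    mul_le_mul_of_nonneg_left h1 (by positivity)
  have h8 : (kk : ℝ) * FF x s ≤ PP x s := by
    have : (kk : ℝ) * FF x s ≤ k * FF x s := mul_le_mul_of_nonneg_right h6 (by positivity)
    linarith
  nlinarith

theorem compare {k kk r s : ℕ} {x y : ℕ → ℕ} (hkk1 : 1 ≤ kk) (hkk : kk ≤ k) (hs : s < r)
    (hx : Sq k r x) (hy2 : ∀ i, i < s → 2 ≤ y i) (hyx : ∀ i, i < s → y i ≤ x i)
    (B D : ℝ) (hB : B = PP y s) (hDe : D = kk * FF y s - B) (hD : 0 < D) :
    (PP x r : ℝ) ≤ bb (B * ((B + D + 1) / D)) (r - s - 1) := by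
  have hB' : B = ∏ i ∈ range s, (y i : ℝ) := by rw [hB, cast_PP]
  have hDe' : D = kk * ∏ i ∈ range s, ((y i : ℝ) - 1) - B := by rw [hDe, cast_FF y s hy2]
  have hBpos : 0 < B := by
    rw [hB]
    have : 0 < PP y s := prod_pos (fun i hi => by have := hy2 i (mem_range.1 hi); omega)
    exact_mod_cast this
  have hkp : (0 : ℝ) < kk := by exact_mod_cast hkk1
  have hkp' : (0 : ℝ) < k := by
    have : 0 < k := by omega
    exact_mod_cast this
  set b : ℝ := B * ((B + D + 1) / D) with hb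
  have hbpos : 0 < b := by positivity
  set Z : ℕ → ℝ := Y y s B D with hZ
  have hZ1 : ∀ i, 1 < Z i := by
    intro i
    rw [hZ, Y]
    split_ifs with h1 h2
    · have := hy2 i h1
      exact_mod_cast (by omega : 1 < y i)
    · rw [lt_div_iff₀ hD]
      linarith
    · have := bb_pos hbpos (i - s - 1)
      rw [← hb]
      linarith
  have hx1 : ∀ i, i < r → (1 : ℝ) < x i := by
    intro i hi
    have := hx.two i hi
    exact_mod_cast (by omega : 1 < x i)
  -- products
  have hrt : r = s + 1 + (r - s - 1) := by omega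
  have hRr : ∏ i ∈ range r, Z i = bb b (r - s - 1) := by
    conv_lhs => rw [hrt]
    exact prod_Y y s B D hB' _
  have hGr : (kk : ℝ) * ∏ i ∈ range r, (Z i - 1) = bb b (r - s - 1) + 1 := by
    conv_lhs => rw [hrt]
    exact prod_Y1 y s kk B D hB' hD hDe' _
  by_contra hcon
  rw [not_le, ← hRr, cast_PP] at hcon
  -- largest good index
  obtain ⟨j, hjr, hj1, hj2⟩ : ∃ j, j < r ∧ (∏ i ∈ range j, (x i : ℝ) ≤ ∏ i ∈ range j, Z i) ∧
      ∀ l, j < l → l ≤ r → ∏ i ∈ range l, Z i < ∏ i ∈ range l, (x i : ℝ) := by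
    classical
    have hP : ∃ j, j ≤ r ∧ (∏ i ∈ range j, (x i : ℝ) ≤ ∏ i ∈ range j, Z i) :=
      ⟨0, by omega, by simp⟩
    let S := (range (r + 1)).filter (fun j => ∏ i ∈ range j, (x i : ℝ) ≤ ∏ i ∈ range j, Z i)
    have hSne : S.Nonempty := ⟨0, by simp [S]⟩
    refine ⟨S.max' hSne, ?_, ?_, ?_⟩
    · have hm := S.max'_mem hSne
      rw [mem_filter, mem_range] at hm
      rcases Nat.lt_or_ge (S.max' hSne) r with h | h
      · exact h
      · exfalso
        have : S.max' hSne = r := by omega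
        rw [this] at hm
        linarith [hm.2]
    · have hm := S.max'_mem hSne
      rw [mem_filter] at hm
      exact hm.2
    · intro l hl hlr
      by_contra hc
      have : l ∈ S := by
        rw [mem_filter, mem_range]
        exact ⟨by omega, not_lt.1 hc⟩
      have := S.le_max' l this
      omega
  have hprodX : ∀ l, ∏ i ∈ range (j + l), (x i : ℝ) =
      (∏ i ∈ range j, (x i : ℝ)) * ∏ i ∈ range l, (x (j + i) : ℝ) := fun l => prod_range_add _ _ _
  have hprodZ : ∀ l, ∏ i ∈ range (j + l), Z i =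
      (∏ i ∈ range j, Z i) * ∏ i ∈ range l, Z (j + i) := fun l => prod_range_add _ _ _
  have hposX : ∀ l, l ≤ r → 0 < ∏ i ∈ range l, (x i : ℝ) := by
    intro l hl
    apply prod_pos
    intro i hi
    have := hx1 i (by have := mem_range.1 hi; omega)
    linarith
  have hposZ : ∀ l, 0 < ∏ i ∈ range l, Z i := by
    intro l
    apply prod_pos
    intro i _
    have := hZ1 i
    linarith
  have htail : ∏ i ∈ range (r - j), (1 - 1 / Z (j + i)) ≤
      ∏ i ∈ range (r - j), (1 - 1 / (x (j + i) : ℝ)) := by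
    apply major (fun i => (x (j + i) : ℝ)) (fun i => Z (j + i)) (r - j)
    · intro i hi; exact hx1 _ (by omega)
    · intro i _; exact hZ1 _
    · intro i hi
      have := hx.lt (j + i) (by omega)
      have e : j + (i + 1) = j + i + 1 := by omega
      simp only [e]
      exact_mod_cast this.le
    · intro l hl
      rcases Nat.eq_zero_or_pos l with h0 | h0
      · subst h0; simp
      have h1 := hj2 (j + l) (by omega) (by omega)
      rw [hprodX, hprodZ] at h1
      by_contra hc
      rw [not_le] at hc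
      have hZl : 0 < ∏ i ∈ range l, Z (j + i) := prod_pos (fun i _ => by have := hZ1 (j + i); linarith)
      have h2 : (∏ i ∈ range j, (x i : ℝ)) * ∏ i ∈ range l, (x (j + i) : ℝ) ≤
          (∏ i ∈ range j, Z i) * ∏ i ∈ range l, Z (j + i) := by
        apply mul_le_mul hj1 hc.le _ (hposZ j).le
        apply prod_nonneg
        intro i _
        positivity
      linarith
  have hUX : ∏ i ∈ range r, (1 - 1 / (x i : ℝ)) = (∏ i ∈ range j, (1 - 1 / (x i : ℝ))) *
      ∏ i ∈ range (r - j), (1 - 1 / (x (j + i) : ℝ)) := by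
    have : r = j + (r - j) := by omega
    conv_lhs => rw [this]
    exact prod_range_add _ _ _
  have hUZ : ∏ i ∈ range r, (1 - 1 / Z i) = (∏ i ∈ range j, (1 - 1 / Z i)) *
      ∏ i ∈ range (r - j), (1 - 1 / Z (j + i)) := by
    have : r = j + (r - j) := by omega
    conv_lhs => rw [this]
    exact prod_range_add _ _ _
  have hq : ∀ z : ℝ, 1 < z → 0 < 1 - 1 / z := by
    intro z hz
    have : 1 / z < 1 := by rw [div_lt_one (by linarith)]; exact hz
    linarith
  have hUXr : ∏ i ∈ range r, (1 - 1 / (x i : ℝ)) ≤ 1 / k := by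
    rw [prod_one_sub _ _ hx1, ← cast_FF x r hx.two, ← cast_PP, div_le_div_iff₀
      (by rw [cast_PP]; exact hposX r le_rfl) hkp']
    have : (k : ℝ) * FF x r ≤ PP x r := by exact_mod_cast hx.fin
    linarith
  have hUZr : 1 / (kk : ℝ) < ∏ i ∈ range r, (1 - 1 / Z i) := by
    rw [prod_one_sub _ _ (fun i _ => hZ1 i), div_lt_div_iff₀ hkp (hposZ r)]
    rw [mul_comm _ (kk : ℝ), hGr, hRr]
    linarith
  have hUj0 : 0 < ∏ i ∈ range j, (1 - 1 / Z i) := prod_pos (fun i _ => hq _ (hZ1 i))
  have hT0 : 0 < ∏ i ∈ range (r - j), (1 - 1 / Z (j + i)) := prod_pos (fun i _ => hq _ (hZ1 _))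
  have hkk' : 1 / (k : ℝ) ≤ 1 / kk := one_div_le_one_div_of_le hkp (by exact_mod_cast hkk)
  rcases Nat.lt_or_ge s j with hjs | hjs
  · -- Sylvester part
    have hjt : j = s + 1 + (j - s - 1) := by omega
    have hRj : ∏ i ∈ range j, Z i = bb b (j - s - 1) := by
      conv_lhs => rw [hjt]
      exact prod_Y y s B D hB' _
    have hGj : (kk : ℝ) * ∏ i ∈ range j, (Z i - 1) = bb b (j - s - 1) + 1 := by
      conv_lhs => rw [hjt]
      exact prod_Y1 y s kk B D hB' hD hDe' _
    have h1 : (kk : ℝ) * ∏ i ∈ range j, (1 - 1 / Z i) = 1 + 1 / ∏ i ∈ range j, Z i := by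
      rw [prod_one_sub _ _ (fun i _ => hZ1 i), ← mul_div_assoc, hGj, ← hRj]
      have := hposZ j
      field_simp
    have h2 : 1 + 1 / ∏ i ∈ range j, (x i : ℝ) ≤ (k : ℝ) * ∏ i ∈ range j, (1 - 1 / (x i : ℝ)) := by
      rw [prod_one_sub _ _ (fun i hi => hx1 i (by omega)), ← mul_div_assoc,
        ← cast_FF x j (fun i hi => hx.two i (by omega)), ← cast_PP]
      have h3 := hx.pre j hjr
      have h4 : (PP x j : ℝ) + 1 ≤ k * FF x j := by exact_mod_cast h3
      have h5 : (0 : ℝ) < PP x j := by rw [cast_PP]; exact hposX j (by omega)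
      rw [le_div_iff₀ h5]
      have : (1 + 1 / (PP x j : ℝ)) * PP x j = PP x j + 1 := by field_simp
      rw [this]
      exact h4
    have h3 : 1 / ∏ i ∈ range j, Z i ≤ 1 / ∏ i ∈ range j, (x i : ℝ) :=
      one_div_le_one_div_of_le (hposX j (by omega)) hj1
    have h4 : (kk : ℝ) * ∏ i ∈ range j, (1 - 1 / Z i) ≤
        (k : ℝ) * ∏ i ∈ range j, (1 - 1 / (x i : ℝ)) := by rw [h1]; linarith
    have h5 : (kk : ℝ) * ∏ i ∈ range r, (1 - 1 / Z i) ≤
        (k : ℝ) * ∏ i ∈ range r, (1 - 1 / (x i : ℝ)) := by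
      rw [hUZ, hUX, ← mul_assoc, ← mul_assoc]
      apply mul_le_mul h4 htail hT0.le
      have : (0 : ℝ) < 1 + 1 / ∏ i ∈ range j, (x i : ℝ) := by
        have := hposX j (by omega)
        positivity
      linarith
    have h6 : (k : ℝ) * ∏ i ∈ range r, (1 - 1 / (x i : ℝ)) ≤ 1 := by
      have := mul_le_mul_of_nonneg_left hUXr hkp'.le
      rwa [mul_one_div_cancel hkp'.ne'] at this
    have h7 : 1 < (kk : ℝ) * ∏ i ∈ range r, (1 - 1 / Z i) := by
      have := mul_lt_mul_of_pos_left hUZr hkp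
      rwa [mul_one_div_cancel hkp.ne'] at this
    linarith
  · -- initial part
    have h1 : ∏ i ∈ range j, (1 - 1 / Z i) ≤ ∏ i ∈ range j, (1 - 1 / (x i : ℝ)) := by
      apply prod_le_prod
      · intro i _; exact (hq _ (hZ1 i)).le
      · intro i hi
        have hi' : i < s := by have := mem_range.1 hi; omega
        have h3 : (y i : ℝ) ≤ x i := by exact_mod_cast hyx i hi'
        have h4 : (2 : ℝ) ≤ y i := by exact_mod_cast hy2 i hi'
        have h5 : Z i = y i := by rw [hZ, Y, if_pos hi']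
        rw [h5]
        have := one_div_le_one_div_of_le (by linarith) h3
        linarith
    have h2 : ∏ i ∈ range r, (1 - 1 / Z i) ≤ ∏ i ∈ range r, (1 - 1 / (x i : ℝ)) := by
      rw [hUZ, hUX]
      exact mul_le_mul h1 htail hT0.le (hUj0.le.trans h1)
    linarith

end Pool.Agent.R330.LT
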