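import Pool.Agent.R330.LT.Cnt

set_option autoImplicit false

/-!
# The final estimate
-/

namespace Pool.Agent.R330.LT

open Finset
open Pool.Agent.H95R2.Leh

theorem two_pow_ge (u : ℕ) : (u : ℝ) ≤ (2 : ℝ) ^ (u : ℝ) := by
  rw [Real.rpow_natCast]
  have : u < 2 ^ u := Nat.lt_two_pow_self
  exact_mod_cast this.le

theorem cc_le (t : ℕ) : cc (t + 3) ≤ 2 ^ 15 * (t + 5) ^ 2 := by
  unfold cc
  norm_num
  nlinarith

theorem pow_cc_le (t : ℕ) : (2 * ((t + 3 : ℕ) : ℝ)) ^ (cc (t + 3)) ≤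
    (2 : ℝ) ^ ((2 : ℝ) ^ 15 * ((t : ℝ) + 5) ^ 3) := by
  have h1 : 2 * ((t + 3 : ℕ) : ℝ) ≤ (2 : ℝ) ^ ((t : ℝ) + 5) := by
    have h2 := two_pow_ge (t + 3)
    have h3 : (2 : ℝ) ^ ((t : ℝ) + 5) = (2 : ℝ) ^ ((t + 3 : ℕ) : ℝ) * 2 ^ (2 : ℝ) := by
      rw [← Real.rpow_add (by norm_num)]
      congr 1
      push_cast; ring
    rw [h3]
    have h4 : (2 : ℝ) ^ (2 : ℝ) = 4 := by norm_num
    rw [h4]
    nlinarith [Real.rpow_pos_of_pos (show (0 : ℝ) < 2 by norm_num) ((t + 3 : ℕ) : ℝ)]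
  have hK : (1 : ℝ) ≤ 2 * ((t + 3 : ℕ) : ℝ) := by push_cast; linarith [(Nat.cast_nonneg t : (0 : ℝ) ≤ t)]
  calc (2 * ((t + 3 : ℕ) : ℝ)) ^ (cc (t + 3)) ≤ (2 * ((t + 3 : ℕ) : ℝ)) ^ (2 ^ 15 * (t + 5) ^ 2) :=
        pow_le_pow_right₀ hK (cc_le t)
    _ ≤ ((2 : ℝ) ^ ((t : ℝ) + 5)) ^ (2 ^ 15 * (t + 5) ^ 2) :=
        pow_le_pow_left₀ (by positivity) h1 _
    _ = (2 : ℝ) ^ ((2 : ℝ) ^ 15 * ((t : ℝ) + 5) ^ 3) := by
        rw [← Real.rpow_natCast, ← Real.rpow_mul (by norm_num)]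
        congr 1
        push_cast
        ring

theorem Gr_le (t : ℕ) : Gr (t + 3) ≤ (2 : ℝ) ^ ((2 : ℝ) ^ 16 * ((t : ℝ) + 5) ^ 3) := by
  have h1 := pow_cc_le t
  have h2 : ((t + 3 : ℕ) : ℝ) ≤ (2 : ℝ) ^ ((t : ℝ) + 5) :=
    (two_pow_ge (t + 3)).trans (Real.rpow_le_rpow_of_exponent_le (by norm_num) (by push_cast; linarith))
  have h3 : (2 : ℝ) + 2 ^ (t + 3) ≤ (2 : ℝ) ^ ((t : ℝ) + 5) := by
    have e : (2 : ℝ) ^ ((t : ℝ) + 5) = 2 ^ (t + 5) := by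
      rw [← Real.rpow_natCast]
      congr 1
      push_cast; ring
    rw [e, pow_add, pow_add]
    have : (1 : ℝ) ≤ 2 ^ t := one_le_pow₀ (by norm_num)
    nlinarith
  unfold Gr
  calc ((t + 3 : ℕ) : ℝ) * (2 + 2 ^ (t + 3)) * (2 * ((t + 3 : ℕ) : ℝ)) ^ (cc (t + 3))
      ≤ (2 : ℝ) ^ ((t : ℝ) + 5) * (2 : ℝ) ^ ((t : ℝ) + 5) *
        (2 : ℝ) ^ ((2 : ℝ) ^ 15 * ((t : ℝ) + 5) ^ 3) :=
        mul_le_mul (mul_le_mul h2 h3 (by positivity) (by positivity)) h1 (by positivity)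
          (by positivity)
    _ = (2 : ℝ) ^ (((t : ℝ) + 5) + ((t : ℝ) + 5) + (2 : ℝ) ^ 15 * ((t : ℝ) + 5) ^ 3) := by
        rw [← Real.rpow_add (by norm_num), ← Real.rpow_add (by norm_num)]
    _ ≤ _ := by
        apply Real.rpow_le_rpow_of_exponent_le (by norm_num)
        have ht : (0 : ℝ) ≤ t := Nat.cast_nonneg t
        have h5 : ((t : ℝ) + 5) ≤ ((t : ℝ) + 5) ^ 3 := by
          have : (1 : ℝ) ≤ ((t : ℝ) + 5) ^ 2 := by nlinarith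
          nlinarith
        nlinarith

theorem Gr_pow_le (t : ℕ) : Gr (t + 3) ^ t ≤ (2 : ℝ) ^ ((2 : ℝ) ^ 16 * ((t : ℝ) + 5) ^ 4) := by
  have h1 := Gr_le t
  have ht : (0 : ℝ) ≤ t := Nat.cast_nonneg t
  calc Gr (t + 3) ^ t ≤ ((2 : ℝ) ^ ((2 : ℝ) ^ 16 * ((t : ℝ) + 5) ^ 3)) ^ t :=
        pow_le_pow_left₀ (Gr_nonneg _) h1 t
    _ = (2 : ℝ) ^ ((2 : ℝ) ^ 16 * ((t : ℝ) + 5) ^ 3 * t) := by
        rw [← Real.rpow_natCast, ← Real.rpow_mul (by norm_num)]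
    _ ≤ _ := by
        apply Real.rpow_le_rpow_of_exponent_le (by norm_num)
        have : (0 : ℝ) ≤ (2 : ℝ) ^ 16 * ((t : ℝ) + 5) ^ 3 := by positivity
        calc (2 : ℝ) ^ 16 * ((t : ℝ) + 5) ^ 3 * t ≤ (2 : ℝ) ^ 16 * ((t : ℝ) + 5) ^ 3 * (t + 5) :=
              mul_le_mul_of_nonneg_left (by linarith) this
          _ = _ := by ring

theorem MR_eq (t : ℕ) : MR t = (2 : ℝ) ^ ((2 : ℝ) ^ (t + 3) / 800) := by
  unfold MR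
  congr 1
  rw [pow_add]
  ring

/-- the last factor -/
theorem last_le (t κ K k : ℕ) (hκ : 1 ≤ κ) (hk : k ≤ t + 4) :
    ((K : ℝ) * (k * ((2 * ((t + 3 : ℕ) : ℝ)) ^ (cc (t + 3)) * MR (t + 1)) ^ 2)) ^ (1 / (κ : ℝ)) ≤
      ((K : ℝ) + 1) * (2 : ℝ) ^ (((t : ℝ) + 5) + (2 : ℝ) ^ 16 * ((t : ℝ) + 5) ^ 3) *
        (2 : ℝ) ^ ((2 : ℝ) ^ (t + 3) / (200 * κ)) := by
  have hκ0 : (0 : ℝ) < κ := by exact_mod_cast hκ
  have hκ1 : 1 / (κ : ℝ) ≤ 1 := by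
    rw [div_le_one hκ0]; exact_mod_cast hκ
  have ht : (0 : ℝ) ≤ t := Nat.cast_nonneg t
  have hM := MR_ge (t + 1)
  have h1 : (K : ℝ) * (k * ((2 * ((t + 3 : ℕ) : ℝ)) ^ (cc (t + 3)) * MR (t + 1)) ^ 2) ≤
      (((K : ℝ) + 1) * (2 : ℝ) ^ (((t : ℝ) + 5) + (2 : ℝ) ^ 16 * ((t : ℝ) + 5) ^ 3)) *
        MR (t + 2) := by
    have h2 : (k : ℝ) ≤ (2 : ℝ) ^ ((t : ℝ) + 5) := by
      have h3 : (k : ℝ) ≤ ((t + 5 : ℕ) : ℝ) := by exact_mod_cast (by omega : k ≤ t + 5)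
      have h4 := two_pow_ge (t + 5)
      push_cast at h3 h4 ⊢
      linarith
    have h5 : ((2 * ((t + 3 : ℕ) : ℝ)) ^ (cc (t + 3)) * MR (t + 1)) ^ 2 ≤
        (2 : ℝ) ^ ((2 : ℝ) ^ 16 * ((t : ℝ) + 5) ^ 3) * MR (t + 2) := by
      rw [mul_pow, ← MR_succ (t + 1)]
      apply mul_le_mul_of_nonneg_right _ (by linarith [MR_ge (t + 2)])
      calc ((2 * ((t + 3 : ℕ) : ℝ)) ^ (cc (t + 3))) ^ 2 ≤
          ((2 : ℝ) ^ ((2 : ℝ) ^ 15 * ((t : ℝ) + 5) ^ 3)) ^ 2 :=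
            pow_le_pow_left₀ (by positivity) (pow_cc_le t) 2
        _ = _ := by
            rw [← Real.rpow_natCast, ← Real.rpow_mul (by norm_num)]
            congr 1
            push_cast
            ring
    have hM2 := MR_ge (t + 2)
    calc (K : ℝ) * (k * ((2 * ((t + 3 : ℕ) : ℝ)) ^ (cc (t + 3)) * MR (t + 1)) ^ 2) ≤
        ((K : ℝ) + 1) * ((2 : ℝ) ^ ((t : ℝ) + 5) *
          ((2 : ℝ) ^ ((2 : ℝ) ^ 16 * ((t : ℝ) + 5) ^ 3) * MR (t + 2))) :=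
          mul_le_mul (by linarith) (mul_le_mul h2 h5 (by positivity) (by positivity))
            (by positivity) (by positivity)
      _ = _ := by
          rw [Real.rpow_add (by norm_num : (0 : ℝ) < 2) ((t : ℝ) + 5)
            ((2 : ℝ) ^ 16 * ((t : ℝ) + 5) ^ 3)]
          generalize (2 : ℝ) ^ ((t : ℝ) + 5) = a
          generalize (2 : ℝ) ^ ((2 : ℝ) ^ 16 * ((t : ℝ) + 5) ^ 3) = b
          ring
  have hA1 : 1 ≤ ((K : ℝ) + 1) * (2 : ℝ) ^ (((t : ℝ) + 5) + (2 : ℝ) ^ 16 * ((t : ℝ) + 5) ^ 3) := by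
    have h2 : (1 : ℝ) ≤ (2 : ℝ) ^ (((t : ℝ) + 5) + (2 : ℝ) ^ 16 * ((t : ℝ) + 5) ^ 3) :=
      Real.one_le_rpow (by norm_num) (by positivity)
    have h3 : (1 : ℝ) ≤ (K : ℝ) + 1 := by
      have : (0 : ℝ) ≤ K := Nat.cast_nonneg K
      linarith
    nlinarith
  have hM2 := MR_ge (t + 2)
  have hbase : 0 ≤ (K : ℝ) * (k * ((2 * ((t + 3 : ℕ) : ℝ)) ^ (cc (t + 3)) * MR (t + 1)) ^ 2) :=
    mul_nonneg (Nat.cast_nonneg K) (mul_nonneg (Nat.cast_nonneg k) (sq_nonneg _))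
  refine (Real.rpow_le_rpow hbase h1 (by positivity)).trans ?_
  rw [Real.mul_rpow (by linarith) (by linarith)]
  apply mul_le_mul _ _ (by positivity) (by linarith)
  · calc (((K : ℝ) + 1) * (2 : ℝ) ^ (((t : ℝ) + 5) + (2 : ℝ) ^ 16 * ((t : ℝ) + 5) ^ 3)) ^
        (1 / (κ : ℝ)) ≤ (((K : ℝ) + 1) *
          (2 : ℝ) ^ (((t : ℝ) + 5) + (2 : ℝ) ^ 16 * ((t : ℝ) + 5) ^ 3)) ^ (1 : ℝ) :=
          Real.rpow_le_rpow_of_exponent_le hA1 hκ1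
      _ = _ := Real.rpow_one _
  · unfold MR
    rw [← Real.rpow_mul (by norm_num)]
    apply le_of_eq
    congr 1
    rw [pow_add, pow_add]
    field_simp
    ring

/-- elementary growth -/
theorem growth (ε : ℝ) (hε : 0 < ε) : ∃ C1 : ℝ, 0 ≤ C1 ∧ ∀ t : ℕ,
    (2 : ℝ) ^ 18 * ((t : ℝ) + 5) ^ 4 ≤ ε * 2 ^ (t + 3) + C1 := by
  have h1 : Filter.Tendsto (fun n : ℕ => (n : ℝ) ^ 4 / (2 : ℝ) ^ n) Filter.atTop (nhds 0) :=
    tendsto_pow_const_div_const_pow_of_one_lt 4 (by norm_num)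
  have h2 : ∀ᶠ n : ℕ in Filter.atTop, (n : ℝ) ^ 4 / (2 : ℝ) ^ n < ε / 2 ^ 20 :=
    h1.eventually (gt_mem_nhds (by positivity))
  obtain ⟨N, hN⟩ := Filter.eventually_atTop.1 h2
  refine ⟨(2 : ℝ) ^ 18 * ((N : ℝ) + 5) ^ 4, by positivity, fun t => ?_⟩
  rcases le_or_gt N (t + 5) with h | h
  · have h3 := hN (t + 5) h
    rw [div_lt_iff₀ (by positivity)] at h3
    push_cast at h3
    have h4 : (2 : ℝ) ^ (t + 5) = 2 ^ (t + 3) * 4 := by rw [pow_add, pow_add]; ring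
    rw [h4] at h3
    have h5 : (2 : ℝ) ^ 18 * ((t : ℝ) + 5) ^ 4 ≤ ε * 2 ^ (t + 3) := by
      have h6 := mul_le_mul_of_nonneg_left h3.le (show (0 : ℝ) ≤ 2 ^ 18 by positivity)
      calc (2 : ℝ) ^ 18 * ((t : ℝ) + 5) ^ 4 ≤ 2 ^ 18 * (ε / 2 ^ 20 * (2 ^ (t + 3) * 4)) := h6
        _ = ε * 2 ^ (t + 3) := by ring
    have : (0 : ℝ) ≤ (2 : ℝ) ^ 18 * ((N : ℝ) + 5) ^ 4 := by positivity
    linarith
  · have h3 : ((t : ℝ) + 5) ≤ (N : ℝ) + 5 := by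
      have : (t : ℝ) ≤ N := by exact_mod_cast (by omega : t ≤ N)
      linarith
    have h4 : ((t : ℝ) + 5) ^ 4 ≤ ((N : ℝ) + 5) ^ 4 := pow_le_pow_left₀ (by positivity) h3 4
    have : (0 : ℝ) ≤ ε * 2 ^ (t + 3) := by positivity
    nlinarith

theorem count_large (ε : ℝ) (hε : 0 < ε) : ∃ C : ℝ, 0 < C ∧ ∀ (t : ℕ) (A : Finset ℕ),
    (∀ n ∈ A, Leh n ∧ n.primeFactors.card = t + 3) →
    (A.card : ℝ) ≤ C * (2 : ℝ) ^ ((1 / 800 + ε) * 2 ^ (t + 3)) := by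
  classical
  obtain ⟨κ, hκ⟩ := exists_nat_gt (1 / (100 * ε))
  have hκ0 : (0 : ℝ) < κ := lt_trans (by positivity) hκ
  have hκ1 : 1 ≤ κ := by
    have : 0 < κ := by exact_mod_cast hκ0
    exact this
  have hκε : 1 / (200 * (κ : ℝ)) ≤ ε / 2 := by
    rw [div_lt_iff₀ (by positivity)] at hκ
    rw [div_le_div_iff₀ (by positivity) (by norm_num)]
    nlinarith
  obtain ⟨K, hK⟩ := H353.divisor_bound κ
  obtain ⟨C1, hC10, hC1⟩ := growth (ε / 2) (by positivity)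
  refine ⟨((K : ℝ) + 1) * 2 ^ C1, by positivity, fun t A hA => ?_⟩
  have ht : (0 : ℝ) ≤ t := Nat.cast_nonneg t
  set Ak : ℕ → Finset ℕ := fun k => A.filter (fun n => Data n k (t + 3) (pseq n)) with hAk
  have hsub : A ⊆ (range (t + 5)).biUnion Ak := by
    intro n hn
    obtain ⟨h1, h2⟩ := hA n hn
    obtain ⟨k, hd⟩ := data_of h1
    rw [h2] at hd
    rw [mem_biUnion]
    refine ⟨k, ?_, ?_⟩
    · rw [mem_range]
      have := k_le hd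
      omega
    · rw [hAk, mem_filter]
      exact ⟨hn, hd⟩
  set W : ℝ := ((t + 3 : ℕ) : ℝ) * (2 * Gr (t + 3) ^ t * MR t) *
      (((K : ℝ) + 1) * (2 : ℝ) ^ (((t : ℝ) + 5) + (2 : ℝ) ^ 16 * ((t : ℝ) + 5) ^ 3) *
        (2 : ℝ) ^ ((2 : ℝ) ^ (t + 3) / (200 * κ))) with hW
  have hAkc : ∀ k ∈ range (t + 5), ((Ak k).card : ℝ) ≤ W := by
    intro k hk
    have hk' : k ≤ t + 4 := by have := mem_range.1 hk; omega
    have h1 := count_k (k := k) (t := t) (κ := κ) (K := K) (L := Ak k)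
      (fun n hn => (mem_filter.1 hn).2) hκ1 hK
    refine h1.trans ?_
    rw [hW]
    apply mul_le_mul_of_nonneg_left (last_le t κ K k hκ1 hk')
    have := Gr_nonneg (t + 3)
    have := MR_ge t
    positivity
  have h1 : (A.card : ℝ) ≤ ((t + 5 : ℕ) : ℝ) * W := by
    calc (A.card : ℝ) ≤ (((range (t + 5)).biUnion Ak).card : ℝ) := by
          exact_mod_cast card_le_card hsub
      _ ≤ ((∑ k ∈ range (t + 5), (Ak k).card : ℕ) : ℝ) := by exact_mod_cast card_biUnion_le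
      _ = ∑ k ∈ range (t + 5), ((Ak k).card : ℝ) := by push_cast; rfl
      _ ≤ ∑ k ∈ range (t + 5), W := sum_le_sum hAkc
      _ = ((t + 5 : ℕ) : ℝ) * W := by rw [sum_const, card_range, nsmul_eq_mul]
  refine h1.trans ?_
  have a1 : ((t + 5 : ℕ) : ℝ) ≤ (2 : ℝ) ^ ((t : ℝ) + 5) := by
    have := two_pow_ge (t + 5)
    push_cast at this ⊢
    exact this
  have a2 : ((t + 3 : ℕ) : ℝ) ≤ (2 : ℝ) ^ ((t : ℝ) + 5) :=
    le_trans (by push_cast; linarith) a1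
  have a3 : (2 : ℝ) * Gr (t + 3) ^ t * MR t ≤ (2 : ℝ) ^ (1 : ℝ) *
      (2 : ℝ) ^ ((2 : ℝ) ^ 16 * ((t : ℝ) + 5) ^ 4) * (2 : ℝ) ^ ((2 : ℝ) ^ (t + 3) / 800) := by
    rw [Real.rpow_one, MR_eq t]
    apply mul_le_mul_of_nonneg_right _ (by positivity)
    exact mul_le_mul_of_nonneg_left (Gr_pow_le t) (by norm_num)
  have a4 : ((t + 5 : ℕ) : ℝ) * W ≤ (2 : ℝ) ^ ((t : ℝ) + 5) * ((2 : ℝ) ^ ((t : ℝ) + 5) *
      ((2 : ℝ) ^ (1 : ℝ) *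
      (2 : ℝ) ^ ((2 : ℝ) ^ 16 * ((t : ℝ) + 5) ^ 4) * (2 : ℝ) ^ ((2 : ℝ) ^ (t + 3) / 800)) *
      (((K : ℝ) + 1) * (2 : ℝ) ^ (((t : ℝ) + 5) + (2 : ℝ) ^ 16 * ((t : ℝ) + 5) ^ 3) *
        (2 : ℝ) ^ ((2 : ℝ) ^ (t + 3) / (200 * κ)))) := by
    have hG := Gr_nonneg (t + 3)
    have hM := MR_ge t
    rw [hW]
    apply mul_le_mul a1 _ (by positivity) (by positivity)
    apply mul_le_mul_of_nonneg_right _ (by positivity)
    exact mul_le_mul a2 a3 (by positivity) (by positivity)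
  refine a4.trans ?_
  have e1 : (2 : ℝ) ^ ((t : ℝ) + 5) * ((2 : ℝ) ^ ((t : ℝ) + 5) *
      ((2 : ℝ) ^ (1 : ℝ) *
      (2 : ℝ) ^ ((2 : ℝ) ^ 16 * ((t : ℝ) + 5) ^ 4) * (2 : ℝ) ^ ((2 : ℝ) ^ (t + 3) / 800)) *
      (((K : ℝ) + 1) * (2 : ℝ) ^ (((t : ℝ) + 5) + (2 : ℝ) ^ 16 * ((t : ℝ) + 5) ^ 3) *
        (2 : ℝ) ^ ((2 : ℝ) ^ (t + 3) / (200 * κ)))) = ((K : ℝ) + 1) *
      (2 : ℝ) ^ (((t : ℝ) + 5) + ((t : ℝ) + 5) + 1 + (2 : ℝ) ^ 16 * ((t : ℝ) + 5) ^ 4 +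
        (2 : ℝ) ^ (t + 3) / 800 + (((t : ℝ) + 5) + (2 : ℝ) ^ 16 * ((t : ℝ) + 5) ^ 3) +
        (2 : ℝ) ^ (t + 3) / (200 * κ)) := by
    have h2 : (0 : ℝ) < 2 := by norm_num
    rw [Real.rpow_add h2 _ ((2 : ℝ) ^ (t + 3) / (200 * κ)),
      Real.rpow_add h2 _ (((t : ℝ) + 5) + (2 : ℝ) ^ 16 * ((t : ℝ) + 5) ^ 3),
      Real.rpow_add h2 _ ((2 : ℝ) ^ (t + 3) / 800),
      Real.rpow_add h2 _ ((2 : ℝ) ^ 16 * ((t : ℝ) + 5) ^ 4),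
      Real.rpow_add h2 _ (1 : ℝ), Real.rpow_add h2 ((t : ℝ) + 5) ((t : ℝ) + 5)]
    ring
  rw [e1, mul_assoc, ← Real.rpow_add (by norm_num)]
  apply mul_le_mul_of_nonneg_left _ (by positivity)
  apply Real.rpow_le_rpow_of_exponent_le (by norm_num)
  have h3 := hC1 t
  have hX : (0 : ℝ) ≤ (2 : ℝ) ^ (t + 3) := by positivity
  have h4 : (2 : ℝ) ^ (t + 3) / (200 * κ) ≤ (ε / 2) * 2 ^ (t + 3) := by
    have := mul_le_mul_of_nonneg_right hκε hX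
    calc (2 : ℝ) ^ (t + 3) / (200 * κ) = 1 / (200 * κ) * 2 ^ (t + 3) := by ring
      _ ≤ _ := this
  have hu : (5 : ℝ) ≤ (t : ℝ) + 5 := by linarith
  generalize (2 : ℝ) ^ (t + 3) = X at *
  generalize (t : ℝ) + 5 = u at *
  have h5 : u ^ 3 ≤ u ^ 4 := by
    have : (0 : ℝ) ≤ u ^ 3 := by positivity
    nlinarith
  have h6 : u ≤ u ^ 4 := by
    have : (1 : ℝ) ≤ u ^ 3 := one_le_pow₀ (by linarith)
    nlinarith
  have h7 : (1 : ℝ) ≤ u ^ 4 := one_le_pow₀ (by linarith)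
  have e2 : (1 / 800 + ε) * X = X / 800 + (ε / 2) * X + (ε / 2) * X := by ring
  rw [e2]
  nlinarith

theorem count (ε : ℝ) (hε : 0 < ε) : ∃ C : ℝ, 0 < C ∧ ∀ (r : ℕ) (A : Finset ℕ),
    (∀ n ∈ A, Leh n ∧ n.primeFactors.card = r) →
    (A.card : ℝ) ≤ C * (2 : ℝ) ^ ((1 / 800 + ε) * 2 ^ r) := by
  obtain ⟨C, hC, h⟩ := count_large ε hε
  refine ⟨C + 16, by linarith, fun r A hA => ?_⟩
  rcases Nat.lt_or_ge r 3 with h1 | h1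
  · have h2 : A ⊆ range 16 := by
      intro n hn
      obtain ⟨h3, h4⟩ := hA n hn
      have h5 := leh_bound h3
      rw [h4] at h5
      have h6 : n < 2 ^ (2 ^ r) := lt_of_le_of_lt (Nat.le_self_pow (by norm_num) n) h5
      have h7 : 2 ^ (2 ^ r) ≤ 16 := by
        have : r = 0 ∨ r = 1 ∨ r = 2 := by omega
        rcases this with h8 | h8 | h8 <;> subst h8 <;> norm_num
      rw [mem_range]
      omega
    have h3 : (A.card : ℝ) ≤ 16 := by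
      have := card_le_card h2
      rw [card_range] at this
      exact_mod_cast this
    have h4 : (1 : ℝ) ≤ (2 : ℝ) ^ ((1 / 800 + ε) * 2 ^ r) :=
      Real.one_le_rpow (by norm_num) (by positivity)
    nlinarith
  · obtain ⟨t, rfl⟩ : ∃ t, r = t + 3 := ⟨r - 3, by omega⟩
    have h2 := h t A hA
    have h4 : (0 : ℝ) ≤ (2 : ℝ) ^ ((1 / 800 + ε) * 2 ^ (t + 3)) := by positivity
    nlinarith

end Pool.Agent.R330.LT
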