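import Mathlib

set_option autoImplicit false

/-!
# A majorization inequality

If `x` is increasing, all terms exceed `1`, and the partial products of `x` dominate those of `y`,
then `∏ (1 - 1/y i) ≤ ∏ (1 - 1/x i)`.
-/

namespace Pool.Agent.R330.LT

open Finset

theorem log_ineq {x y : ℝ} (hx : 1 < x) (hy : 1 < y) :
    Real.log (1 - 1 / y) ≤ Real.log (1 - 1 / x) + (Real.log y - Real.log x) / (x - 1) := by
  have hx0 : 0 < x := by linarith
  have hy0 : 0 < y := by linarith
  have hx1 : 0 < x - 1 := by linarith
  have hy1 : 0 < y - 1 := by linarith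
  have hα : 1 ≤ x / (x - 1) := by
    rw [le_div_iff₀ hx1]; linarith
  have hB := one_add_mul_self_le_rpow_one_add (s := y / x - 1) (by
    have : 0 < y / x := by positivity
    linarith) hα
  have h1 : 1 + x / (x - 1) * (y / x - 1) = (y - 1) / (x - 1) := by
    field_simp
    ring
  have h2 : 1 + (y / x - 1) = y / x := by ring
  rw [h1, h2] at hB
  have h3 := Real.log_le_log (by positivity) hB
  rw [Real.log_rpow (by positivity), Real.log_div (by linarith) (by linarith),
    Real.log_div (by linarith) (by linarith)] at h3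
  have h4 : Real.log (1 - 1 / y) = Real.log (y - 1) - Real.log y := by
    rw [← Real.log_div (by linarith) (by linarith)]
    congr 1
    field_simp
  have h5 : Real.log (1 - 1 / x) = Real.log (x - 1) - Real.log x := by
    rw [← Real.log_div (by linarith) (by linarith)]
    congr 1
    field_simp
  rw [h4, h5]
  have h6 : x / (x - 1) * (Real.log y - Real.log x) =
      (Real.log y - Real.log x) + (Real.log y - Real.log x) / (x - 1) := by
    field_simp
    ring
  rw [h6] at h3
  linarith

/-- Abel summation -/
theorem abel (c d : ℕ → ℝ) (m : ℕ) (hc0 : ∀ i, i < m → 0 ≤ c i)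
    (hc : ∀ i, i + 1 < m → c (i + 1) ≤ c i)
    (hd : ∀ l, l ≤ m → 0 ≤ ∑ i ∈ range l, d i) (hm : 0 < m) :
    c (m - 1) * ∑ i ∈ range m, d i ≤ ∑ i ∈ range m, c i * d i := by
  induction m with
  | zero => omega
  | succ m ih =>
    rcases Nat.eq_zero_or_pos m with h0 | h0
    · subst h0; simp
    · have h1 := ih (fun i hi => hc0 i (by omega)) (fun i hi => hc i (by omega))
        (fun l hl => hd l (by omega)) h0
      have h2 : c m ≤ c (m - 1) := by
        have := hc (m - 1) (by omega)
        rwa [Nat.sub_add_cancel h0] at this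
      have h3 := hd m (by omega)
      rw [sum_range_succ, sum_range_succ, Nat.add_sub_cancel]
      have h4 := mul_le_mul_of_nonneg_right h2 h3
      linarith [mul_add (c m) (∑ i ∈ range m, d i) (d m)]

theorem major (x y : ℕ → ℝ) (m : ℕ) (hx : ∀ i, i < m → 1 < x i) (hy : ∀ i, i < m → 1 < y i)
    (hmono : ∀ i, i + 1 < m → x i ≤ x (i + 1))
    (hmaj : ∀ l, l ≤ m → ∏ i ∈ range l, y i ≤ ∏ i ∈ range l, x i) :
    ∏ i ∈ range m, (1 - 1 / y i) ≤ ∏ i ∈ range m, (1 - 1 / x i) := by
  have hpos : ∀ z : ℝ, 1 < z → 0 < 1 - 1 / z := by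
    intro z hz
    have : 1 / z < 1 := by rw [div_lt_one (by linarith)]; exact hz
    linarith
  have hyp : ∀ i ∈ range m, 0 < 1 - 1 / y i := fun i hi => hpos _ (hy i (mem_range.1 hi))
  have hxp : ∀ i ∈ range m, 0 < 1 - 1 / x i := fun i hi => hpos _ (hx i (mem_range.1 hi))
  rcases Nat.eq_zero_or_pos m with h0 | h0
  · subst h0; simp
  rw [← Real.log_le_log_iff (prod_pos hyp) (prod_pos hxp),
    Real.log_prod (fun i hi => (hyp i hi).ne'),
    Real.log_prod (fun i hi => (hxp i hi).ne')]
  have hd : ∀ l, l ≤ m → 0 ≤ ∑ i ∈ range l, (Real.log (x i) - Real.log (y i)) := by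
    intro l hl
    rw [sum_sub_distrib, ← Real.log_prod (fun i hi => ?_), ← Real.log_prod (fun i hi => ?_)]
    · have : Real.log (∏ i ∈ range l, y i) ≤ Real.log (∏ i ∈ range l, x i) := by
        apply Real.log_le_log _ (hmaj l hl)
        apply prod_pos
        intro i hi
        have := hy i (by have := mem_range.1 hi; omega)
        linarith
      linarith
    · have := hy i (by have := mem_range.1 hi; omega)
      linarith
    · have := hx i (by have := mem_range.1 hi; omega)
      linarith
  have hA := abel (fun i => 1 / (x i - 1)) (fun i => Real.log (x i) - Real.log (y i)) m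
    (fun i hi => by have := hx i hi; exact le_of_lt (one_div_pos.2 (by linarith)))
    (fun i hi => by
      have h1 := hx i (by omega)
      have h2 := hmono i hi
      exact one_div_le_one_div_of_le (by linarith) (by linarith)) hd h0
  have h1 : 0 ≤ 1 / (x (m - 1) - 1) * ∑ i ∈ range m, (Real.log (x i) - Real.log (y i)) := by
    apply mul_nonneg _ (hd m le_rfl)
    have := hx (m - 1) (by omega)
    exact le_of_lt (one_div_pos.2 (by linarith))
  have h2 : ∑ i ∈ range m, Real.log (1 - 1 / y i) ≤ ∑ i ∈ range m, Real.log (1 - 1 / x i) -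
      ∑ i ∈ range m, 1 / (x i - 1) * (Real.log (x i) - Real.log (y i)) := by
    rw [← sum_sub_distrib]
    apply sum_le_sum
    intro i hi
    have := log_ineq (hx i (mem_range.1 hi)) (hy i (mem_range.1 hi))
    have e : (Real.log (y i) - Real.log (x i)) / (x i - 1) =
        -(1 / (x i - 1) * (Real.log (x i) - Real.log (y i))) := by ring
    rw [e] at this
    linarith
  linarith

end Pool.Agent.R330.LT
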