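import Mathlib

set_option autoImplicit false

/-!
# Values of a polynomial divisible by a large integer are spread out
-/

namespace Pool.Agent.R330.LT

open Finset Polynomial

/-- if `q` divides the values of `g` (degree `k`, leading coefficient `a`) at `v 0, ..., v k` then
`q` divides `a` times the Vandermonde determinant -/
theorem vand_dvd (g : ℤ[X]) (k : ℕ) (hk : g.natDegree = k) (q : ℤ) (v : Fin (k + 1) → ℤ)
    (h : ∀ i, q ∣ g.eval (v i)) :
    q ∣ g.leadingCoeff * ∏ i : Fin (k + 1), ∏ j ∈ Ioi i, (v j - v i) := by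
  set p : Fin (k + 1) → ℤ[X] := fun j => if j = Fin.last k then g else X ^ (j : ℕ) with hp
  have hdeg : ∀ i, (p i).natDegree ≤ i := by
    intro i
    rw [hp]
    by_cases hi : i = Fin.last k
    · simp only [hi, if_true]
      rw [hk]
      simp
    · simp only [hi, if_false]
      exact natDegree_X_pow_le _
  have h1 := Matrix.eval_matrixOfPolynomials_eq_vandermonde_mul_matrixOfPolynomials v p hdeg
  have h2 := congrArg Matrix.det h1
  rw [Matrix.det_mul, Matrix.det_vandermonde] at h2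
  have h3 : (Matrix.of (fun (i j : Fin (k + 1)) => (p j).coeff i)).det = g.leadingCoeff := by
    rw [Matrix.det_of_isUpperTriangular]
    · rw [Fin.prod_univ_castSucc]
      have e1 : ∀ i : Fin k, (Matrix.of (fun (i j : Fin (k + 1)) => (p j).coeff i))
          (Fin.castSucc i) (Fin.castSucc i) = 1 := by
        intro i
        rw [Matrix.of_apply, hp]
        have : Fin.castSucc i ≠ Fin.last k := (Fin.castSucc_lt_last i).ne
        simp [this]
      rw [prod_congr rfl (fun i _ => e1 i), prod_const_one, one_mul, Matrix.of_apply, hp]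
      simp only [if_true]
      rw [Fin.val_last, ← hk]
      rfl
    · intro i j hij
      rw [Matrix.of_apply]
      apply coeff_eq_zero_of_natDegree_lt
      exact lt_of_le_of_lt (hdeg j) hij
  rw [h3] at h2
  rw [mul_comm, ← h2, Matrix.det_succ_column _ (Fin.last k)]
  apply dvd_sum
  intro i _
  apply Dvd.dvd.mul_right
  apply Dvd.dvd.mul_left
  rw [Matrix.of_apply, hp]
  simp only [if_true]
  exact h i

/-- number of pairs -/
theorem sum_card_Ioi (k : ℕ) : ∑ i : Fin (k + 1), (Ioi i).card = k * (k + 1) / 2 := by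
  have h1 : ∀ i : Fin (k + 1), (Ioi i).card = k - i := by
    intro i
    rw [Fin.card_Ioi]
    omega
  rw [sum_congr rfl (fun i _ => h1 i), Fin.sum_univ_eq_sum_range (fun i => k - i) (k + 1)]
  have h2 := sum_range_reflect (fun i => i) (k + 1)
  simp only [Nat.add_sub_cancel] at h2
  rw [h2, sum_range_id, Nat.add_sub_cancel, mul_comm]

/-- in a short block of a residue class modulo `d` there are at most `k` values divisible by `q` -/
theorem block_le (g : ℤ[X]) (k : ℕ) (hk : g.natDegree = k) (hk1 : 1 ≤ k) (d q ℓ : ℕ)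
    (hd : 0 < d) (hℓ : 0 < ℓ) (hcop : Nat.Coprime q d)
    (hq : g.leadingCoeff.natAbs * ℓ ^ (k * (k + 1) / 2) < q) (A : Finset ℕ) (c b : ℕ)
    (hA : ∀ m ∈ A, m % d = c ∧ m / (d * ℓ) = b ∧ (q : ℤ) ∣ g.eval (m : ℤ)) : A.card ≤ k := by
  by_contra hcon
  rw [not_le] at hcon
  obtain ⟨B, hBA, hB⟩ := exists_subset_card_eq (show k + 1 ≤ A.card from hcon)
  set e := B.orderEmbOfFin hB with he
  have hmem : ∀ i, e i ∈ A := fun i => hBA (orderEmbOfFin_mem B hB i)
  set u : Fin (k + 1) → ℕ := fun i => e i / d with hu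
  have heu : ∀ i, e i = d * u i + c := by
    intro i
    have h1 := (hA _ (hmem i)).1
    have h2 := Nat.div_add_mod (e i) d
    rw [h1] at h2
    exact h2.symm
  have hlt : ∀ i j, i < j → u i < u j := by
    intro i j hij
    have h1 : e i < e j := e.strictMono hij
    rw [heu i, heu j] at h1
    by_contra hc
    rw [not_lt] at hc
    have := Nat.mul_le_mul_left d hc
    omega
  have hdiff : ∀ i j, i < j → u j - u i ≤ ℓ := by
    intro i j hij
    have h1 := (hA _ (hmem i)).2.1
    have h2 := (hA _ (hmem j)).2.1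
    have h3 := Nat.div_add_mod (e i) (d * ℓ)
    have h4 := Nat.div_add_mod (e j) (d * ℓ)
    have h5 := Nat.mod_lt (e j) (Nat.mul_pos hd hℓ)
    rw [h1] at h3
    rw [h2] at h4
    have h6 : e j < e i + d * ℓ := by omega
    rw [heu i, heu j] at h6
    have h7 : d * u j < d * (u i + ℓ) := by
      rw [mul_add]; omega
    have h8 := Nat.lt_of_mul_lt_mul_left h7
    omega
  have hdv := vand_dvd g k hk (q : ℤ) (fun i => (e i : ℤ)) (fun i => (hA _ (hmem i)).2.2)
  have hfac : ∏ i : Fin (k + 1), ∏ j ∈ Ioi i, ((e j : ℤ) - e i) =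
      (∏ i : Fin (k + 1), ∏ j ∈ Ioi i, (d : ℤ)) *
        ∏ i : Fin (k + 1), ∏ j ∈ Ioi i, ((u j - u i : ℕ) : ℤ) := by
    rw [← prod_mul_distrib]
    apply prod_congr rfl
    intro i _
    rw [← prod_mul_distrib]
    apply prod_congr rfl
    intro j hj
    have h1 := hlt i j (mem_Ioi.1 hj)
    rw [heu i, heu j, Nat.cast_sub h1.le]
    push_cast
    ring
  rw [hfac, mul_left_comm] at hdv
  have hcop2 : IsCoprime (q : ℤ) (∏ i : Fin (k + 1), ∏ j ∈ Ioi i, (d : ℤ)) := by
    apply IsCoprime.prod_right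
    intro i _
    apply IsCoprime.prod_right
    intro j _
    exact Nat.isCoprime_iff_coprime.2 hcop
  have h9 := hcop2.dvd_of_dvd_mul_left hdv
  rw [← Int.natAbs_dvd_natAbs] at h9
  simp only [Int.natAbs_natCast, Int.natAbs_mul] at h9
  have e1 : (∏ i : Fin (k + 1), ∏ j ∈ Ioi i, ((u j - u i : ℕ) : ℤ)).natAbs =
      ∏ i : Fin (k + 1), ∏ j ∈ Ioi i, (u j - u i) := by
    rw [← Int.natAbs_natCast (∏ i : Fin (k + 1), ∏ j ∈ Ioi i, (u j - u i))]
    congr 1
    push_cast
    rfl
  rw [e1] at h9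
  have hpos : 0 < ∏ i : Fin (k + 1), ∏ j ∈ Ioi i, (u j - u i) := by
    apply prod_pos
    intro i _
    apply prod_pos
    intro j hj
    have := hlt i j (mem_Ioi.1 hj)
    omega
  have hle : ∏ i : Fin (k + 1), ∏ j ∈ Ioi i, (u j - u i) ≤ ℓ ^ (k * (k + 1) / 2) := by
    calc ∏ i : Fin (k + 1), ∏ j ∈ Ioi i, (u j - u i) ≤
        ∏ i : Fin (k + 1), ∏ j ∈ Ioi i, ℓ :=
          prod_le_prod' (fun i _ => prod_le_prod' (fun j hj => hdiff i j (mem_Ioi.1 hj)))
      _ = ℓ ^ (k * (k + 1) / 2) := by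
          simp only [prod_const]
          rw [prod_pow_eq_pow_sum, sum_card_Ioi]
  have hg0 : 0 < g.leadingCoeff.natAbs := by
    rw [Int.natAbs_pos]
    intro h0
    rw [leadingCoeff_eq_zero] at h0
    rw [h0] at hk
    simp at hk
    omega
  have h10 := Nat.le_of_dvd (Nat.mul_pos hg0 hpos) h9
  have h11 := Nat.mul_le_mul_left g.leadingCoeff.natAbs hle
  omega

end Pool.Agent.R330.LT
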