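import Pool.Agent.R330.LT.PolyA
import Pool.Agent.R330.LT.Cnt

set_option autoImplicit false

/-!
# Polynomial values with a given divisor
-/

namespace Pool.Agent.R330.LT

open Finset Polynomial
open Pool.Agent.H95R2.Leh

/-- residues modulo `d` at which `d` divides the value of `f` -/
noncomputable def Rt (f : ℤ[X]) (d : ℕ) : Finset ℕ := by
  classical
  exact (range d).filter (fun m => (d : ℤ) ∣ f.eval (m : ℤ))

theorem mem_Rt {f : ℤ[X]} {d m : ℕ} : m ∈ Rt f d ↔ m < d ∧ (d : ℤ) ∣ f.eval (m : ℤ) := by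
  classical
  unfold Rt
  rw [mem_filter, mem_range]

theorem eval_mod (f : ℤ[X]) (d m : ℕ) :
    (d : ℤ) ∣ f.eval (m : ℤ) ↔ (d : ℤ) ∣ f.eval ((m % d : ℕ) : ℤ) := by
  have h1 : (m : ℤ) - ((m % d : ℕ) : ℤ) ∣ f.eval (m : ℤ) - f.eval ((m % d : ℕ) : ℤ) :=
    sub_dvd_eval_sub _ _ _
  have h2 : (d : ℤ) ∣ (m : ℤ) - ((m % d : ℕ) : ℤ) := by
    push_cast
    exact Int.dvd_self_sub_emod
  have h3 := h2.trans h1
  constructor
  · intro h
    have := dvd_sub h h3
    simpa using this
  · intro h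
    have := dvd_add h h3
    simpa using this

theorem Rt_mul (f : ℤ[X]) {d e : ℕ} (hd : 0 < d) (he : 0 < e) (h : Nat.Coprime d e) :
    (Rt f (d * e)).card ≤ (Rt f d).card * (Rt f e).card := by
  rw [← card_product]
  apply card_le_card_of_injOn (fun m => (m % d, m % e))
  · intro m hm
    rw [mem_coe, mem_Rt] at hm
    rw [mem_coe, mem_product, mem_Rt, mem_Rt]
    push_cast at hm
    refine ⟨⟨Nat.mod_lt _ hd, ?_⟩, ⟨Nat.mod_lt _ he, ?_⟩⟩
    · exact (eval_mod f d m).1 ((Dvd.intro _ rfl).trans hm.2)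
    · exact (eval_mod f e m).1 ((Dvd.intro_left _ rfl).trans hm.2)
  · intro m hm m' hm' hmm
    rw [mem_coe, mem_Rt] at hm hm'
    simp only [Prod.mk.injEq] at hmm
    have h1 : m ≡ m' [MOD d * e] := (Nat.modEq_and_modEq_iff_modEq_mul h).1 hmm
    have h2 : m % (d * e) = m' % (d * e) := h1
    rwa [Nat.mod_eq_of_lt hm.1, Nat.mod_eq_of_lt hm'.1] at h2

theorem Rt_prime (f : ℤ[X]) {k : ℕ} (hk : f.natDegree = k) {p : ℕ} (hp : p.Prime) :
    (Rt f p).card ≤ if (p : ℤ) ∣ f.leadingCoeff then p else k := by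
  split_ifs with h
  · calc (Rt f p).card ≤ (range p).card := card_le_card (fun m hm => mem_range.2 (mem_Rt.1 hm).1)
      _ = p := card_range p
  · have : Fact p.Prime := ⟨hp⟩
    set g := f.map (Int.castRingHom (ZMod p)) with hg
    have hg0 : g ≠ 0 := by
      intro h0
      have h1 : g.coeff f.natDegree = 0 := by rw [h0]; simp
      rw [hg, coeff_map] at h1
      apply h
      have h2 : ((f.leadingCoeff : ℤ) : ZMod p) = 0 := h1
      exact (ZMod.intCast_zmod_eq_zero_iff_dvd _ _).1 h2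
    have hdeg : g.natDegree ≤ k := by
      rw [← hk]
      exact natDegree_map_le
    have h1 : (Rt f p).card ≤ g.roots.toFinset.card := by
      apply card_le_card_of_injOn (fun m : ℕ => (m : ZMod p))
      · intro m hm
        rw [mem_coe, mem_Rt] at hm
        rw [mem_coe, Multiset.mem_toFinset, mem_roots hg0, IsRoot.def, hg]
        have h2 : ((f.eval (m : ℤ) : ℤ) : ZMod p) = 0 :=
          (ZMod.intCast_zmod_eq_zero_iff_dvd _ _).2 hm.2
        rw [← h2]
        have := eval_intCast_map (Int.castRingHom (ZMod p)) f (m : ℤ)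
        simpa using this
      · intro m hm m' hm' hmm
        rw [mem_coe, mem_Rt] at hm hm'
        have h2 := (ZMod.natCast_eq_natCast_iff' m m' p).1 hmm
        rwa [Nat.mod_eq_of_lt hm.1, Nat.mod_eq_of_lt hm'.1] at h2
    calc (Rt f p).card ≤ g.roots.toFinset.card := h1
      _ ≤ Multiset.card g.roots := g.roots.toFinset_card_le
      _ ≤ g.natDegree := card_roots' g
      _ ≤ k := hdeg

theorem Rt_prod (f : ℤ[X]) {k : ℕ} (hk : f.natDegree = k) (s : Finset ℕ)
    (hs : ∀ p ∈ s, p.Prime) : (Rt f (∏ p ∈ s, p)).card ≤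
      ∏ p ∈ s, if (p : ℤ) ∣ f.leadingCoeff then p else k := by
  classical
  induction s using Finset.induction_on with
  | empty =>
    simp only [prod_empty]
    calc (Rt f 1).card ≤ (range 1).card := card_le_card (fun m hm => mem_range.2 (mem_Rt.1 hm).1)
      _ = 1 := card_range 1
  | insert p s hps ih =>
    rw [prod_insert hps, prod_insert hps]
    have hp := hs p (mem_insert_self _ _)
    have hs' : ∀ q ∈ s, q.Prime := fun q hq => hs q (mem_insert_of_mem hq)
    have hcop : Nat.Coprime p (∏ q ∈ s, q) := by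
      apply Nat.Coprime.prod_right
      intro q hq
      exact (Nat.coprime_primes hp (hs' q hq)).2 (fun h => hps (h ▸ hq))
    have hpos : 0 < ∏ q ∈ s, q := prod_pos (fun q hq => (hs' q hq).pos)
    exact (Rt_mul f hp.pos hpos hcop).trans (Nat.mul_le_mul (Rt_prime f hk hp) (ih hs'))

theorem Rt_card (f : ℤ[X]) {k : ℕ} (hk : f.natDegree = k) (hk1 : 1 ≤ k) {d : ℕ}
    (hd : Squarefree d) : (Rt f d).card ≤
      f.leadingCoeff.natAbs * k ^ d.primeFactors.card := by
  classical
  have h0 : f.leadingCoeff.natAbs ≠ 0 := by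
    rw [Int.natAbs_ne_zero]
    intro h0
    rw [leadingCoeff_eq_zero] at h0
    rw [h0] at hk
    simp at hk
    omega
  have h1 := Rt_prod f hk d.primeFactors (fun p hp => Nat.prime_of_mem_primeFactors hp)
  rw [Nat.prod_primeFactors_of_squarefree hd] at h1
  refine h1.trans ?_
  rw [← prod_filter_mul_prod_filter_not d.primeFactors (fun p : ℕ => (p : ℤ) ∣ f.leadingCoeff)]
  apply Nat.mul_le_mul
  · apply Nat.le_of_dvd (by omega)
    have h2 : ∏ p ∈ d.primeFactors.filter (fun p : ℕ => (p : ℤ) ∣ f.leadingCoeff),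
        (if (p : ℤ) ∣ f.leadingCoeff then p else k) =
        ∏ p ∈ d.primeFactors.filter (fun p : ℕ => (p : ℤ) ∣ f.leadingCoeff), p := by
      apply prod_congr rfl
      intro p hp
      rw [if_pos (mem_filter.1 hp).2]
    rw [h2]
    apply prod_primes_dvd
    · intro p hp
      exact (Nat.prime_of_mem_primeFactors (mem_filter.1 hp).1).prime
    · intro p hp
      have := (mem_filter.1 hp).2
      exact Int.natCast_dvd.1 this
  · calc ∏ p ∈ d.primeFactors.filter (fun p : ℕ => ¬ (p : ℤ) ∣ f.leadingCoeff),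
        (if (p : ℤ) ∣ f.leadingCoeff then p else k) =
        ∏ p ∈ d.primeFactors.filter (fun p : ℕ => ¬ (p : ℤ) ∣ f.leadingCoeff), k := by
          apply prod_congr rfl
          intro p hp
          rw [if_neg (mem_filter.1 hp).2]
      _ = k ^ (d.primeFactors.filter (fun p : ℕ => ¬ (p : ℤ) ∣ f.leadingCoeff)).card := by
          rw [prod_const]
      _ ≤ k ^ d.primeFactors.card := Nat.pow_le_pow_right hk1 (card_filter_le _ _)

open Classical in
/-- the values with divisor `d` and predecessor divisible by `φ(d)` -/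
theorem count_d (f : ℤ[X]) {k : ℕ} (hk : f.natDegree = k) (hk1 : 1 ≤ k) {d ℓ x : ℕ}
    (hd : Squarefree d) (hℓ : 0 < ℓ) (hcop : Nat.Coprime d.totient d)
    (hq : f.leadingCoeff.natAbs * ℓ ^ (k * (k + 1) / 2) < d.totient) :
    ((Icc 1 x).filter (fun m : ℕ => (d : ℤ) ∣ f.eval (m : ℤ) ∧
      (d.totient : ℤ) ∣ f.eval (m : ℤ) - 1)).card ≤
      k * ((f.leadingCoeff.natAbs * k ^ d.primeFactors.card) * (x / (d * ℓ) + 1)) := by
  have hd0 : 0 < d := Nat.pos_of_ne_zero hd.ne_zero
  set g : ℤ[X] := f - C 1 with hg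
  have hgk : g.natDegree = k := by rw [hg, natDegree_sub_C, hk]
  have hglc : g.leadingCoeff = f.leadingCoeff := by
    unfold leadingCoeff
    rw [hgk, hk, hg, coeff_sub, coeff_C, if_neg (by omega), sub_zero]
  set t : Finset (ℕ × ℕ) := Rt f d ×ˢ range (x / (d * ℓ) + 1) with ht
  have h1 := card_le_mul_card_image_of_maps_to (s := (Icc 1 x).filter (fun m : ℕ =>
      (d : ℤ) ∣ f.eval (m : ℤ) ∧ (d.totient : ℤ) ∣ f.eval (m : ℤ) - 1)) (t := t)
    (f := fun m => (m % d, m / (d * ℓ))) (fun m hm => by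
      rw [mem_filter, mem_Icc] at hm
      rw [ht, mem_product, mem_Rt, mem_range]
      refine ⟨⟨Nat.mod_lt _ hd0, (eval_mod f d m).1 hm.2.1⟩, ?_⟩
      have := Nat.div_le_div_right (c := d * ℓ) hm.1.2
      simp only
      omega) k (fun b _ => by
      apply block_le g k hgk hk1 d d.totient ℓ hd0 hℓ hcop (by rw [hglc]; exact hq) _ b.1 b.2
      intro m hm
      rw [mem_filter, mem_filter] at hm
      obtain ⟨⟨_, _, h3⟩, h4⟩ := hm
      rw [← h4]
      refine ⟨rfl, rfl, ?_⟩
      rw [hg, eval_sub, eval_C]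
      exact h3)
  refine h1.trans ?_
  apply Nat.mul_le_mul_left
  rw [ht, card_product, card_range]
  exact Nat.mul_le_mul_right _ (Rt_card f hk hk1 hd)

theorem PP_le_FF {n k r : ℕ} {x : ℕ → ℕ} (h : Data n k r x) :
    ∀ j, j ≤ r → PP x j ≤ (j + 1) * FF x j := by
  have hx : ∀ j, j < r → j + 2 ≤ x j := by
    intro j
    induction j with
    | zero => intro hj; exact h.sq.two 0 hj
    | succ j ih =>
      intro hj
      have h1 := ih (by omega)
      have h2 := h.sq.lt j hj
      omega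
  intro j
  induction j with
  | zero => intro _; simp [PP, FF]
  | succ j ih =>
    intro hj
    have h2 := ih (by omega)
    have h3 := hx j (by omega)
    obtain ⟨t, ht⟩ : ∃ t, x j = t + 1 := ⟨x j - 1, by omega⟩
    rw [PP_succ, FF_succ, ht, Nat.add_sub_cancel]
    have h4 : (j + 1) * (t + 1) ≤ (j + 2) * t := by nlinarith
    calc PP x j * (t + 1) ≤ ((j + 1) * FF x j) * (t + 1) := Nat.mul_le_mul_right _ h2
      _ = FF x j * ((j + 1) * (t + 1)) := by ring
      _ ≤ FF x j * ((j + 2) * t) := Nat.mul_le_mul_left _ h4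
      _ = (j + 1 + 1) * (FF x j * t) := by ring

/-- every such `n` has a divisor of every order of magnitude up to squaring -/
theorem exists_divisor {n : ℕ} (h : Leh n) {z : ℕ} (hz : 1 ≤ z) (hzn : z ≤ n) :
    ∃ d, z ≤ d ∧ d ≤ 2 * n.primeFactors.card * z ^ 2 ∧ Squarefree d ∧ d ∣ n ∧
      d.totient ∣ n - 1 ∧ Nat.Coprime d.totient d ∧ d ≤ (n.primeFactors.card + 1) * d.totient := by
  classical
  obtain ⟨k, hD⟩ := data_of h
  set r := n.primeFactors.card with hr
  set x := pseq n with hx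
  have hex : ∃ j, z ≤ PP x j := ⟨r, by rw [hD.prod]; exact hzn⟩
  set j := Nat.find hex with hj
  have hj1 : z ≤ PP x j := Nat.find_spec hex
  have hjr : j ≤ r := Nat.find_min' hex (by rw [hD.prod]; exact hzn)
  have hdvd : PP x j ∣ n := by
    have e1 : PP x r = PP x j * ∏ i ∈ range (r - j), x (j + i) := by
      have : r = j + (r - j) := by omega
      conv_lhs => rw [this]
      exact prod_range_add _ _ _
    rw [← hD.prod, e1]
    exact Dvd.intro _ rfl
  have hn1 : 1 < n := h.1
  have htot : (PP x j).totient ∣ n - 1 := (Nat.totient_dvd_of_dvd hdvd).trans h.2.2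
  refine ⟨PP x j, hj1, ?_, (leh_sqf h).squarefree_of_dvd hdvd, hdvd, htot, ?_, ?_⟩
  · rcases Nat.eq_zero_or_pos j with h0 | h0
    · rw [h0]
      have h1 : PP x 0 = 1 := by simp [PP]
      rw [h1]
      have h2 := hD.pos
      have h3 : 1 ≤ z ^ 2 := Nat.one_le_pow _ _ hz
      nlinarith
    · obtain ⟨i, hi⟩ : ∃ i, j = i + 1 := ⟨j - 1, by omega⟩
      have hlt : PP x i < z := by
        by_contra hc
        rw [not_lt] at hc
        have := Nat.find_min' hex hc
        omega
      have h2 := x_le hD.sq (show i < r by omega)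
      have h3 := ER_le hD.sq (show i < r by omega)
      have h4 : (x i : ℝ) ≤ r * (2 * PP x i) := h2.trans (mul_le_mul_of_nonneg_left h3 (by positivity))
      have h5 : x i ≤ r * (2 * PP x i) := by exact_mod_cast h4
      rw [hi, PP_succ]
      calc PP x i * x i ≤ PP x i * (r * (2 * PP x i)) := Nat.mul_le_mul_left _ h5
        _ = 2 * r * PP x i ^ 2 := by ring
        _ ≤ 2 * r * z ^ 2 := Nat.mul_le_mul_left _ (Nat.pow_le_pow_left hlt.le 2)
  · have h1 : Nat.Coprime (n - 1) n := by
      have : Nat.Coprime (n - 1) (n - 1 + 1) := by simp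
      rwa [Nat.sub_add_cancel hn1.le] at this
    exact (Nat.Coprime.coprime_dvd_left htot h1).coprime_dvd_right hdvd
  · rw [tot_PP hD hjr]
    exact (PP_le_FF hD j hjr).trans (Nat.mul_le_mul_right _ (by omega))

/-- few arguments with a small value -/
theorem small_values (f : ℤ[X]) {k : ℕ} (hk : f.natDegree = k) (hk1 : 1 ≤ k) (z : ℕ)
    (A : Finset ℕ) (hA : ∀ m ∈ A, ∃ n : ℕ, f.eval (m : ℤ) = n ∧ n < z) : A.card ≤ k * z := by
  classical
  have h1 := card_le_mul_card_image_of_maps_to (s := A) (t := range z)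
    (f := fun m : ℕ => (f.eval (m : ℤ)).toNat) (fun m hm => by
      obtain ⟨n, h2, h3⟩ := hA m hm
      rw [mem_range, h2]
      simpa using h3) k (fun b _ => by
      set g : ℤ[X] := f - C (b : ℤ) with hg
      have hgk : g.natDegree = k := by rw [hg, natDegree_sub_C, hk]
      have hg0 : g ≠ 0 := by
        intro h0
        rw [h0] at hgk
        simp at hgk
        omega
      have h2 : (A.filter (fun m : ℕ => (f.eval (m : ℤ)).toNat = b)).card ≤
          g.roots.toFinset.card := by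
        apply card_le_card_of_injOn (fun m : ℕ => (m : ℤ))
        · intro m hm
          rw [mem_coe, mem_filter] at hm
          rw [mem_coe, Multiset.mem_toFinset, mem_roots hg0, IsRoot.def, hg, eval_sub, eval_C]
          obtain ⟨n, h3, _⟩ := hA m hm.1
          have h4 := hm.2
          rw [h3] at h4 ⊢
          simp only [Int.toNat_natCast] at h4
          rw [h4, sub_self]
        · intro m _ m' _ hmm
          simpa using hmm
      calc (A.filter (fun m : ℕ => (f.eval (m : ℤ)).toNat = b)).card ≤ g.roots.toFinset.card := h2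
        _ ≤ Multiset.card g.roots := g.roots.toFinset_card_le
        _ ≤ g.natDegree := card_roots' g
        _ = k := hgk)
  rwa [card_range] at h1

theorem two_pow_le {n : ℕ} (hn : n ≠ 0) : 2 ^ n.primeFactors.card ≤ n.divisors.card := by
  rw [Nat.card_divisors hn, ← Finset.prod_const]
  refine Finset.prod_le_prod' fun p hp => ?_
  have h1 : 0 < n.factorization p := by
    have := Nat.mem_primeFactors.1 hp
    exact this.1.factorization_pos_of_dvd hn this.2.1
  omega

/-- the combinatorial bound -/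
theorem count_all (f : ℤ[X]) {k : ℕ} (hk : f.natDegree = k) (hk1 : 1 ≤ k) {x ℓ z R T : ℕ}
    (hz : 1 ≤ z) (hℓ : 0 < ℓ) (A : Finset ℕ)
    (hA : ∀ m ∈ A, m ∈ Icc 1 x ∧ ∃ n : ℕ, f.eval (m : ℤ) = n ∧ Leh n ∧ n.primeFactors.card ≤ R)
    (hq : f.leadingCoeff.natAbs * ℓ ^ (k * (k + 1) / 2) * (R + 1) < z)
    (hT : ∀ d ∈ Icc z (2 * R * z ^ 2), d.divisors.card ^ k ≤ T) :
    A.card ≤ k * z + ∑ d ∈ Icc z (2 * R * z ^ 2),
      k * ((f.leadingCoeff.natAbs * T) * (x / (d * ℓ) + 1)) := by
  classical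
  set D : Finset ℕ := (Icc z (2 * R * z ^ 2)).filter (fun d => Squarefree d ∧
    Nat.Coprime d.totient d ∧ d ≤ (R + 1) * d.totient) with hD
  set Cd : ℕ → Finset ℕ := fun d => (Icc 1 x).filter (fun m : ℕ => (d : ℤ) ∣ f.eval (m : ℤ) ∧
      (d.totient : ℤ) ∣ f.eval (m : ℤ) - 1) with hCd
  have hsub : A ⊆ A.filter (fun m : ℕ => ∃ n : ℕ, f.eval (m : ℤ) = n ∧ n < z) ∪ D.biUnion Cd := by
    intro m hm
    obtain ⟨hm1, n, h1, h2, h3⟩ := hA m hm
    rw [mem_union]
    rcases Nat.lt_or_ge n z with h4 | h4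
    · left
      rw [mem_filter]
      exact ⟨hm, n, h1, h4⟩
    · right
      obtain ⟨d, e1, e2, e3, e4, e5, e6, e7⟩ := exists_divisor h2 hz h4
      rw [mem_biUnion]
      refine ⟨d, ?_, ?_⟩
      · rw [hD, mem_filter, mem_Icc]
        refine ⟨⟨e1, e2.trans ?_⟩, e3, e6, e7.trans ?_⟩
        · exact Nat.mul_le_mul_right _ (Nat.mul_le_mul_left _ h3)
        · exact Nat.mul_le_mul_right _ (by omega)
      · rw [hCd, mem_filter, h1]
        refine ⟨hm1, by exact_mod_cast e4, ?_⟩
        have hn1 : 1 ≤ n := h2.1.le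
        have : ((n : ℤ) - 1) = ((n - 1 : ℕ) : ℤ) := by push_cast [Nat.cast_sub hn1]; ring
        rw [this]
        exact_mod_cast e5
  have h1 : (A.filter (fun m : ℕ => ∃ n : ℕ, f.eval (m : ℤ) = n ∧ n < z)).card ≤ k * z :=
    small_values f hk hk1 z _ (fun m hm => (mem_filter.1 hm).2)
  have h2 : ∀ d ∈ D, (Cd d).card ≤ k * ((f.leadingCoeff.natAbs * T) * (x / (d * ℓ) + 1)) := by
    intro d hd
    rw [hD, mem_filter] at hd
    obtain ⟨hd1, hd2, hd3, hd4⟩ := hd
    have hq' : f.leadingCoeff.natAbs * ℓ ^ (k * (k + 1) / 2) < d.totient := by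
      have h5 := (mem_Icc.1 hd1).1
      by_contra hc
      rw [not_lt] at hc
      have := Nat.mul_le_mul_left (R + 1) hc
      nlinarith
    refine (count_d f hk hk1 hd2 hℓ hd3 hq').trans ?_
    apply Nat.mul_le_mul_left
    apply Nat.mul_le_mul_right
    apply Nat.mul_le_mul_left
    calc k ^ d.primeFactors.card ≤ (2 ^ k) ^ d.primeFactors.card :=
          Nat.pow_le_pow_left (Nat.lt_two_pow_self).le _
      _ = (2 ^ d.primeFactors.card) ^ k := by rw [← pow_mul, ← pow_mul, mul_comm]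
      _ ≤ d.divisors.card ^ k := Nat.pow_le_pow_left (two_pow_le hd2.ne_zero) _
      _ ≤ T := hT d hd1
  calc A.card ≤ _ := card_le_card hsub
    _ ≤ (A.filter (fun m : ℕ => ∃ n : ℕ, f.eval (m : ℤ) = n ∧ n < z)).card + (D.biUnion Cd).card :=
        card_union_le _ _
    _ ≤ k * z + ∑ d ∈ D, (Cd d).card := Nat.add_le_add h1 card_biUnion_le
    _ ≤ k * z + ∑ d ∈ D, k * ((f.leadingCoeff.natAbs * T) * (x / (d * ℓ) + 1)) :=
        Nat.add_le_add_left (sum_le_sum h2) _
    _ ≤ _ := by
        apply Nat.add_le_add_left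
        exact sum_le_sum_of_subset (filter_subset _ _)

end Pool.Agent.R330.LT
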