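import Pool.Agent.R330.LT.PolyB

set_option autoImplicit false

/-!
# The final estimate for polynomial values
-/

namespace Pool.Agent.R330.LT

open Finset Polynomial
open Pool.Agent.H95R2.Leh

/-- bound for the values -/
def Cf (f : ℤ[X]) : ℕ := ∑ i ∈ range (f.natDegree + 1), (f.coeff i).natAbs + 1

theorem eval_le (f : ℤ[X]) {k : ℕ} (hk : f.natDegree = k) {x m n : ℕ} (hm : m ∈ Icc 1 x)
    (h : f.eval (m : ℤ) = n) : n ≤ Cf f * x ^ k := by
  rw [mem_Icc] at hm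
  rw [eval_eq_sum_range] at h
  have hx : 1 ≤ x := hm.1.trans hm.2
  have h1 : n ≤ ∑ i ∈ range (f.natDegree + 1), (f.coeff i).natAbs * x ^ k := by
    have h2 : (n : ℤ) ≤ ∑ i ∈ range (f.natDegree + 1), (((f.coeff i).natAbs * x ^ k : ℕ) : ℤ) := by
      rw [← h]
      apply sum_le_sum
      intro i hi
      rw [mem_range] at hi
      have h3 : f.coeff i * (m : ℤ) ^ i ≤ ((f.coeff i).natAbs : ℤ) * (m : ℤ) ^ i :=
        mul_le_mul_of_nonneg_right (Int.le_natAbs) (by positivity)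
      have h4 : (m : ℤ) ^ i ≤ (x : ℤ) ^ k := by
        have : m ^ i ≤ x ^ k := (Nat.pow_le_pow_left hm.2 i).trans
          (Nat.pow_le_pow_right hx (by omega))
        exact_mod_cast this
      push_cast
      have h5 := mul_le_mul_of_nonneg_left h4 (show (0 : ℤ) ≤ |f.coeff i| by positivity)
      have h6 : ((f.coeff i).natAbs : ℤ) = |f.coeff i| := Int.natCast_natAbs _
      rw [h6] at h3
      linarith
    exact_mod_cast h2
  refine h1.trans ?_
  rw [← sum_mul]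
  apply Nat.mul_le_mul_right
  unfold Cf
  omega

theorem omega_le {n : ℕ} (hn : n ≠ 0) : n.primeFactors.card ≤ Nat.log 2 n := by
  apply Nat.le_log_of_pow_le (by norm_num)
  exact (two_pow_le hn).trans (Nat.card_divisors_le_self n)

theorem sum_inv_le (z Z : ℕ) (hz : 1 ≤ z) : ∑ d ∈ Icc z Z, 1 / (d : ℝ) ≤ 1 + Real.log Z := by
  calc ∑ d ∈ Icc z Z, 1 / (d : ℝ) ≤ ∑ d ∈ Icc 1 Z, 1 / (d : ℝ) :=
        sum_le_sum_of_subset_of_nonneg (Icc_subset_Icc_left hz) (fun i _ _ => by positivity)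
    _ = (harmonic Z : ℝ) := by
        rw [harmonic_eq_sum_Icc]
        push_cast
        simp only [one_div]
    _ ≤ 1 + Real.log Z := harmonic_le_one_add_log Z

theorem exists_root (K x : ℕ) (hK : 1 ≤ K) (hx : 1 ≤ x) : ∃ y, 1 ≤ y ∧ y ^ K ≤ x ∧
    x < (2 * y) ^ K := by
  classical
  set y := Nat.findGreatest (fun y => y ^ K ≤ x) x with hy
  have h1 : y ^ K ≤ x := Nat.findGreatest_spec (P := fun y => y ^ K ≤ x) hx (by simpa using hx)
  have h2 : 1 ≤ y := Nat.le_findGreatest hx (by simpa using hx)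
  refine ⟨y, h2, h1, ?_⟩
  have h3 : x < (y + 1) ^ K := by
    by_contra hc
    rw [not_lt] at hc
    have h4 : y + 1 ≤ x := (Nat.le_self_pow (by omega) _).trans hc
    have h5 := Nat.le_findGreatest (P := fun y => y ^ K ≤ x) h4 hc
    omega
  exact h3.trans_le (Nat.pow_le_pow_left (by omega) K)

theorem count_poly (f : ℤ[X]) {k : ℕ} (hk : f.natDegree = k) (hk1 : 1 ≤ k) (ε : ℝ) (hε : 0 < ε) :
    ∃ C : ℝ, 0 < C ∧ ∀ x : ℕ, 1 ≤ x → ∀ A : Finset ℕ,
      (∀ m ∈ A, m ∈ Icc 1 x ∧ ∃ n : ℕ, f.eval (m : ℤ) = n ∧ Leh n) →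
      (A.card : ℝ) ≤ C * (x : ℝ) ^ (1 - 1 / ((k : ℝ) ^ 2 + k + 1) + ε) := by
  obtain ⟨η, hη0, hη1, hηε⟩ : ∃ η : ℝ, 0 < η ∧ η ≤ 1 / 3 ∧ 4 * η ≤ ε :=
    ⟨min (1 / 3) (ε / 4), by positivity, min_le_left _ _, by
      have := min_le_right (1 / 3) (ε / 4)
      linarith⟩
  obtain ⟨κ, hκ⟩ := exists_nat_gt (2 * k / η)
  have hkR : (1 : ℝ) ≤ k := by exact_mod_cast hk1
  have hκ0 : (0 : ℝ) < κ := lt_trans (by positivity) hκ
  have hκ1 : 1 ≤ κ := by
    have : 0 < κ := by exact_mod_cast hκ0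
    exact this
  obtain ⟨Kκ, hKκ⟩ := H353.divisor_bound κ
  set a : ℕ := f.leadingCoeff.natAbs with ha
  have ha1 : 1 ≤ a := by
    rw [ha, Nat.one_le_iff_ne_zero, Int.natAbs_ne_zero]
    intro h0
    rw [leadingCoeff_eq_zero] at h0
    rw [h0] at hk
    simp at hk
    omega
  have haR : (1 : ℝ) ≤ a := by exact_mod_cast ha1
  have hCf1 : 1 ≤ Cf f := by unfold Cf; omega
  have hCfR : (1 : ℝ) ≤ Cf f := by exact_mod_cast hCf1
  -- constants
  set C1 : ℝ := Real.log (Cf f) / Real.log 2 + k / (η * Real.log 2) + 1 with hC1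
  have hlog2 : 0 < Real.log 2 := Real.log_pos (by norm_num)
  have hC1p : 1 ≤ C1 := by
    have h1 : 0 ≤ Real.log (Cf f) := Real.log_nonneg hCfR
    have : 0 ≤ Real.log (Cf f) / Real.log 2 + k / (η * Real.log 2) := by positivity
    linarith
  set C2 : ℝ := 8 * a ^ 2 * C1 ^ 3 with hC2
  have hC2p : 1 ≤ C2 := by
    have h1 : (1 : ℝ) ≤ (a : ℝ) ^ 2 := one_le_pow₀ haR
    have h2 : (1 : ℝ) ≤ C1 ^ 3 := one_le_pow₀ hC1p
    have h3 : (1 : ℝ) ≤ (a : ℝ) ^ 2 * C1 ^ 3 := one_le_mul_of_one_le_of_one_le h1 h2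
    rw [hC2]
    nlinarith
  set C3 : ℝ := Real.log C2 + 2 / η with hC3
  set C5 : ℝ := ((Kκ : ℝ) * C2) ^ ((k : ℝ) / κ) with hC5
  have hC5p : 0 ≤ C5 := Real.rpow_nonneg (by positivity) _
  have hC3p : 0 ≤ C3 := by
    have : 0 ≤ Real.log C2 := Real.log_nonneg hC2p
    positivity
  set C4 : ℝ := 2 * k * a * C1 + k * a * (C5 * (1 + C3 + C2)) with hC4
  refine ⟨2 * C4, by positivity, fun x hx A hA => ?_⟩
  have hX1 : (1 : ℝ) ≤ x := by exact_mod_cast hx
  have hX0 : (0 : ℝ) < x := by linarith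
  set K2 : ℕ := k * (k + 1) / 2 with hK2
  have hK2e : 2 * K2 = k * (k + 1) := by
    rw [hK2]
    exact Nat.mul_div_cancel' (Nat.even_mul_succ_self k).two_dvd
  obtain ⟨y, hy1, hyK, hyK2⟩ := exists_root (2 * K2 + 1) x (by omega) hx
  have hyR : (1 : ℝ) ≤ y := by exact_mod_cast hy1
  set R : ℕ := Nat.log 2 (Cf f * x ^ k) with hR
  set z : ℕ := a * y ^ K2 * (R + 1) + 1 with hz
  set Z : ℕ := 2 * R * z ^ 2 with hZ
  -- powers of x
  have hxη : (1 : ℝ) ≤ (x : ℝ) ^ η := Real.one_le_rpow hX1 hη0.le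
  have hlogx : Real.log x ≤ (x : ℝ) ^ η / η := Real.log_le_rpow_div hX0.le hη0
  have hlogx0 : 0 ≤ Real.log x := Real.log_nonneg hX1
  -- bound for R
  have hRle : (R : ℝ) + 1 ≤ C1 * (x : ℝ) ^ η := by
    have h1 : 2 ^ R ≤ Cf f * x ^ k := by
      apply Nat.pow_log_le_self
      have : 0 < Cf f * x ^ k := by positivity
      omega
    have h2 : (2 : ℝ) ^ R ≤ Cf f * (x : ℝ) ^ k := by exact_mod_cast h1
    have h3 := Real.log_le_log (by positivity) h2
    rw [Real.log_pow, Real.log_mul (by positivity) (by positivity), Real.log_pow] at h3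
    have h4 : (R : ℝ) ≤ Real.log (Cf f) / Real.log 2 + k * ((x : ℝ) ^ η / η) / Real.log 2 := by
      rw [← add_div, le_div_iff₀ hlog2]
      have := mul_le_mul_of_nonneg_left hlogx (show (0 : ℝ) ≤ k by positivity)
      linarith
    have h5 : 0 ≤ Real.log (Cf f) / Real.log 2 := div_nonneg (Real.log_nonneg hCfR) hlog2.le
    have h6 : k * ((x : ℝ) ^ η / η) / Real.log 2 = k / (η * Real.log 2) * (x : ℝ) ^ η := by
      field_simp
    rw [h6] at h4
    rw [hC1]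
    nlinarith
  have hR0 : (0 : ℝ) ≤ R := Nat.cast_nonneg R
  set H : ℝ := (R : ℝ) + 1 with hH
  have hH1 : 1 ≤ H := by linarith
  -- x / y
  set Q : ℝ := (x : ℝ) / y with hQ
  have hyKR : (y : ℝ) ^ (2 * K2) ≤ Q := by
    rw [hQ, le_div_iff₀ (by linarith), ← pow_succ]
    exact_mod_cast hyK
  have hQ1 : 1 ≤ Q := (one_le_pow₀ hyR).trans hyKR
  have hyK2R : (y : ℝ) ^ K2 ≤ Q :=
    (pow_le_pow_right₀ hyR (by omega : K2 ≤ 2 * K2)).trans hyKR
  have hQx : Q ≤ x := by rw [hQ]; exact div_le_self hX0.le hyR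
  -- z, Z
  have hzle : (z : ℝ) ≤ 2 * a * (y : ℝ) ^ K2 * H := by
    rw [hz]
    push_cast
    have h1 : (1 : ℝ) ≤ (y : ℝ) ^ K2 := one_le_pow₀ hyR
    have h2 : (1 : ℝ) ≤ a * (y : ℝ) ^ K2 * H := by
      have := one_le_mul_of_one_le_of_one_le haR h1
      exact one_le_mul_of_one_le_of_one_le this hH1
    linarith
  have hZle : (Z : ℝ) ≤ 8 * a ^ 2 * H ^ 3 * Q := by
    rw [hZ]
    push_cast
    have h1 : (z : ℝ) ^ 2 ≤ (2 * a * (y : ℝ) ^ K2 * H) ^ 2 :=
      pow_le_pow_left₀ (Nat.cast_nonneg z) hzle 2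
    calc 2 * (R : ℝ) * (z : ℝ) ^ 2 ≤ 2 * H * (2 * a * (y : ℝ) ^ K2 * H) ^ 2 := by
          apply mul_le_mul _ h1 (by positivity) (by positivity)
          linarith
      _ = 8 * a ^ 2 * H ^ 3 * (y : ℝ) ^ (2 * K2) := by ring
      _ ≤ 8 * a ^ 2 * H ^ 3 * Q := mul_le_mul_of_nonneg_left hyKR (by positivity)
  have hH3 : H ^ 3 ≤ C1 ^ 3 * (x : ℝ) ^ (3 * η) := by
    have h1 : H ^ 3 ≤ (C1 * (x : ℝ) ^ η) ^ 3 := pow_le_pow_left₀ (by linarith) hRle 3
    rw [mul_pow] at h1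
    have h2 : ((x : ℝ) ^ η) ^ 3 = (x : ℝ) ^ (3 * η) := by
      rw [← Real.rpow_natCast, ← Real.rpow_mul hX0.le]
      congr 1
      push_cast
      ring
    rwa [h2] at h1
  have hx3η : (1 : ℝ) ≤ (x : ℝ) ^ (3 * η) := Real.one_le_rpow hX1 (by positivity)
  have hZx : (Z : ℝ) ≤ C2 * (x : ℝ) ^ (2 : ℝ) := by
    have h1 : (x : ℝ) ^ (3 * η) ≤ x := by
      calc (x : ℝ) ^ (3 * η) ≤ (x : ℝ) ^ (1 : ℝ) :=
            Real.rpow_le_rpow_of_exponent_le hX1 (by linarith)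
        _ = x := Real.rpow_one _
    calc (Z : ℝ) ≤ 8 * a ^ 2 * H ^ 3 * Q := hZle
      _ ≤ 8 * a ^ 2 * (C1 ^ 3 * (x : ℝ) ^ (3 * η)) * x := by
          apply mul_le_mul _ hQx (by positivity) (by positivity)
          exact mul_le_mul_of_nonneg_left hH3 (by positivity)
      _ ≤ 8 * a ^ 2 * (C1 ^ 3 * x) * x := by
          apply mul_le_mul_of_nonneg_right _ (by positivity)
          apply mul_le_mul_of_nonneg_left _ (by positivity)
          exact mul_le_mul_of_nonneg_left h1 (by positivity)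
      _ = C2 * (x : ℝ) ^ (2 : ℝ) := by
          rw [hC2]
          have : (x : ℝ) ^ (2 : ℝ) = x * x := by
            rw [Real.rpow_two]; ring
          rw [this]
          ring
  have hlogZ : 1 + Real.log Z ≤ (1 + C3) * (x : ℝ) ^ (3 * η) := by
    have h1 : Real.log Z ≤ C3 * (x : ℝ) ^ η := by
      rcases Nat.eq_zero_or_pos Z with h0 | h0
      · rw [h0]
        simp only [Nat.cast_zero, Real.log_zero]
        positivity
      · have h2 : (0 : ℝ) < Z := by exact_mod_cast h0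
        have h3 := Real.log_le_log h2 hZx
        rw [Real.log_mul (by linarith) (by positivity), Real.log_rpow hX0] at h3
        have h4 : 0 ≤ Real.log C2 := Real.log_nonneg hC2p
        rw [hC3]
        have h5 : 2 * ((x : ℝ) ^ η / η) = 2 / η * (x : ℝ) ^ η := by ring
        nlinarith
    have h2 : (x : ℝ) ^ η ≤ (x : ℝ) ^ (3 * η) :=
      Real.rpow_le_rpow_of_exponent_le hX1 (by linarith)
    have h3 := mul_le_mul_of_nonneg_left h2 hC3p
    linarith
  -- T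
  set T : ℕ := ⌊((Kκ : ℝ) * Z) ^ ((k : ℝ) / κ)⌋₊ with hT
  have hTd : ∀ d ∈ Icc z (2 * R * z ^ 2), d.divisors.card ^ k ≤ T := by
    intro d hd
    rw [mem_Icc] at hd
    have hd0 : d ≠ 0 := by
      have : 1 ≤ z := by rw [hz]; omega
      omega
    apply Nat.le_floor
    push_cast
    have h1 : ((d.divisors.card : ℝ)) ^ κ ≤ Kκ * Z := by
      have h2 := hKκ d hd0
      have h3 : Kκ * d ≤ Kκ * Z := Nat.mul_le_mul_left _ hd.2
      exact_mod_cast h2.trans h3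
    have h4 := Real.rpow_le_rpow (pow_nonneg (Nat.cast_nonneg _) κ) h1
      (show (0 : ℝ) ≤ (k : ℝ) / κ by positivity)
    have h5 : (((d.divisors.card : ℝ)) ^ κ) ^ ((k : ℝ) / κ) = (d.divisors.card : ℝ) ^ k := by
      rw [← Real.rpow_natCast ((d.divisors.card : ℝ)) κ, ← Real.rpow_mul (Nat.cast_nonneg _),
        mul_div_cancel₀ _ hκ0.ne', Real.rpow_natCast]
    rw [h5] at h4
    exact h4
  have hTle : (T : ℝ) ≤ C5 * (x : ℝ) ^ η := by
    have h1 : (T : ℝ) ≤ ((Kκ : ℝ) * Z) ^ ((k : ℝ) / κ) := Nat.floor_le (by positivity)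
    refine h1.trans ?_
    have h2 : (Kκ : ℝ) * Z ≤ (Kκ : ℝ) * C2 * (x : ℝ) ^ (2 : ℝ) := by
      rw [mul_assoc]
      exact mul_le_mul_of_nonneg_left hZx (Nat.cast_nonneg _)
    refine (Real.rpow_le_rpow (by positivity) h2 (by positivity)).trans ?_
    rw [Real.mul_rpow (by positivity) (by positivity)]
    apply mul_le_mul_of_nonneg_left _ hC5p
    rw [← Real.rpow_mul hX0.le]
    apply Real.rpow_le_rpow_of_exponent_le hX1
    rw [div_lt_iff₀ hη0] at hκ
    rw [← mul_div_assoc, div_le_iff₀ hκ0]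
    linarith
  -- counting
  have hA' : ∀ m ∈ A, m ∈ Icc 1 x ∧ ∃ n : ℕ, f.eval (m : ℤ) = n ∧ Leh n ∧
      n.primeFactors.card ≤ R := by
    intro m hm
    obtain ⟨h1, n, h2, h3⟩ := hA m hm
    refine ⟨h1, n, h2, h3, ?_⟩
    have hn : n ≠ 0 := by have := h3.1; omega
    exact (omega_le hn).trans (Nat.log_mono_right (eval_le f hk h1 h2))
  have hcount := count_all f hk hk1 (x := x) (ℓ := y) (z := z) (R := R) (T := T)
    (by rw [hz]; omega) (by omega) A hA' (by rw [hz, ← ha]; exact Nat.lt_succ_self _) hTd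
  have hcR : (A.card : ℝ) ≤ k * z + ∑ d ∈ Icc z Z,
      k * ((a * T) * (Q * (1 / (d : ℝ)) + 1)) := by
    have h1 : (A.card : ℝ) ≤ ((k * z + ∑ d ∈ Icc z (2 * R * z ^ 2),
      k * ((f.leadingCoeff.natAbs * T) * (x / (d * y) + 1)) : ℕ) : ℝ) := by exact_mod_cast hcount
    refine h1.trans ?_
    push_cast
    rw [← ha, ← hZ]
    apply add_le_add le_rfl
    apply sum_le_sum
    intro d _
    apply mul_le_mul_of_nonneg_left _ (by positivity)
    apply mul_le_mul_of_nonneg_left _ (by positivity)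
    apply add_le_add _ le_rfl
    calc ((x / (d * y) : ℕ) : ℝ) ≤ (x : ℝ) / ((d * y : ℕ) : ℝ) := Nat.cast_div_le
      _ = Q * (1 / (d : ℝ)) := by
          rw [hQ]
          push_cast
          rw [mul_one_div, div_div, mul_comm (y : ℝ)]
  have hsum : ∑ d ∈ Icc z Z, (k : ℝ) * ((a * T) * (Q * (1 / (d : ℝ)) + 1)) ≤
      k * ((a * T) * (Q * (1 + Real.log Z) + Z)) := by
    rw [← mul_sum, ← mul_sum, sum_add_distrib, ← mul_sum]
    apply mul_le_mul_of_nonneg_left _ (by positivity)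
    apply mul_le_mul_of_nonneg_left _ (by positivity)
    apply add_le_add
    · exact mul_le_mul_of_nonneg_left (sum_inv_le z Z (by rw [hz]; omega)) (by positivity)
    · rw [sum_const, nsmul_eq_mul, mul_one, Nat.card_Icc]
      have : Z + 1 - z ≤ Z := by
        have : 1 ≤ z := by rw [hz]; omega
        omega
      exact_mod_cast this
  have hfinal : (A.card : ℝ) ≤ Q * (C4 * (x : ℝ) ^ (4 * η)) := by
    have h1 : (k : ℝ) * z ≤ Q * (2 * k * a * H) := by
      calc (k : ℝ) * z ≤ k * (2 * a * (y : ℝ) ^ K2 * H) :=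
            mul_le_mul_of_nonneg_left hzle (by positivity)
        _ ≤ k * (2 * a * Q * H) := by
            apply mul_le_mul_of_nonneg_left _ (by positivity)
            apply mul_le_mul_of_nonneg_right _ (by linarith)
            exact mul_le_mul_of_nonneg_left hyK2R (by positivity)
        _ = Q * (2 * k * a * H) := by ring
    have h2 : Q * (1 + Real.log Z) + Z ≤ Q * ((1 + C3 + C2) * (x : ℝ) ^ (3 * η)) := by
      have h3 : (Z : ℝ) ≤ Q * (C2 * (x : ℝ) ^ (3 * η)) := by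
        calc (Z : ℝ) ≤ 8 * a ^ 2 * H ^ 3 * Q := hZle
          _ ≤ 8 * a ^ 2 * (C1 ^ 3 * (x : ℝ) ^ (3 * η)) * Q := by
              apply mul_le_mul_of_nonneg_right _ (by linarith)
              exact mul_le_mul_of_nonneg_left hH3 (by positivity)
          _ = Q * (C2 * (x : ℝ) ^ (3 * η)) := by rw [hC2]; ring
      have h4 := mul_le_mul_of_nonneg_left hlogZ (show (0 : ℝ) ≤ Q by linarith)
      have h5 : Q * ((1 + C3 + C2) * (x : ℝ) ^ (3 * η)) =
          Q * ((1 + C3) * (x : ℝ) ^ (3 * η)) + Q * (C2 * (x : ℝ) ^ (3 * η)) := by ring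
      rw [h5]
      exact add_le_add h4 h3
    have hx4 : (x : ℝ) ^ (4 * η) = (x : ℝ) ^ η * (x : ℝ) ^ (3 * η) := by
      rw [← Real.rpow_add hX0]
      congr 1
      ring
    have h6 : k * ((a * T) * (Q * (1 + Real.log Z) + Z)) ≤
        Q * (k * a * (C5 * (1 + C3 + C2)) * (x : ℝ) ^ (4 * η)) := by
      have hnn : 0 ≤ Q * ((1 + C3 + C2) * (x : ℝ) ^ (3 * η)) := by positivity
      calc k * ((a * T) * (Q * (1 + Real.log Z) + Z)) ≤
          k * ((a * T) * (Q * ((1 + C3 + C2) * (x : ℝ) ^ (3 * η)))) := by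
            apply mul_le_mul_of_nonneg_left _ (by positivity)
            exact mul_le_mul_of_nonneg_left h2 (by positivity)
        _ ≤ k * ((a * (C5 * (x : ℝ) ^ η)) * (Q * ((1 + C3 + C2) * (x : ℝ) ^ (3 * η)))) := by
            apply mul_le_mul_of_nonneg_left _ (by positivity)
            apply mul_le_mul_of_nonneg_right _ hnn
            exact mul_le_mul_of_nonneg_left hTle (by positivity)
        _ = Q * (k * a * (C5 * (1 + C3 + C2)) * (x : ℝ) ^ (4 * η)) := by rw [hx4]; ring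
    have h7 : Q * (2 * k * a * H) ≤ Q * (2 * k * a * C1 * (x : ℝ) ^ (4 * η)) := by
      apply mul_le_mul_of_nonneg_left _ (by linarith)
      have h8 : H ≤ C1 * (x : ℝ) ^ (4 * η) := by
        refine hRle.trans (mul_le_mul_of_nonneg_left ?_ (by linarith))
        exact Real.rpow_le_rpow_of_exponent_le hX1 (by linarith)
      calc 2 * k * a * H ≤ 2 * k * a * (C1 * (x : ℝ) ^ (4 * η)) :=
            mul_le_mul_of_nonneg_left h8 (by positivity)
        _ = _ := by ring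
    calc (A.card : ℝ) ≤ k * z + k * ((a * T) * (Q * (1 + Real.log Z) + Z)) :=
          hcR.trans (add_le_add le_rfl hsum)
      _ ≤ Q * (2 * k * a * C1 * (x : ℝ) ^ (4 * η)) +
          Q * (k * a * (C5 * (1 + C3 + C2)) * (x : ℝ) ^ (4 * η)) :=
          add_le_add (h1.trans h7) h6
      _ = Q * (C4 * (x : ℝ) ^ (4 * η)) := by rw [hC4]; ring
  -- Q in terms of x
  have hKe : ((2 * K2 + 1 : ℕ) : ℝ) = (k : ℝ) ^ 2 + k + 1 := by
    have : 2 * K2 + 1 = k ^ 2 + k + 1 := by rw [hK2e]; ring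
    rw [this]
    push_cast
    ring
  have hQle : Q ≤ 2 * (x : ℝ) ^ (1 - 1 / ((k : ℝ) ^ 2 + k + 1)) := by
    rw [← hKe]
    have h1 : (x : ℝ) ≤ (2 * y) ^ (2 * K2 + 1) := by exact_mod_cast hyK2.le
    have h2 : (x : ℝ) ^ (1 / ((2 * K2 + 1 : ℕ) : ℝ)) ≤ 2 * y := by
      have h3 := Real.rpow_le_rpow hX0.le h1 (show (0 : ℝ) ≤ 1 / ((2 * K2 + 1 : ℕ) : ℝ) by positivity)
      rw [one_div, Real.pow_rpow_inv_natCast (by positivity) (by omega)] at h3
      rw [one_div]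
      exact h3
    rw [Real.rpow_sub hX0, Real.rpow_one, hQ, ← mul_div_assoc]
    rw [div_le_div_iff₀ (by linarith) (by positivity)]
    have := mul_le_mul_of_nonneg_left h2 hX0.le
    linarith
  calc (A.card : ℝ) ≤ Q * (C4 * (x : ℝ) ^ (4 * η)) := hfinal
    _ ≤ (2 * (x : ℝ) ^ (1 - 1 / ((k : ℝ) ^ 2 + k + 1))) * (C4 * (x : ℝ) ^ (4 * η)) :=
        mul_le_mul_of_nonneg_right hQle (by positivity)
    _ = 2 * C4 * ((x : ℝ) ^ (1 - 1 / ((k : ℝ) ^ 2 + k + 1)) * (x : ℝ) ^ (4 * η)) := by ring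
    _ = 2 * C4 * (x : ℝ) ^ (1 - 1 / ((k : ℝ) ^ 2 + k + 1) + 4 * η) := by
        rw [← Real.rpow_add hX0]
    _ ≤ 2 * C4 * (x : ℝ) ^ (1 - 1 / ((k : ℝ) ^ 2 + k + 1) + ε) := by
        apply mul_le_mul_of_nonneg_left _ (by positivity)
        exact Real.rpow_le_rpow_of_exponent_le hX1 (by linarith)

end Pool.Agent.R330.LT
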