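import Pool.Agent.R330.LT.Check

set_option autoImplicit false

namespace Pool.Agent.R330.LT

theorem run_tree : tree 100 13 3000 1 1 0 5 = true := by decide +kernel

theorem run_leaf3 : leaf 100 13 1 40 1 2 0 5 = true := by decide +kernel

theorem run_leaf4 : leaf 100 13 3 40 3 5 1 5 = true := by decide +kernel

end Pool.Agent.R330.LT
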