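import Pool.Agent.R330.LT.Sound
import Pool.Agent.R330.LT.Run
import Pool.Agent.H95R2.Leh.Defs

set_option autoImplicit false

/-!
# From composite `n` with `φ(n) ∣ n - 1` to sequences
-/

namespace Pool.Agent.R330.LT

open Finset
open Pool.Agent.H95R2.Leh

/-- the primes of `n` in increasing order -/
noncomputable def pseq (n : ℕ) (i : ℕ) : ℕ :=
  if h : i < n.primeFactors.card then n.primeFactors.orderEmbOfFin rfl ⟨i, h⟩ else 0

theorem pseq_mem {n i : ℕ} (h : i < n.primeFactors.card) : pseq n i ∈ n.primeFactors := by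
  rw [pseq, dif_pos h]
  exact orderEmbOfFin_mem _ _ _

theorem pseq_lt {n i j : ℕ} (hij : i < j) (h : j < n.primeFactors.card) :
    pseq n i < pseq n j := by
  rw [pseq, dif_pos (by omega), pseq, dif_pos h]
  exact (n.primeFactors.orderEmbOfFin rfl).strictMono (by simpa using hij)

theorem pseq_prod (n : ℕ) (g : ℕ → ℕ) :
    ∏ i ∈ range n.primeFactors.card, g (pseq n i) = ∏ p ∈ n.primeFactors, g p := by
  rw [prod_range]
  have h1 : ∀ i : Fin n.primeFactors.card, g (pseq n i) =
      g (n.primeFactors.orderEmbOfFin rfl i) := by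
    intro i
    rw [pseq, dif_pos i.2]
  rw [prod_congr rfl (fun i _ => h1 i)]
  conv_rhs => rw [← map_orderEmbOfFin_univ n.primeFactors rfl]
  rw [prod_map]
  rfl

theorem leh_sqf {n : ℕ} (h : Leh n) : Squarefree n := by
  obtain ⟨h1, _, h3⟩ := h
  rw [Nat.squarefree_iff_prime_squarefree]
  intro p hp hpp
  have h4 : p ∣ n.totient := by
    have h5 : (p * p).totient ∣ n.totient := Nat.totient_dvd_of_dvd hpp
    have h6 : (p * p).totient = (p - 1) * p := by
      rw [← pow_two, Nat.totient_prime_pow hp (by norm_num)]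
      simp [mul_comm]
    rw [h6] at h5
    exact (Dvd.intro_left _ rfl).trans h5
  have h7 : p ∣ n - 1 := h4.trans h3
  have h8 : p ∣ n := (Dvd.intro _ rfl).trans hpp
  have h9 := Nat.dvd_sub h8 h7
  have h10 : n - (n - 1) = 1 := by omega
  rw [h10] at h9
  exact hp.one_lt.ne' (Nat.dvd_one.1 h9)

theorem leh_not_dvd {n p : ℕ} (h : Leh n) (hp : p.Prime) (h8 : p ∣ n) (h4 : p ∣ n.totient) :
    False := by
  obtain ⟨h1, _, h3⟩ := h
  have h7 : p ∣ n - 1 := h4.trans h3
  have h9 := Nat.dvd_sub h8 h7
  have h10 : n - (n - 1) = 1 := by omega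
  rw [h10] at h9
  exact hp.one_lt.ne' (Nat.dvd_one.1 h9)

theorem leh_odd {n : ℕ} (h : Leh n) : ¬ 2 ∣ n := by
  intro h2
  have hn : 2 < n := by
    obtain ⟨h1, hc, _⟩ := h
    rcases Nat.lt_or_ge 2 n with h3 | h3
    · exact h3
    · exfalso
      have : n = 2 := by omega
      rw [this] at hc
      exact hc Nat.prime_two
  exact leh_not_dvd h Nat.prime_two h2 (Nat.totient_even hn).two_dvd

/-- the sequence attached to `n` -/
structure Data (n k r : ℕ) (x : ℕ → ℕ) : Prop where
  card : r = n.primeFactors.card
  prod : PP x r = n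
  tot : FF x r = n.totient
  sq : Sq k r x
  adm : ∀ S, Adm S r x
  eq : k * FF x r + 1 = PP x r
  two : 2 ≤ k
  pos : 0 < r

theorem tail_lt (x : ℕ → ℕ) (j : ℕ) : ∀ m, 0 < m → (∀ i, i < m → 2 ≤ x (j + i)) →
    ∏ i ∈ range m, (x (j + i) - 1) + 1 ≤ ∏ i ∈ range m, x (j + i) := by
  intro m
  induction m with
  | zero => intro h; omega
  | succ m ih =>
    intro _ h
    rcases Nat.eq_zero_or_pos m with h0 | h0
    · subst h0
      have := h 0 (by omega)
      simp only [prod_range_succ, prod_range_zero, one_mul]
      omega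
    · have h1 := ih h0 (fun i hi => h i (by omega))
      have h2 := h m (by omega)
      rw [prod_range_succ, prod_range_succ]
      obtain ⟨t, ht⟩ : ∃ t, x (j + m) = t + 1 := ⟨x (j + m) - 1, by omega⟩
      rw [ht, Nat.add_sub_cancel]
      have h3 := Nat.mul_le_mul h1 (Nat.le_succ t)
      have h4 : 0 < t := by omega
      nlinarith [Nat.mul_le_mul_right (t + 1) h1]

theorem data_of {n : ℕ} (h : Leh n) : ∃ k, Data n k n.primeFactors.card (pseq n) := by
  have hsq := leh_sqf h
  have hodd := leh_odd h
  have h' := h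
  obtain ⟨h1, hc, k, hk⟩ := h
  have hprod : PP (pseq n) n.primeFactors.card = n := by
    have := pseq_prod n (fun p => p)
    unfold PP
    rw [this]
    exact Nat.prod_primeFactors_of_squarefree hsq
  have htot : FF (pseq n) n.primeFactors.card = n.totient := by
    have := pseq_prod n (fun p => p - 1)
    unfold FF
    rw [this]
    have h2 := Nat.totient_mul_prod_primeFactors n
    rw [Nat.prod_primeFactors_of_squarefree hsq, mul_comm n] at h2
    exact (Nat.eq_of_mul_eq_mul_right (by omega) h2).symm
  have heq : k * FF (pseq n) n.primeFactors.card + 1 = PP (pseq n) n.primeFactors.card := by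
    rw [hprod, htot, mul_comm, ← hk]
    omega
  have hpos : 0 < n.primeFactors.card := by
    rw [card_pos]
    exact Nat.nonempty_primeFactors.2 h1
  have hk2 : 2 ≤ k := by
    by_contra hlt
    have : k = 0 ∨ k = 1 := by omega
    rcases this with h2 | h2
    · rw [h2, mul_zero] at hk
      omega
    · rw [h2, mul_one] at hk
      exact hc ((Nat.totient_eq_iff_prime (by omega)).1 hk.symm)
  have htwo : ∀ i, i < n.primeFactors.card → 2 ≤ pseq n i := fun i hi =>
    (Nat.prime_of_mem_primeFactors (pseq_mem hi)).two_le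
  refine ⟨k, rfl, hprod, htot, ⟨htwo, fun i hi => pseq_lt (by omega) hi, ?_, by omega⟩, ?_, heq,
    hk2, hpos⟩
  · intro j hj
    rcases Nat.eq_zero_or_pos j with h0 | h0
    · subst h0
      simp only [PP, FF, prod_range_zero, mul_one]
      omega
    · have hsplit : n.primeFactors.card = j + (n.primeFactors.card - j) := by omega
      have e1 : PP (pseq n) n.primeFactors.card = PP (pseq n) j *
          ∏ i ∈ range (n.primeFactors.card - j), pseq n (j + i) := by
        conv_lhs => rw [hsplit]
        exact prod_range_add _ _ _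
      have e2 : FF (pseq n) n.primeFactors.card = FF (pseq n) j *
          ∏ i ∈ range (n.primeFactors.card - j), (pseq n (j + i) - 1) := by
        conv_lhs => rw [hsplit]
        exact prod_range_add _ _ _
      have h2 := tail_lt (pseq n) j (n.primeFactors.card - j) (by omega)
        (fun i hi => htwo _ (by omega))
      rw [e1, e2] at heq
      have h3 : 2 ≤ PP (pseq n) j := by
        have h4 : pseq n 0 ∣ PP (pseq n) j := dvd_prod_of_mem _ (mem_range.2 h0)
        have h5 : 0 < PP (pseq n) j := prod_pos (fun i hi => by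
          have := htwo i (by have := mem_range.1 hi; omega)
          omega)
        exact (htwo 0 (by omega)).trans (Nat.le_of_dvd h5 h4)
      by_contra hcon
      rw [not_lt] at hcon
      have h6 := Nat.mul_le_mul_right
        (∏ i ∈ range (n.primeFactors.card - j), (pseq n (j + i) - 1)) hcon
      have h7 := Nat.mul_le_mul_left (PP (pseq n) j) h2
      nlinarith
  · intro S
    refine ⟨fun i hi _ => Nat.prime_of_mem_primeFactors (pseq_mem hi), ?_, ?_⟩
    · intro i hi _
      have h2 := htwo i hi
      rcases Nat.lt_or_ge 2 (pseq n i) with h3 | h3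
      · exact h3
      · exfalso
        have h4 : pseq n i = 2 := by omega
        have h5 := Nat.dvd_of_mem_primeFactors (pseq_mem hi)
        rw [h4] at h5
        exact hodd h5
    · intro i j hij hj _ hd
      apply leh_not_dvd h' (Nat.prime_of_mem_primeFactors (pseq_mem (hij.trans hj)))
        (Nat.dvd_of_mem_primeFactors (pseq_mem (hij.trans hj)))
      refine hd.trans ?_
      have h2 := Nat.totient_dvd_of_dvd (Nat.dvd_of_mem_primeFactors (pseq_mem hj))
      rwa [Nat.totient_prime (Nat.prime_of_mem_primeFactors (pseq_mem hj))] at h2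

/-- if `3` is the first term then `k ≥ 4` -/
theorem four_le {n k r : ℕ} {x : ℕ → ℕ} (h : Data n k r x) (h3 : x 0 = 3) : 4 ≤ k := by
  have hF : ∀ j, j < r → FF x (j + 1) % 3 = 2 := by
    intro j
    induction j with
    | zero =>
      intro _
      simp [FF, h3]
    | succ j ih =>
      intro hj
      have h1 := ih (by omega)
      have hp := (h.adm r).prime (j + 1) hj hj
      have hnd := (h.adm r).nd 0 (j + 1) (by omega) hj hj
      have hlt : ∀ i, i < r → x 0 ≤ x i := by
        intro i
        induction i with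
        | zero => intro _; exact le_rfl
        | succ i ih2 =>
          intro hi
          have h4 := h.sq.lt i hi
          have h5 := ih2 (by omega)
          omega
      have hlt2 := h.sq.lt j hj
      have hlt3 := hlt j (by omega)
      rw [h3] at hnd
      have h5 : x (j + 1) % 3 = 2 := by
        have h6 : x (j + 1) % 3 ≠ 0 := by
          intro h7
          have h8 := (Nat.prime_dvd_prime_iff_eq Nat.prime_three hp).1
            (Nat.dvd_of_mod_eq_zero h7)
          omega
        have h7 : x (j + 1) % 3 ≠ 1 := by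
          intro h7
          apply hnd
          omega
        omega
      rw [FF_succ, Nat.mul_mod, h1]
      have h6 : (x (j + 1) - 1) % 3 = 1 := by omega
      rw [h6]
  have h1 := hF (r - 1) (by have := h.pos; omega)
  rw [Nat.sub_add_cancel h.pos] at h1
  have h2 : PP x r % 3 = 0 := by
    have : x 0 ∣ PP x r := dvd_prod_of_mem _ (mem_range.2 h.pos)
    rw [h3] at this
    exact Nat.mod_eq_zero_of_dvd this
  have h4 := h.eq
  have h5 := h.two
  have h6 : (k * FF x r + 1) % 3 = 0 := by rw [h4]; exact h2
  have h7 : k % 3 = 1 := by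
    have h8 : (k * FF x r) % 3 = ((k % 3) * 2) % 3 := by rw [Nat.mul_mod, h1]
    omega
  omega

/-- the main bound for general sequences -/
theorem bound_seq {k r : ℕ} {x : ℕ → ℕ} (hx : Sq k r x) (hr : 0 < r) (hA : Adm 13 r x)
    (hex : r ≤ 13 → k * FF x r + 1 = PP x r) (hk2 : 2 ≤ k) (h3 : x 0 = 3 → 4 ≤ k) :
    (PP x r) ^ 100 < 2 ^ (2 ^ r) := by
  have hp := hA.prime 0 hr (by norm_num)
  have hg := hA.ge 0 hr (by norm_num)
  by_cases h : x 0 = 3
  · have hk := h3 h
    refine leaf_sound 100 13 3 (by norm_num) (s0 := 1) (kk := 4) (by norm_num) hk hx hA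
      (by simp [PP, h]) 40 3 5 1 5 x run_leaf4 le_rfl (by omega)
      (fun i hi => hx.two i (by omega)) (fun i _ => le_rfl) (by simp [PP, h])
      (by simp [FF, h]) (by norm_num) (by norm_num) ?_
    intro h1
    have h2 := hx.lt 0 h1
    have h4 := hA.prime 1 h1 (by norm_num)
    simp only [zero_add] at h2
    have h5 : x 1 ≠ 4 := by
      intro h6
      rw [h6] at h4
      revert h4; norm_num
    omega
  · have h5 : 5 ≤ x 0 := by
      have h6 : x 0 ≠ 4 := by
        intro h7
        rw [h7] at hp
        revert hp; norm_num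
      omega
    rcases Nat.lt_or_ge 2 k with h7 | h7
    · exact leaf_sound 100 13 1 (by norm_num) (s0 := 0) (kk := 3) (by norm_num) h7 hx hA
        (by simp [PP]) 40 1 2 0 5 x run_leaf3 le_rfl (by omega)
        (fun i hi => by omega) (fun i _ => le_rfl) (by simp [PP])
        (by simp [FF]) (by norm_num) (by norm_num) (fun _ => h5)
    · have h8 : k = 2 := by omega
      subst h8
      exact tree_sound 100 13 (by norm_num) (by norm_num) hx hA hex 3000 1 1 0 5 run_tree
        (by omega) (by simp [PP]) (by simp [FF]) (by norm_num) (by norm_num) (fun _ => h5)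

theorem leh_bound {n : ℕ} (h : Leh n) : n ^ 100 < 2 ^ (2 ^ n.primeFactors.card) := by
  obtain ⟨k, hd⟩ := data_of h
  have := bound_seq hd.sq hd.pos (hd.adm 13) (fun _ => hd.eq) hd.two (four_le hd)
  rwa [hd.prod] at this

end Pool.Agent.R330.LT
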