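import Pool.Agent.R330.LT.Compare
import Pool.Agent.R330.LT.Check

set_option autoImplicit false

/-!
# Soundness of the search
-/

namespace Pool.Agent.R330.LT

open Finset

/-- the first `S` terms are odd primes, none of them divides the predecessor of a later one -/
structure Adm (S r : ℕ) (x : ℕ → ℕ) : Prop where
  prime : ∀ i, i < r → i < S → (x i).Prime
  ge : ∀ i, i < r → i < S → 3 ≤ x i
  nd : ∀ i j, i < j → j < r → j < S → ¬ x i ∣ x j - 1

theorem okq_of {S r : ℕ} {x : ℕ → ℕ} (hA : Adm S r x) {s0 s : ℕ} (h0 : s0 ≤ s) (hs : s < r)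
    (hS : s < S) : okq (PP x s0) (x s) = true := by
  have hp := hA.prime s hs hS
  have h3 := hA.ge s hs hS
  have h1 : Nat.gcd (x s - 1) (PP x s0) = 1 := by
    apply Nat.Coprime.prod_right
    intro i hi
    have hi' := mem_range.1 hi
    have hpi := hA.prime i (by omega) (by omega)
    rw [Nat.coprime_comm]
    exact (Nat.Prime.coprime_iff_not_dvd hpi).2 (hA.nd i s (by omega) hs hS)
  have h2 : Nat.gcd (x s) 9699690 = 1 ∨ x s ∣ 9699690 := by
    rcases hp.coprime_iff_not_dvd.2.mt, (em (x s ∣ 9699690)) with ⟨_, h | h⟩
    · exact Or.inr h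
    · exact Or.inl (hp.coprime_iff_not_dvd.2 h)
  unfold okq
  rcases h2 with h2 | h2
  · rw [h1, h2]
    rfl
  · have h4 : x s = 3 ∨ x s = 5 ∨ x s = 7 ∨ x s = 11 ∨ x s = 13 ∨ x s = 17 ∨ x s = 19 := by
      have h5 : (9699690 : ℕ) = 2 * 3 * 5 * 7 * 11 * 13 * 17 * 19 := by norm_num
      rw [h5] at h2
      have hd : ∀ a b : ℕ, x s ∣ a * b → b.Prime → x s ∣ a ∨ x s = b := by
        intro a b hab hb
        rcases (Nat.Prime.dvd_mul hp).1 hab with h | h
        · exact Or.inl h
        · exact Or.inr ((Nat.prime_dvd_prime_iff_eq hp hb).1 h)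
      rcases hd _ _ h2 (by norm_num) with h | h
      · rcases hd _ _ h (by norm_num) with h | h
        · rcases hd _ _ h (by norm_num) with h | h
          · rcases hd _ _ h (by norm_num) with h | h
            · rcases hd _ _ h (by norm_num) with h | h
              · rcases hd _ _ h (by norm_num) with h | h
                · rcases hd _ _ h (by norm_num) with h | h
                  · have := Nat.le_of_dvd (by norm_num) h
                    omega
                  · omega
                · omega
              · omega
            · omega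
          · omega
        · omega
      · omega
    rw [h1]
    rcases h4 with h | h | h | h | h | h | h <;> rw [h] <;> decide

theorem nxt_sound (P0 f : ℕ) : ∀ (m : ℕ) (c : ℕ → Bool), nxt P0 f m c = true →
    ∃ q, m ≤ q ∧ c q = true ∧ ∀ z, m ≤ z → okq P0 z = true → q ≤ z := by
  induction f with
  | zero => intro m c h; exact ⟨m, le_rfl, h, fun z hz _ => hz⟩
  | succ f ih =>
    intro m c h
    rw [nxt] at h
    split at h
    · exact ⟨m, le_rfl, h, fun z hz _ => hz⟩
    · rename_i hok
      rw [force_eq] at h
      obtain ⟨q, h1, h2, h3⟩ := ih (m + 1) c h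
      refine ⟨q, by omega, h2, fun z hz hz2 => h3 z ?_ hz2⟩
      rcases Nat.lt_or_ge m z with h4 | h4
      · omega
      · exfalso
        have : z = m := by omega
        rw [this, hok] at hz2
        exact absurd hz2 (by decide)

theorem PP_congr {x y : ℕ → ℕ} {s : ℕ} (h : ∀ i, i < s → x i = y i) : PP x s = PP y s :=
  prod_congr rfl (fun i hi => h i (mem_range.1 hi))

theorem FF_congr {x y : ℕ → ℕ} {s : ℕ} (h : ∀ i, i < s → x i = y i) : FF x s = FF y s :=
  prod_congr rfl (fun i hi => by rw [h i (mem_range.1 hi)])

theorem step_eq {P D q : ℕ} (h : P < D * (q - 1)) :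
    (P + D) * (q - 1) = P * q + (D * (q - 1) - P) := by
  rcases Nat.eq_zero_or_pos q with h0 | h0
  · subst h0; simp at h
  obtain ⟨t, rfl⟩ : ∃ t, q = t + 1 := ⟨q - 1, by omega⟩
  rw [Nat.add_sub_cancel] at *
  have e : P * (t + 1) = P * t + P := by ring
  rw [add_mul, e]
  omega

/-- the bound at a leaf -/
theorem leaf_bound {E k kk r s : ℕ} {x y : ℕ → ℕ} (hkk1 : 1 ≤ kk) (hkk : kk ≤ k) (hs : s < r)
    (hx : Sq k r x) (hy2 : ∀ i, i < s → 2 ≤ y i) (hyx : ∀ i, i < s → y i ≤ x i)
    (P D : ℕ) (hP : PP y s = P) (hD : kk * FF y s = P + D) (hD1 : 1 ≤ D) (hE : 1 ≤ E)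
    (h : (P * (P + D + 1) + D) ^ E ≤ D ^ E * 2 ^ (2 ^ (s + 1))) :
    (PP x r) ^ E < 2 ^ (2 ^ r) := by
  have hc := compare hkk1 hkk hs hx hy2 hyx (P : ℝ) (D : ℝ) (by rw [hP])
    (by
      have : (kk : ℝ) * FF y s = P + D := by exact_mod_cast hD
      rw [this]; ring) (by exact_mod_cast hD1)
  have hDR : (0 : ℝ) < D := by exact_mod_cast hD1
  have hPR : (0 : ℝ) < P := by
    have : 0 < PP y s := prod_pos (fun i hi => by have := hy2 i (mem_range.1 hi); omega)
    rw [hP] at this
    exact_mod_cast this
  set b : ℝ := (P : ℝ) * (((P : ℝ) + D + 1) / D) with hb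
  have hb0 : 0 < b := by positivity
  have h1 : (PP x r : ℝ) < (b + 1) ^ (2 ^ (r - s - 1)) := by
    rw [← bb_add_one]
    linarith
  have h2 : (b + 1) ^ E ≤ 2 ^ (2 ^ (s + 1)) := by
    have e : b + 1 = ((P : ℝ) * (P + D + 1) + D) / D := by
      rw [hb]; field_simp
    have h' : ((P : ℝ) * (P + D + 1) + D) ^ E ≤ (D : ℝ) ^ E * 2 ^ (2 ^ (s + 1)) := by
      exact_mod_cast h
    rw [e, div_pow, div_le_iff₀ (by positivity)]
    linarith
  have h3 : (PP x r : ℝ) ^ E < ((b + 1) ^ (2 ^ (r - s - 1))) ^ E :=
    pow_lt_pow_left₀ h1 (by positivity) (by omega)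
  have h4 : ((b + 1) ^ (2 ^ (r - s - 1))) ^ E ≤ (2 : ℝ) ^ (2 ^ r) := by
    calc ((b + 1) ^ (2 ^ (r - s - 1))) ^ E = ((b + 1) ^ E) ^ (2 ^ (r - s - 1)) := by
          rw [← pow_mul, ← pow_mul, mul_comm]
      _ ≤ (2 ^ (2 ^ (s + 1))) ^ (2 ^ (r - s - 1)) := pow_le_pow_left₀ (by positivity) h2 _
      _ = 2 ^ (2 ^ r) := by
          rw [← pow_mul, ← pow_add]
          congr 2
          omega
  have h5 := h3.trans_le h4
  exact_mod_cast h5

theorem leaf_sound (E S P0 : ℕ) (hE : 1 ≤ E) {k kk r s0 : ℕ} {x : ℕ → ℕ} (hkk1 : 1 ≤ kk)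
    (hkk : kk ≤ k) (hx : Sq k r x) (hA : Adm S r x) (hP0 : P0 = PP x s0) (f : ℕ) :
    ∀ (P D s m : ℕ) (y : ℕ → ℕ), leaf E S P0 f P D s m = true → s0 ≤ s → s ≤ r →
      (∀ i, i < s → 2 ≤ y i) → (∀ i, i < s → y i ≤ x i) → PP y s = P → kk * FF y s = P + D →
      1 ≤ D → 2 ≤ m → (s < r → m ≤ x s) → (PP x r) ^ E < 2 ^ (2 ^ r) := by
  induction f with
  | zero => intro P D s m y h; simp [leaf] at h
  | succ f ih =>
    intro P D s m y h hs0 hsr hy2 hyx hP hD hD1 hm2 hm
    have hs : s < r := s_lt hkk hx hsr hy2 hyx (by rw [hP, hD]; omega)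
    rw [leaf] at h
    split at h
    · rename_i hble
      exact leaf_bound hkk1 hkk hs hx hy2 hyx P D hP hD hD1 hE (Nat.le_of_ble_eq_true hble)
    · split at h
      · exact absurd h (by decide)
      · rename_i hblt
        have hsS : s < S := by
          have := Nat.blt_eq.mp hblt
          exact this
        obtain ⟨q, hq1, hq2, hq3⟩ := nxt_sound _ _ _ _ h
        have hqx : q ≤ x s := hq3 (x s) (hm hs) (by rw [hP0]; exact okq_of hA hs0 hs hsS)
        split at hq2
        · exact absurd hq2 (by decide)
        · rename_i hble2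
          have hlt : P < D * (q - 1) := by
            by_contra hc
            rw [not_lt] at hc
            rw [Nat.ble_eq_true_of_le hc] at hble2
            exact absurd hble2 (by decide)
          simp only [force_eq] at hq2
          have hyl : ∀ i, i < s → Function.update y s q i = y i := by
            intro i hi
            rw [Function.update_of_ne (by omega)]
          refine ih (P * q) (D * (q - 1) - P) (s + 1) (q + 1) (Function.update y s q) hq2
            (by omega) (by omega) ?_ ?_ ?_ ?_ (by omega) (by omega) ?_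
          · intro i hi
            rcases Nat.lt_or_ge i s with h1 | h1
            · rw [hyl i h1]; exact hy2 i h1
            · have : i = s := by omega
              subst this
              rw [Function.update_self]; omega
          · intro i hi
            rcases Nat.lt_or_ge i s with h1 | h1
            · rw [hyl i h1]; exact hyx i h1
            · have : i = s := by omega
              subst this
              rw [Function.update_self]; exact hqx
          · rw [PP_succ, PP_congr hyl, hP, Function.update_self]
          · rw [FF_succ, FF_congr hyl, Function.update_self, ← mul_assoc, hD]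
            exact step_eq hlt
          · intro h1
            have := hx.lt s h1
            omega

theorem tree_sound (E S : ℕ) (hE : 1 ≤ E) {k r : ℕ} {x : ℕ → ℕ} (hk : 1 ≤ k)
    (hx : Sq k r x) (hA : Adm S r x) (hex : r ≤ S → k * FF x r + 1 = PP x r) (f : ℕ) :
    ∀ (P D s m : ℕ), tree E S f P D s m = true → s ≤ r → PP x s = P → k * FF x s = P + D →
      1 ≤ D → 2 ≤ m → (s < r → m ≤ x s) → (PP x r) ^ E < 2 ^ (2 ^ r) := by
  induction f with
  | zero => intro P D s m h; simp [tree] at h
  | succ f ih =>
    intro P D s m h hsr hP hD hD1 hm2 hm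
    have hs : s < r := by
      rcases Nat.lt_or_ge s r with h1 | h1
      · exact h1
      · exfalso
        have : s = r := by omega
        subst this
        have := hx.fin
        omega
    rw [tree] at h
    split at h
    · exact absurd h (by decide)
    rename_i hblt
    have hsS : s < S := Nat.blt_eq.mp hblt
    split at h
    · exact absurd h (by decide)
    rename_i hfin
    have hxs2 := hx.two s hs
    rcases Nat.lt_or_ge (s + 1) r with hs1 | hs1
    · -- not the last one
      have hlow : P / D + 2 ≤ x s := by
        have h1 := hx.pre (s + 1) hs1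
        rw [PP_succ, FF_succ, ← mul_assoc, hD, hP] at h1
        obtain ⟨t, ht⟩ : ∃ t, x s = t + 1 := ⟨x s - 1, by omega⟩
        rw [ht, Nat.add_sub_cancel] at h1
        have h2 : P < t * D := by nlinarith
        have h3 : P / D < t := (Nat.div_lt_iff_lt_mul (by omega)).2 h2
        omega
      rw [force_eq] at h
      have hm' : max m (P / D + 2) ≤ x s := max_le (hm hs) hlow
      split at h
      · rename_i hleaf
        exact leaf_sound E S P hE hk le_rfl hx hA hP.symm 40 P D s _ x hleaf le_rfl hsr
          (fun i hi => hx.two i (by omega)) (fun i _ => le_rfl) hP hD hD1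
          (le_trans hm2 (le_max_left _ _)) (fun _ => hm')
      · obtain ⟨q, hq1, hq2, hq3⟩ := nxt_sound _ _ _ _ h
        have hqx : q ≤ x s := hq3 (x s) hm' (by rw [← hP]; exact okq_of hA le_rfl hs hsS)
        simp only [force_eq] at hq2
        split at hq2
        · exact absurd hq2 (by decide)
        rename_i htree
        split at hq2
        · exact absurd hq2 (by decide)
        rename_i hble2
        have hlt : P < D * (q - 1) := by
          by_contra hc
          rw [not_lt] at hc
          rw [Nat.ble_eq_true_of_le hc] at hble2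
          exact absurd hble2 (by decide)
        have hq2' : 2 ≤ q := le_trans hm2 (le_trans (le_max_left _ _) hq1)
        rcases Nat.lt_or_ge q (x s) with h1 | h1
        · exact ih P D s (q + 1) htree hsr hP hD hD1 (by omega) (fun _ => by omega)
        · have hqe : x s = q := by omega
          refine ih (P * q) (D * (q - 1) - P) (s + 1) (q + 1) hq2 (by omega) ?_ ?_ (by omega)
            (by omega) ?_
          · rw [PP_succ, hP, hqe]
          · rw [FF_succ, hqe, ← mul_assoc, hD]
            exact step_eq hlt
          · intro h3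
            have := hx.lt s h3
            omega
    · -- the last one
      have hr : r = s + 1 := by omega
      have hex' := hex (by omega)
      subst hr
      rw [PP_succ, FF_succ, ← mul_assoc, hD, hP] at hex'
      obtain ⟨t, ht⟩ : ∃ t, x s = t + 1 := ⟨x s - 1, by omega⟩
      rw [ht, Nat.add_sub_cancel] at hex'
      have h1 : D * t + 1 = P := by nlinarith
      have h2 : P - 1 = D * t := by omega
      have h3 : (P - 1) % D = 0 := by rw [h2]; exact Nat.mul_mod_right _ _
      have h4 : (P - 1) / D + 1 = x s := by
        rw [h2, Nat.mul_div_cancel_left _ (by omega), ht]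
      unfold fin1 at hfin
      rw [h3, h4] at hfin
      split at hfin
      · rename_i h5
        exact absurd h5 (by decide)
      rw [force_eq] at hfin
      have h6 : Nat.blt (x s) m = false := by
        have := hm hs
        rcases hb : Nat.blt (x s) m with _ | _
        · rfl
        · have := Nat.blt_eq.mp hb
          omega
      rw [h6] at hfin
      simp only at hfin
      rw [← hP, okq_of hA le_rfl hs hsS] at hfin
      simp only at hfin
      rw [PP_succ]
      exact Nat.blt_eq.mp hfin

end Pool.Agent.R330.LT
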